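import Pool.Agent.Lib_helper93.Nyman.Fun

set_option autoImplicit false
open Set Filter Topology MeasureTheory
open scoped Interval

namespace Pool.Agent.Nyman

lemma laplace_differentiable {v : ℝ → ℂ} {a b : ℝ} (hv : IntervalIntegrable v volume a b) (c : ℝ) :
    Differentiable ℂ (fun z : ℂ => ∫ t in a..b, v t * Complex.exp (-(z * (t - c)))) := by
  intro z0
  set M : ℝ := |a| + |b| + |c| with hM
  have hM0 : 0 ≤ M := by positivity
  have htM : ∀ t ∈ Ι a b, |t - c| ≤ M := by
    intro t ht
    have h1 := ht.1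
    have h2 := ht.2
    have h3 : |t| ≤ |a| + |b| := by
      rw [abs_le]
      constructor
      · have : -(|a| + |b|) ≤ min a b := by
          apply le_min
          · have := neg_abs_le a; have := abs_nonneg b; linarith
          · have := neg_abs_le b; have := abs_nonneg a; linarith
        linarith
      · have : max a b ≤ |a| + |b| := by
          apply max_le
          · have := le_abs_self a; have := abs_nonneg b; linarith
          · have := le_abs_self b; have := abs_nonneg a; linarith
        linarith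
    calc |t - c| ≤ |t| + |c| := abs_sub _ _
      _ ≤ M := by rw [hM]; linarith
  have hcont : ∀ z : ℂ, Continuous fun t : ℝ => Complex.exp (-(z * (t - c))) := by
    intro z; fun_prop
  have hcont' : ∀ z : ℂ, Continuous fun t : ℝ => -((t : ℂ) - c) * Complex.exp (-(z * (t - c))) := by
    intro z; fun_prop
  have hvm : AEStronglyMeasurable v (volume.restrict (Ι a b)) :=
    (intervalIntegrable_iff.1 hv).aestronglyMeasurable
  have key := intervalIntegral.hasDerivAt_integral_of_dominated_loc_of_deriv_le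
    (μ := volume) (a := a) (b := b) (𝕜 := ℂ) (E := ℂ) (x₀ := z0) (s := Metric.ball z0 1)
    (F := fun z t => v t * Complex.exp (-(z * (t - c))))
    (F' := fun z t => v t * (-((t : ℂ) - c) * Complex.exp (-(z * (t - c)))))
    (bound := fun t => ‖v t‖ * (M * Real.exp ((‖z0‖ + 1) * M)))
    (Metric.ball_mem_nhds _ one_pos) ?_ ?_ ?_ ?_ ?_ ?_
  · exact key.2.differentiableAt
  · refine Filter.Eventually.of_forall fun z => ?_
    exact hvm.mul (hcont z).aestronglyMeasurable
  · exact hv.mul_continuousOn (hcont z0).continuousOn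
  · exact hvm.mul (hcont' z0).aestronglyMeasurable
  · refine Filter.Eventually.of_forall fun t ht z hz => ?_
    rw [norm_mul, norm_mul, norm_neg]
    have h1 : ‖(t : ℂ) - c‖ ≤ M := by
      rw [← Complex.ofReal_sub, Complex.norm_real]
      exact htM t ht
    have h2 : ‖Complex.exp (-(z * (t - c)))‖ ≤ Real.exp ((‖z0‖ + 1) * M) := by
      refine (Complex.norm_exp_le_exp_norm _).trans ?_
      apply Real.exp_le_exp.2
      rw [norm_neg, norm_mul]
      have h3 : ‖z‖ ≤ ‖z0‖ + 1 := by
        have := mem_ball_iff_norm.1 hz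
        calc ‖z‖ = ‖z0 + (z - z0)‖ := by ring_nf
          _ ≤ ‖z0‖ + ‖z - z0‖ := norm_add_le _ _
          _ ≤ _ := by linarith
      gcongr
    gcongr
  · exact hv.norm.mul_const _
  · refine Filter.Eventually.of_forall fun t ht z hz => ?_
    have h1 : HasDerivAt (fun z : ℂ => -(z * ((t : ℂ) - c))) (-(1 * ((t : ℂ) - c))) z :=
      ((hasDerivAt_id z).mul_const ((t : ℂ) - c)).fun_neg
    have h2 := h1.cexp
    have h3 := h2.const_mul (v t)
    have e : v t * (-((t : ℂ) - c) * Complex.exp (-(z * (t - c)))) =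
      v t * (Complex.exp (-(z * ((t : ℂ) - c))) * -(1 * ((t : ℂ) - c))) := by ring
    rw [e]
    exact h3

/-- Block integral of `v` over the (shifted) `n`-th block of level `i`. -/
noncomputable def blk (v : ℝ → ℂ) (i n : ℕ) (z : ℂ) : ℂ :=
  ∫ t in ((n : ℝ) * T i - 1)..(((n + 1 : ℕ) : ℝ) * T i - 1),
    v t * Complex.exp (-(z * (t - ((n : ℝ) * T i : ℝ))))

/-- The weighted density. -/
noncomputable def wv (v : ℝ → ℂ) : ℝ → ℝ := indicator (Ici (0 : ℝ)) (fun t => ‖v t‖ * om t)

noncomputable def nb (v : ℝ → ℂ) (i n : ℕ) : ℝ :=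
  ∫ t in ((n : ℝ) * T i - 1)..(((n + 1 : ℕ) : ℝ) * T i - 1), wv v t

/-- Hypotheses on the function `v`. -/
structure VHyp (v : ℝ → ℂ) : Prop where
  neg : ∀ t < 0, v t = 0
  loc : ∀ a b, IntervalIntegrable v volume a b
  int : Integrable (wv v)
  le_one : ∫ t, wv v t ≤ 1

lemma wv_nonneg (v : ℝ → ℂ) (t : ℝ) : 0 ≤ wv v t := by
  unfold wv
  apply indicator_nonneg
  intro t _
  exact mul_nonneg (norm_nonneg _) (om_pos t).le

lemma nb_nonneg (v : ℝ → ℂ) (i n : ℕ) : 0 ≤ nb v i n := by
  unfold nb
  apply intervalIntegral.integral_nonneg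
  · have := T_pos i; push_cast; nlinarith
  · intro t _; exact wv_nonneg v t

lemma nb_sum_le {v : ℝ → ℂ} (hv : VHyp v) (i M : ℕ) :
    ∑ n ∈ Finset.range M, nb v i n ≤ 1 := by
  unfold nb
  rw [intervalIntegral.sum_integral_adjacent_intervals
    (a := fun k : ℕ => (k : ℝ) * T i - 1) (fun k _ => hv.int.intervalIntegrable)]
  rw [intervalIntegral.integral_of_le (by
    have := T_pos i
    have : (0 : ℝ) ≤ M := Nat.cast_nonneg M
    push_cast
    nlinarith)]
  refine le_trans ?_ hv.le_one
  exact setIntegral_le_integral hv.int (Filter.Eventually.of_forall (wv_nonneg v))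

lemma blk_differentiable {v : ℝ → ℂ} (hv : VHyp v) (i n : ℕ) : Differentiable ℂ (blk v i n) := by
  unfold blk
  exact laplace_differentiable (hv.loc _ _) _

lemma blk_le {v : ℝ → ℂ} (hv : VHyp v) (i n : ℕ) (hn : n < N i) {z : ℂ}
    (h1 : -S i ≤ z.re) (h2 : z.re ≤ Hs i - S (i + 1)) :
    ‖blk v i n z‖ ≤ (xw i ^ n)⁻¹ * nb v i n := by
  unfold blk nb
  rw [← intervalIntegral.integral_const_mul]
  apply intervalIntegral.norm_integral_le_of_norm_le
  · have := T_pos i; push_cast; nlinarith
  · refine Filter.Eventually.of_forall fun t ht => ?_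
    rcases lt_or_ge t 0 with h0 | h0
    · rw [hv.neg t h0, zero_mul, norm_zero]
      exact mul_nonneg (inv_nonneg.2 (pow_nonneg (xw_pos i).le n)) (wv_nonneg v t)
    · have h3 := om_ge i n hn (a := z.re) h0 ht.1.le (by have := ht.2; push_cast at this; linarith)
        h1 h2
      have e1 : ‖Complex.exp (-(z * (t - ((n : ℝ) * T i : ℝ))))‖ =
          Real.exp (-(z.re * (t - n * T i))) := by
        rw [Complex.norm_exp]
        congr 1
        rw [← Complex.ofReal_sub]
        simp
      have e2 : wv v t = ‖v t‖ * om t := by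
        unfold wv
        rw [indicator_of_mem (show t ∈ Ici (0 : ℝ) from h0)]
      rw [norm_mul, e1, e2]
      have h4 := xw_pos i
      have h5 : 0 < xw i ^ n := pow_pos h4 n
      rw [inv_mul_eq_div, le_div_iff₀ h5]
      calc ‖v t‖ * Real.exp (-(z.re * (t - n * T i))) * xw i ^ n
          = ‖v t‖ * (xw i ^ n * Real.exp (-(z.re * (t - n * T i)))) := by ring
        _ ≤ ‖v t‖ * om t := by gcongr
  · exact (hv.int.intervalIntegrable).const_mul _

lemma blk_sum {v : ℝ → ℂ} (hv : VHyp v) (i : ℕ) (z : ℂ) :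
    ∑ n ∈ Finset.range (N i), Complex.exp (-(T i * z)) ^ n * blk v i n z = blk v (i + 1) 0 z := by
  have h1 : ∀ n : ℕ, Complex.exp (-(T i * z)) ^ n * blk v i n z =
      ∫ t in ((n : ℝ) * T i - 1)..(((n + 1 : ℕ) : ℝ) * T i - 1), v t * Complex.exp (-(z * t)) := by
    intro n
    unfold blk
    rw [← intervalIntegral.integral_const_mul]
    congr 1
    ext t
    rw [← Complex.exp_nat_mul]
    rw [show Complex.exp (n * (-(T i * z))) * (v t * Complex.exp (-(z * (t - ((n : ℝ) * T i : ℝ))))) =
      v t * (Complex.exp (n * (-(T i * z))) * Complex.exp (-(z * (t - ((n : ℝ) * T i : ℝ))))) by ring,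
      ← Complex.exp_add]
    congr 2
    push_cast
    ring
  rw [Finset.sum_congr rfl (fun n _ => h1 n)]
  rw [intervalIntegral.sum_integral_adjacent_intervals
    (a := fun k : ℕ => (k : ℝ) * T i - 1) (fun k _ => ?_)]
  · unfold blk
    simp only [Nat.cast_zero, zero_mul, zero_add, Nat.cast_one, one_mul, N_mul,
      Complex.ofReal_zero, sub_zero]
  · exact (hv.loc _ _).mul_continuousOn (by fun_prop)

end Pool.Agent.Nyman
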