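import Mathlib

set_option autoImplicit false
open Complex Set

namespace Pool.Agent.Nyman

/-- maximum modulus on a rectangle -/
theorem maxrect {f : ℂ → ℂ} {x0 x1 y0 y1 C : ℝ} (hx : x0 < x1) (hy : y0 < y1)
    (hd : ∀ z : ℂ, x0 ≤ z.re → z.re ≤ x1 → y0 ≤ z.im → z.im ≤ y1 → DifferentiableAt ℂ f z)
    (hl : ∀ z : ℂ, z.re = x0 → y0 ≤ z.im → z.im ≤ y1 → ‖f z‖ ≤ C)
    (hr : ∀ z : ℂ, z.re = x1 → y0 ≤ z.im → z.im ≤ y1 → ‖f z‖ ≤ C)
    (hb : ∀ z : ℂ, z.im = y0 → x0 ≤ z.re → z.re ≤ x1 → ‖f z‖ ≤ C)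
    (ht : ∀ z : ℂ, z.im = y1 → x0 ≤ z.re → z.re ≤ x1 → ‖f z‖ ≤ C)
    {z : ℂ} (h1 : x0 ≤ z.re) (h2 : z.re ≤ x1) (h3 : y0 ≤ z.im) (h4 : z.im ≤ y1) :
    ‖f z‖ ≤ C := by
  have hcl : closure (Ioo x0 x1 ×ℂ Ioo y0 y1) = Icc x0 x1 ×ℂ Icc y0 y1 := by
    rw [closure_reProdIm, closure_Ioo hx.ne, closure_Ioo hy.ne]
  have hdc : DiffContOnCl ℂ f (Ioo x0 x1 ×ℂ Ioo y0 y1) := by
    apply DifferentiableOn.diffContOnCl
    rw [hcl]
    intro w hw
    rw [mem_reProdIm] at hw
    exact (hd w hw.1.1 hw.1.2 hw.2.1 hw.2.2).differentiableWithinAt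
  have hbd : Bornology.IsBounded (Ioo x0 x1 ×ℂ Ioo y0 y1) :=
    (Metric.isBounded_Ioo x0 x1).reProdIm (Metric.isBounded_Ioo y0 y1)
  refine Complex.norm_le_of_forall_mem_frontier_norm_le hbd hdc ?_ ?_
  · intro w hw
    rw [frontier_reProdIm, closure_Ioo hx.ne, closure_Ioo hy.ne, frontier_Ioo hx,
      frontier_Ioo hy] at hw
    rcases hw with hw | hw
    · rw [mem_reProdIm] at hw
      rcases hw with ⟨hw1, hw2⟩
      rcases hw2 with h | h
      · exact hb w h hw1.1 hw1.2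
      · exact ht w h hw1.1 hw1.2
    · rw [mem_reProdIm] at hw
      rcases hw with ⟨hw1, hw2⟩
      rcases hw1 with h | h
      · exact hl w h hw2.1 hw2.2
      · exact hr w h hw2.1 hw2.2
  · rw [hcl, mem_reProdIm]
    exact ⟨⟨h1, h2⟩, ⟨h3, h4⟩⟩

theorem lemA {FL FR : ℂ → ℂ} {x0 r a b y0 κ β C : ℝ} (hr : 0 < r) (h0a : x0 < a) (hab : a < b)
    (hbr : b < x0 + r) (hκ : 0 ≤ κ) (hβ : 0 ≤ β) (hC : 0 ≤ C)
    (hdL : ∀ z : ℂ, x0 ≤ z.re → z.re ≤ b → y0 - r ≤ z.im → z.im ≤ y0 + r →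
      DifferentiableAt ℂ FL z)
    (hdR : ∀ z : ℂ, a ≤ z.re → z.re ≤ x0 + r → y0 - r ≤ z.im → z.im ≤ y0 + r →
      DifferentiableAt ℂ FR z)
    (hL : ∀ z : ℂ, z.re = x0 → y0 - r ≤ z.im → z.im ≤ y0 + r → ‖FL z‖ ≤ C * Real.exp (-κ))
    (hLt : ∀ z : ℂ, x0 ≤ z.re → z.re ≤ b → y0 - r ≤ z.im → z.im ≤ y0 + r → ‖FL z‖ ≤ C)
    (hRt : ∀ z : ℂ, a ≤ z.re → z.re ≤ x0 + r → y0 - r ≤ z.im → z.im ≤ y0 + r → ‖FR z‖ ≤ C)
    (hjump : ∀ z : ℂ, a ≤ z.re → z.re ≤ b → y0 - r ≤ z.im → z.im ≤ y0 + r → ‖FL z - FR z‖ ≤ β)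
    (hsmall : β * Real.exp κ ≤ (1 - Real.exp (-((b - a) / r))) * (C * Real.exp 1)) :
    (∀ z : ℂ, x0 ≤ z.re → z.re ≤ b → y0 - r ≤ z.im → z.im ≤ y0 + r →
      ‖FL z‖ ≤ C * Real.exp 2 *
        Real.exp (-(κ * ((1 - (z.re - x0) / r) ^ 2 - ((z.im - y0) / r) ^ 2)))) ∧
    (∀ z : ℂ, a ≤ z.re → z.re ≤ x0 + r → y0 - r ≤ z.im → z.im ≤ y0 + r →
      ‖FR z‖ ≤ C * Real.exp 2 *
        Real.exp (-(κ * ((1 - (z.re - x0) / r) ^ 2 - ((z.im - y0) / r) ^ 2)))) := by
  set xm : ℝ := (a + b) / 2 with hxm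
  set Q : ℂ → ℝ := fun z => κ * ((1 - (z.re - x0) / r) ^ 2 - ((z.im - y0) / r) ^ 2) with hQ
  set K : ℂ → ℂ := fun z => Complex.exp (κ * (1 - (z - x0 - y0 * I) / r) ^ 2) with hK
  have hKn : ∀ z, ‖K z‖ = Real.exp (Q z) := by
    intro z
    simp only [hK, hQ, Complex.norm_exp]
    congr 1
    have e1 : ((1 : ℂ) - (z - x0 - y0 * I) / r) =
        ((1 - (z.re - x0) / r : ℝ) : ℂ) + ((-((z.im - y0) / r) : ℝ) : ℂ) * I := by
      apply Complex.ext
      · simp [Complex.div_ofReal_re]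
      · simp [Complex.div_ofReal_im]
    rw [e1]
    simp only [pow_two, Complex.mul_re, Complex.add_re, Complex.add_im, Complex.ofReal_re,
      Complex.ofReal_im, Complex.mul_im, Complex.I_re, Complex.I_im]
    ring
  set ΨL : ℂ → ℂ := fun z => FL z * K z * Complex.exp (-((z - xm) / r)) with hΨL
  set ΨR : ℂ → ℂ := fun z => FR z * K z * Complex.exp ((z - xm) / r) with hΨR
  have hEL : ∀ z : ℂ, ‖Complex.exp (-((z - xm) / r))‖ = Real.exp (-((z.re - xm) / r)) := by
    intro z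
    rw [Complex.norm_exp]
    congr 1
    simp [Complex.div_ofReal_re]
  have hER : ∀ z : ℂ, ‖Complex.exp ((z - xm) / r)‖ = Real.exp ((z.re - xm) / r) := by
    intro z
    rw [Complex.norm_exp]
    congr 1
    simp [Complex.div_ofReal_re]
  have hnL : ∀ z, ‖ΨL z‖ = ‖FL z‖ * Real.exp (Q z) * Real.exp (-((z.re - xm) / r)) := by
    intro z
    simp only [hΨL, norm_mul, hKn, hEL]
  have hnR : ∀ z, ‖ΨR z‖ = ‖FR z‖ * Real.exp (Q z) * Real.exp ((z.re - xm) / r) := by
    intro z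
    simp only [hΨR, norm_mul, hKn, hER]
  have hKd : ∀ z, DifferentiableAt ℂ K z := by
    intro z
    simp only [hK]
    fun_prop
  have hdΨL : ∀ z : ℂ, x0 ≤ z.re → z.re ≤ b → y0 - r ≤ z.im → z.im ≤ y0 + r →
      DifferentiableAt ℂ ΨL z := by
    intro z h1 h2 h3 h4
    exact ((hdL z h1 h2 h3 h4).mul (hKd z)).mul (by fun_prop)
  have hdΨR : ∀ z : ℂ, a ≤ z.re → z.re ≤ x0 + r → y0 - r ≤ z.im → z.im ≤ y0 + r →
      DifferentiableAt ℂ ΨR z := by
    intro z h1 h2 h3 h4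
    exact ((hdR z h1 h2 h3 h4).mul (hKd z)).mul (by fun_prop)
  -- maxima
  have hcQ1 : IsCompact (Icc x0 b ×ℂ Icc (y0 - r) (y0 + r)) :=
    isCompact_Icc.reProdIm isCompact_Icc
  have hcQ2 : IsCompact (Icc a (x0 + r) ×ℂ Icc (y0 - r) (y0 + r)) :=
    isCompact_Icc.reProdIm isCompact_Icc
  have hne1 : (Icc x0 b ×ℂ Icc (y0 - r) (y0 + r)).Nonempty :=
    ⟨⟨a, y0⟩, by rw [mem_reProdIm]; constructor <;> constructor <;> simp <;> linarith⟩
  have hne2 : (Icc a (x0 + r) ×ℂ Icc (y0 - r) (y0 + r)).Nonempty :=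
    ⟨⟨a, y0⟩, by rw [mem_reProdIm]; constructor <;> constructor <;> simp <;> linarith⟩
  obtain ⟨p, hp, hpm⟩ := hcQ1.exists_isMaxOn hne1 (f := fun z => ‖ΨL z‖) (by
    intro z hz
    rw [mem_reProdIm] at hz
    exact ((hdΨL z hz.1.1 hz.1.2 hz.2.1 hz.2.2).continuousAt.norm).continuousWithinAt)
  obtain ⟨p', hp', hpm'⟩ := hcQ2.exists_isMaxOn hne2 (f := fun z => ‖ΨR z‖) (by
    intro z hz
    rw [mem_reProdIm] at hz
    exact ((hdΨR z hz.1.1 hz.1.2 hz.2.1 hz.2.2).continuousAt.norm).continuousWithinAt)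
  set ML := ‖ΨL p‖ with hML
  set MR := ‖ΨR p'‖ with hMR
  set M0 : ℝ := C * Real.exp 1 with hM0
  set q : ℝ := Real.exp (-((b - a) / r)) with hq
  have hq1 : q < 1 := by
    rw [hq, Real.exp_lt_one_iff]
    have : 0 < (b - a) / r := div_pos (by linarith) hr
    linarith
  have hq0 : 0 < q := Real.exp_pos _
  have hmaxL : ∀ z : ℂ, x0 ≤ z.re → z.re ≤ b → y0 - r ≤ z.im → z.im ≤ y0 + r → ‖ΨL z‖ ≤ ML := by
    intro z h1 h2 h3 h4
    exact hpm (show z ∈ _ by rw [mem_reProdIm]; exact ⟨⟨h1, h2⟩, ⟨h3, h4⟩⟩)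
  have hmaxR : ∀ z : ℂ, a ≤ z.re → z.re ≤ x0 + r → y0 - r ≤ z.im → z.im ≤ y0 + r →
      ‖ΨR z‖ ≤ MR := by
    intro z h1 h2 h3 h4
    exact hpm' (show z ∈ _ by rw [mem_reProdIm]; exact ⟨⟨h1, h2⟩, ⟨h3, h4⟩⟩)
  -- bounds of the kernel
  have hX : ∀ z : ℂ, x0 ≤ z.re → z.re ≤ x0 + r → (1 - (z.re - x0) / r) ^ 2 ≤ 1 := by
    intro z h1 h2
    have h3 : 0 ≤ (z.re - x0) / r := div_nonneg (by linarith) hr.le
    have h4 : (z.re - x0) / r ≤ 1 := by rw [div_le_one hr]; linarith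
    nlinarith
  have hQκ : ∀ z : ℂ, x0 ≤ z.re → z.re ≤ x0 + r → Q z ≤ κ := by
    intro z h1 h2
    have := hX z h1 h2
    simp only [hQ]
    nlinarith [sq_nonneg ((z.im - y0) / r)]
  have hQtb : ∀ z : ℂ, x0 ≤ z.re → z.re ≤ x0 + r → (z.im = y0 - r ∨ z.im = y0 + r) →
      Q z ≤ 0 := by
    intro z h1 h2 h3
    have h4 := hX z h1 h2
    have h5 : ((z.im - y0) / r) ^ 2 = 1 := by
      rcases h3 with h | h
      · rw [h]; field_simp; ring
      · rw [h]; field_simp; ring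
    simp only [hQ]
    rw [h5]
    nlinarith
  have hQr : ∀ z : ℂ, z.re = x0 + r → Q z ≤ 0 := by
    intro z h
    simp only [hQ]
    rw [h]
    have : (1 - (x0 + r - x0) / r) = 0 := by field_simp; ring
    rw [this]
    nlinarith [sq_nonneg ((z.im - y0) / r)]
  have he1 : ∀ z : ℂ, x0 ≤ z.re → Real.exp (-((z.re - xm) / r)) ≤ Real.exp 1 := by
    intro z h
    apply Real.exp_le_exp.2
    rw [← neg_div, div_le_one hr, hxm]
    linarith
  have he2 : ∀ z : ℂ, z.re ≤ x0 + r → Real.exp ((z.re - xm) / r) ≤ Real.exp 1 := by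
    intro z h
    apply Real.exp_le_exp.2
    rw [div_le_one hr, hxm]
    linarith
  have hbβ : 0 ≤ β * Real.exp κ := mul_nonneg hβ (Real.exp_pos _).le
  have keyL : ML ≤ max M0 (q * MR + β * Real.exp κ) := by
    rw [mem_reProdIm] at hp
    refine maxrect (f := ΨL) (x0 := x0) (x1 := b) (y0 := y0 - r) (y1 := y0 + r)
      (by linarith) (by linarith) hdΨL ?_ ?_ ?_ ?_ hp.1.1 hp.1.2 hp.2.1 hp.2.2
    · intro z h1 h2 h3
      refine le_trans ?_ (le_max_left _ _)
      rw [hnL]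
      have e1 := hL z h1 h2 h3
      have e2 : Real.exp (Q z) ≤ Real.exp κ := Real.exp_le_exp.2 (hQκ z h1.ge (by linarith))
      have e3 := he1 z h1.ge
      calc ‖FL z‖ * Real.exp (Q z) * Real.exp (-((z.re - xm) / r))
          ≤ (C * Real.exp (-κ)) * Real.exp κ * Real.exp 1 := by gcongr
        _ = M0 := by
          rw [hM0, mul_assoc C, ← Real.exp_add]; simp
    · intro z h1 h2 h3
      refine le_trans ?_ (le_max_right _ _)
      rw [hnL]
      have e1 : ‖FL z‖ ≤ ‖FR z‖ + β := by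
        have := hjump z (by linarith) (by linarith) h2 h3
        calc ‖FL z‖ = ‖FR z + (FL z - FR z)‖ := by ring_nf
          _ ≤ ‖FR z‖ + ‖FL z - FR z‖ := norm_add_le _ _
          _ ≤ _ := by linarith
      have e2 : Real.exp (Q z) ≤ Real.exp κ :=
        Real.exp_le_exp.2 (hQκ z (by linarith) (by linarith))
      have e3 := hmaxR z (by linarith) (by linarith) h2 h3
      rw [hnR] at e3
      have e4 : Real.exp (-((z.re - xm) / r)) = q * Real.exp ((z.re - xm) / r) := by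
        rw [hq, ← Real.exp_add]
        congr 1
        rw [h1, hxm]; field_simp; ring
      have e5 : Real.exp (-((z.re - xm) / r)) ≤ 1 := by
        rw [Real.exp_le_one_iff, h1, hxm]
        have : 0 ≤ (b - (a + b) / 2) / r := div_nonneg (by linarith) hr.le
        linarith
      calc ‖FL z‖ * Real.exp (Q z) * Real.exp (-((z.re - xm) / r))
          ≤ (‖FR z‖ + β) * Real.exp (Q z) * Real.exp (-((z.re - xm) / r)) := by gcongr
        _ = q * (‖FR z‖ * Real.exp (Q z) * Real.exp ((z.re - xm) / r)) +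
            β * Real.exp (Q z) * Real.exp (-((z.re - xm) / r)) := by
              rw [add_mul, add_mul]
              congr 1
              rw [e4]; ring
        _ ≤ q * MR + β * Real.exp κ * 1 := by gcongr
        _ = _ := by ring
    · intro z h1 h2 h3
      refine le_trans ?_ (le_max_left _ _)
      rw [hnL]
      have e1 := hLt z h2 h3 (by linarith) (by linarith)
      have e2 : Real.exp (Q z) ≤ 1 :=
        Real.exp_le_one_iff.2 (hQtb z h2 (by linarith) (Or.inl h1))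
      have e3 := he1 z h2
      calc ‖FL z‖ * Real.exp (Q z) * Real.exp (-((z.re - xm) / r))
          ≤ C * 1 * Real.exp 1 := by gcongr
        _ = M0 := by rw [hM0]; ring
    · intro z h1 h2 h3
      refine le_trans ?_ (le_max_left _ _)
      rw [hnL]
      have e1 := hLt z h2 h3 (by linarith) (by linarith)
      have e2 : Real.exp (Q z) ≤ 1 :=
        Real.exp_le_one_iff.2 (hQtb z h2 (by linarith) (Or.inr h1))
      have e3 := he1 z h2
      calc ‖FL z‖ * Real.exp (Q z) * Real.exp (-((z.re - xm) / r))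
          ≤ C * 1 * Real.exp 1 := by gcongr
        _ = M0 := by rw [hM0]; ring
  have keyR : MR ≤ max M0 (q * ML + β * Real.exp κ) := by
    rw [mem_reProdIm] at hp'
    refine maxrect (f := ΨR) (x0 := a) (x1 := x0 + r) (y0 := y0 - r) (y1 := y0 + r)
      (by linarith) (by linarith) hdΨR ?_ ?_ ?_ ?_ hp'.1.1 hp'.1.2 hp'.2.1 hp'.2.2
    · intro z h1 h2 h3
      refine le_trans ?_ (le_max_right _ _)
      rw [hnR]
      have e1 : ‖FR z‖ ≤ ‖FL z‖ + β := by
        have := hjump z (by linarith) (by linarith) h2 h3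
        calc ‖FR z‖ = ‖FL z - (FL z - FR z)‖ := by ring_nf
          _ ≤ ‖FL z‖ + ‖FL z - FR z‖ := norm_sub_le _ _
          _ ≤ _ := by linarith
      have e2 : Real.exp (Q z) ≤ Real.exp κ :=
        Real.exp_le_exp.2 (hQκ z (by linarith) (by linarith))
      have e3 := hmaxL z (by linarith) (by linarith) h2 h3
      rw [hnL] at e3
      have e4 : Real.exp ((z.re - xm) / r) = q * Real.exp (-((z.re - xm) / r)) := by
        rw [hq, ← Real.exp_add]
        congr 1
        rw [h1, hxm]; field_simp; ring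
      have e5 : Real.exp ((z.re - xm) / r) ≤ 1 := by
        rw [Real.exp_le_one_iff, h1, hxm]
        apply div_nonpos_of_nonpos_of_nonneg (by linarith) hr.le
      calc ‖FR z‖ * Real.exp (Q z) * Real.exp ((z.re - xm) / r)
          ≤ (‖FL z‖ + β) * Real.exp (Q z) * Real.exp ((z.re - xm) / r) := by gcongr
        _ = q * (‖FL z‖ * Real.exp (Q z) * Real.exp (-((z.re - xm) / r))) +
            β * Real.exp (Q z) * Real.exp ((z.re - xm) / r) := by
              rw [add_mul, add_mul]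
              congr 1
              rw [e4]; ring
        _ ≤ q * ML + β * Real.exp κ * 1 := by gcongr
        _ = _ := by ring
    · intro z h1 h2 h3
      refine le_trans ?_ (le_max_left _ _)
      rw [hnR]
      have e1 := hRt z (by linarith) (by linarith) h2 h3
      have e2 : Real.exp (Q z) ≤ 1 :=
        Real.exp_le_one_iff.2 (hQr z h1)
      have e3 := he2 z h1.le
      calc ‖FR z‖ * Real.exp (Q z) * Real.exp ((z.re - xm) / r)
          ≤ C * 1 * Real.exp 1 := by gcongr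
        _ = M0 := by rw [hM0]; ring
    · intro z h1 h2 h3
      refine le_trans ?_ (le_max_left _ _)
      rw [hnR]
      have e1 := hRt z h2 h3 (by linarith) (by linarith)
      have e2 : Real.exp (Q z) ≤ 1 :=
        Real.exp_le_one_iff.2 (hQtb z (by linarith) h3 (Or.inl h1))
      have e3 := he2 z h3
      calc ‖FR z‖ * Real.exp (Q z) * Real.exp ((z.re - xm) / r)
          ≤ C * 1 * Real.exp 1 := by gcongr
        _ = M0 := by rw [hM0]; ring
    · intro z h1 h2 h3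
      refine le_trans ?_ (le_max_left _ _)
      rw [hnR]
      have e1 := hRt z h2 h3 (by linarith) (by linarith)
      have e2 : Real.exp (Q z) ≤ 1 :=
        Real.exp_le_one_iff.2 (hQtb z (by linarith) h3 (Or.inr h1))
      have e3 := he2 z h3
      calc ‖FR z‖ * Real.exp (Q z) * Real.exp ((z.re - xm) / r)
          ≤ C * 1 * Real.exp 1 := by gcongr
        _ = M0 := by rw [hM0]; ring
  have hfin : ML ≤ M0 ∧ MR ≤ M0 := by
    rcases le_total ML MR with h | h
    · have h5 : MR ≤ M0 := by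
        rcases le_max_iff.1 keyR with h1 | h1
        · exact h1
        · have h3 : q * ML ≤ q * MR := by gcongr
          nlinarith
      exact ⟨h.trans h5, h5⟩
    · have h5 : ML ≤ M0 := by
        rcases le_max_iff.1 keyL with h1 | h1
        · exact h1
        · have h3 : q * MR ≤ q * ML := by gcongr
          nlinarith
      exact ⟨h5, h.trans h5⟩
  constructor
  · intro z h1 h2 h3 h4
    have e1 := (hmaxL z h1 h2 h3 h4).trans hfin.1
    rw [hnL] at e1
    have e2 : Real.exp (-1) ≤ Real.exp (-((z.re - xm) / r)) := by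
      apply Real.exp_le_exp.2
      have : (z.re - xm) / r ≤ 1 := by rw [div_le_one hr, hxm]; linarith
      linarith
    have e3 : ‖FL z‖ * Real.exp (Q z) * Real.exp (-1) ≤ C * Real.exp 1 :=
      le_trans (by gcongr) e1
    have e4 : ‖FL z‖ = (‖FL z‖ * Real.exp (Q z) * Real.exp (-1)) *
        (Real.exp 1 * Real.exp (-(Q z))) := by
      rw [show (‖FL z‖ * Real.exp (Q z) * Real.exp (-1)) *
        (Real.exp 1 * Real.exp (-(Q z))) = ‖FL z‖ * ((Real.exp (Q z) * Real.exp (-(Q z))) *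
          (Real.exp (-1) * Real.exp 1)) by ring, ← Real.exp_add, ← Real.exp_add]
      simp
    rw [e4]
    calc _ ≤ (C * Real.exp 1) * (Real.exp 1 * Real.exp (-(Q z))) := by gcongr
      _ = _ := by
        rw [show (2:ℝ) = 1 + 1 by norm_num, Real.exp_add]; ring
  · intro z h1 h2 h3 h4
    have e1 := (hmaxR z h1 h2 h3 h4).trans hfin.2
    rw [hnR] at e1
    have e2 : Real.exp (-1) ≤ Real.exp ((z.re - xm) / r) := by
      apply Real.exp_le_exp.2
      rw [le_div_iff₀ hr, hxm]; linarith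
    have e3 : ‖FR z‖ * Real.exp (Q z) * Real.exp (-1) ≤ C * Real.exp 1 :=
      le_trans (by gcongr) e1
    have e4 : ‖FR z‖ = (‖FR z‖ * Real.exp (Q z) * Real.exp (-1)) *
        (Real.exp 1 * Real.exp (-(Q z))) := by
      rw [show (‖FR z‖ * Real.exp (Q z) * Real.exp (-1)) *
        (Real.exp 1 * Real.exp (-(Q z))) = ‖FR z‖ * ((Real.exp (Q z) * Real.exp (-(Q z))) *
          (Real.exp (-1) * Real.exp 1)) by ring, ← Real.exp_add, ← Real.exp_add]
      simp
    rw [e4]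
    calc _ ≤ (C * Real.exp 1) * (Real.exp 1 * Real.exp (-(Q z))) := by gcongr
      _ = _ := by
        rw [show (2:ℝ) = 1 + 1 by norm_num, Real.exp_add]; ring

theorem lemB {B : ℂ → ℂ} {x1 L y1 Y C0 ε : ℝ} (hL : 0 < L) (hY : 0 < Y) (hε : 0 < ε)
    (hεC : ε ≤ C0)
    (hd : ∀ z : ℂ, x1 ≤ z.re → z.re ≤ x1 + L → y1 ≤ z.im → z.im ≤ y1 + Y →
      DifferentiableAt ℂ B z)
    (hB : ∀ z : ℂ, x1 ≤ z.re → z.re ≤ x1 + L → y1 ≤ z.im → z.im ≤ y1 + Y → ‖B z‖ ≤ C0)
    (ht : ∀ z : ℂ, z.im = y1 + Y → x1 ≤ z.re → z.re ≤ x1 + L → ‖B z‖ ≤ ε)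
    {z : ℂ} (h1 : x1 ≤ z.re) (h2 : z.re ≤ x1 + L) (h3 : y1 ≤ z.im) (h4 : z.im ≤ y1 + Y) :
    ‖B z‖ ≤ C0 * Real.exp (-(Real.log (C0 / ε) *
      (Real.sin (Real.pi * (z.re - x1) / L) * Real.sinh (Real.pi * (z.im - y1) / L) /
        Real.sinh (Real.pi * Y / L)))) := by
  have hC0 : 0 < C0 := lt_of_lt_of_le hε hεC
  set κ := Real.log (C0 / ε) with hκdef
  have hκ : 0 ≤ κ := Real.log_nonneg (by rw [le_div_iff₀ hε]; linarith)
  set s := Real.sinh (Real.pi * Y / L) with hs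
  have hs0 : 0 < s := Real.sinh_pos_iff.2 (by positivity)
  set q : ℂ → ℝ := fun z => Real.sin (Real.pi * (z.re - x1) / L) *
    Real.sinh (Real.pi * (z.im - y1) / L) / s with hq
  set K : ℂ → ℂ := fun z => Complex.exp (κ * (I * Complex.cos (Real.pi * (z - x1 - y1 * I) / L))
    / s) with hK
  have hKn : ∀ z, ‖K z‖ = Real.exp (κ * q z) := by
    intro z
    simp only [hK, hq, Complex.norm_exp]
    congr 1
    have e0 : (Real.pi * (z - x1 - y1 * I) / L : ℂ) =
      ((Real.pi * (z.re - x1) / L : ℝ) : ℂ) + ((Real.pi * (z.im - y1) / L : ℝ) : ℂ) * I := by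
      apply Complex.ext
      · simp [Complex.div_ofReal_re]
      · simp [Complex.div_ofReal_im]
    rw [e0, Complex.cos_add_mul_I, ← Complex.ofReal_cos, ← Complex.ofReal_cosh,
      ← Complex.ofReal_sin, ← Complex.ofReal_sinh]
    rw [Complex.div_ofReal_re]
    simp only [Complex.mul_re, Complex.ofReal_re, Complex.ofReal_im, Complex.mul_im,
      Complex.sub_re, Complex.sub_im, Complex.I_re, Complex.I_im]
    ring
  have hmain : ‖B z * K z‖ ≤ C0 := by
    refine maxrect (f := fun z => B z * K z) (x0 := x1) (x1 := x1 + L) (y0 := y1)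
      (y1 := y1 + Y) (by linarith) (by linarith) ?_ ?_ ?_ ?_ ?_ h1 h2 h3 h4
    · intro w a1 a2 a3 a4
      apply (hd w a1 a2 a3 a4).mul
      simp only [hK]
      fun_prop
    · intro w a1 a2 a3
      rw [norm_mul, hKn]
      have : q w = 0 := by simp [hq, a1]
      rw [this]
      simp only [mul_zero, Real.exp_zero, mul_one]
      exact hB w a1.ge (by linarith) a2 a3
    · intro w a1 a2 a3
      rw [norm_mul, hKn]
      have : q w = 0 := by
        simp only [hq, a1]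
        rw [show Real.pi * (x1 + L - x1) / L = Real.pi by field_simp; ring]
        simp
      rw [this]
      simp only [mul_zero, Real.exp_zero, mul_one]
      exact hB w (by linarith) (by linarith) a2 a3
    · intro w a1 a2 a3
      rw [norm_mul, hKn]
      have : q w = 0 := by simp [hq, a1]
      rw [this]
      simp only [mul_zero, Real.exp_zero, mul_one]
      exact hB w a2 a3 (by linarith) (by linarith)
    · intro w a1 a2 a3
      rw [norm_mul, hKn]
      have e1 : q w ≤ 1 := by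
        simp only [hq, a1]
        rw [show y1 + Y - y1 = Y by ring, ← hs, mul_div_assoc, div_self hs0.ne', mul_one]
        exact Real.sin_le_one _
      have e2 : Real.exp (κ * q w) ≤ C0 / ε := by
        calc Real.exp (κ * q w) ≤ Real.exp κ := Real.exp_le_exp.2 (by nlinarith)
          _ = C0 / ε := by rw [hκdef, Real.exp_log (by positivity)]
      calc ‖B w‖ * Real.exp (κ * q w) ≤ ε * (C0 / ε) := by
            gcongr
            exact ht w a1 a2 a3
        _ = C0 := by field_simp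
  rw [norm_mul, hKn] at hmain
  have : ‖B z‖ = ‖B z‖ * Real.exp (κ * q z) * Real.exp (-(κ * q z)) := by
    rw [mul_assoc, ← Real.exp_add]; simp
  rw [this]
  gcongr

end Pool.Agent.Nyman
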