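import Pool.Agent.Lib_helper93.Nyman.Weight

set_option autoImplicit false
open Set Filter Topology

namespace Pool.Agent.Nyman

noncomputable def lam (i : ℕ) (z : ℂ) : ℂ := 1 - Complex.exp (-(hh i * z))

noncomputable def Lf (i : ℕ) (z : ℂ) : ℂ := th i * lam i z

noncomputable def Df (i : ℕ) (z : ℂ) : ℂ :=
  1 + ∑ l ∈ Finset.range i, Lf l z * Complex.exp (-(T l * z))

noncomputable def mf (i : ℕ) (z : ℂ) : ℂ := Df i z / Lf i z

noncomputable def Lam (i : ℕ) (z : ℂ) : ℂ := Complex.exp (-(T i * z)) + mf i z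

/-- the vertical lines -/
noncomputable def x0 (i : ℕ) : ℝ := -S i + 5 / P i
noncomputable def x1 (i : ℕ) : ℝ := -S i + 5.5 / P i
noncomputable def al (i : ℕ) : ℝ := -S i + 6 / P i
noncomputable def bl (i : ℕ) : ℝ := -S i + 7 / P i

lemma Df_succ (i : ℕ) (z : ℂ) :
    Df (i + 1) z = Df i z + Lf i z * Complex.exp (-(T i * z)) := by
  unfold Df
  rw [Finset.sum_range_succ]; ring

lemma Lam_mul (i : ℕ) (z : ℂ) (h : Lf i z ≠ 0) : Lf i z * Lam i z = Df (i + 1) z := by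
  rw [Df_succ, Lam, mf]
  field_simp
  ring

lemma lam_differentiable (i : ℕ) : Differentiable ℂ (lam i) := by
  unfold lam; fun_prop

lemma Lf_differentiable (i : ℕ) : Differentiable ℂ (Lf i) := by
  unfold Lf lam; fun_prop

lemma Df_differentiable (i : ℕ) : Differentiable ℂ (Df i) := by
  have h : ∀ l, Differentiable ℂ (Lf l) := Lf_differentiable
  unfold Df; fun_prop

lemma hh_le (i : ℕ) : hh i ≤ 1 / 24 := by
  unfold hh
  apply one_div_le_one_div_of_le (by norm_num)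
  have := R_ge i
  linarith

lemma norm_exp_T (i : ℕ) (z : ℂ) : ‖Complex.exp (-(T i * z))‖ = Real.exp (-(T i * z.re)) := by
  rw [Complex.norm_exp]
  simp

lemma lam_le (i : ℕ) {z : ℂ} (h : -1 ≤ z.re) : ‖lam i z‖ ≤ 3 := by
  unfold lam
  have h1 : ‖Complex.exp (-(hh i * z))‖ ≤ 2 := by
    rw [Complex.norm_exp]
    have e : (-(hh i * z) : ℂ).re = -(hh i * z.re) := by simp
    rw [e]
    have h2 : Real.exp (-(hh i * z.re)) ≤ Real.exp (Real.log 2) := by
      apply Real.exp_le_exp.2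
      have := hh_le i
      have := hh_pos i
      have := Real.log_two_gt_d9
      nlinarith
    rwa [Real.exp_log (by norm_num)] at h2
  calc ‖1 - Complex.exp (-(hh i * z))‖ ≤ ‖(1 : ℂ)‖ + ‖Complex.exp (-(hh i * z))‖ := norm_sub_le _ _
    _ ≤ 1 + 2 := by rw [norm_one]; gcongr
    _ = 3 := by norm_num

lemma sin_ge {φ : ℝ} (h1 : 1 / 6 ≤ φ) (h2 : φ ≤ 2) : 1 / 10 ≤ Real.sin φ := by
  have hp := Real.pi_gt_d2
  have hp2 := Real.pi_lt_d2
  rcases le_total φ (Real.pi / 2) with h | h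
  · have := Real.mul_le_sin (by linarith : 0 ≤ φ) h
    have h3 : 1 / 10 ≤ 2 / Real.pi * φ := by
      rw [div_mul_eq_mul_div, le_div_iff₀ (by linarith)]
      nlinarith
    linarith
  · have h3 : Real.sin φ = Real.sin (Real.pi - φ) := (Real.sin_pi_sub φ).symm
    rw [h3]
    have := Real.mul_le_sin (by linarith : 0 ≤ Real.pi - φ) (by linarith)
    have h4 : 1 / 10 ≤ 2 / Real.pi * (Real.pi - φ) := by
      rw [div_mul_eq_mul_div, le_div_iff₀ (by linarith)]
      nlinarith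
    linarith

lemma lam_ge (i : ℕ) {z : ℂ} (h1 : R i / 2 ≤ z.im) (h2 : z.im ≤ 6 * R i) :
    1 / 10 ≤ ‖lam i z‖ := by
  have hR := R_pos i
  have hφ1 : 1 / 6 ≤ hh i * z.im := by
    unfold hh
    rw [div_mul_eq_mul_div, le_div_iff₀ (by linarith)]
    linarith
  have hφ2 : hh i * z.im ≤ 2 := by
    unfold hh
    rw [div_mul_eq_mul_div, div_le_iff₀ (by linarith)]
    linarith
  have h3 := sin_ge hφ1 hφ2
  have e1 : ‖Complex.exp ((hh i * z.im : ℝ) * Complex.I)‖ = 1 := Complex.norm_exp_ofReal_mul_I _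
  have e2 : ‖lam i z‖ = ‖Complex.exp ((hh i * z.im : ℝ) * Complex.I) * lam i z‖ := by
    rw [norm_mul, e1, one_mul]
  have e3 : Complex.exp ((hh i * z.im : ℝ) * Complex.I) * lam i z =
      Complex.exp ((hh i * z.im : ℝ) * Complex.I) - ((Real.exp (-(hh i * z.re)) : ℝ) : ℂ) := by
    unfold lam
    rw [mul_sub, mul_one, ← Complex.exp_add, Complex.ofReal_exp]
    congr 2
    apply Complex.ext <;> simp
  rw [e2, e3]
  refine le_trans ?_ (Complex.abs_im_le_norm _)
  refine le_trans ?_ (le_abs_self _)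
  rw [Complex.sub_im, Complex.exp_ofReal_mul_I_im, Complex.ofReal_im, sub_zero]
  exact h3

lemma Lf_le (i : ℕ) {z : ℂ} (h : -1 ≤ z.re) : ‖Lf i z‖ ≤ 3 * th i := by
  unfold Lf
  rw [norm_mul, Complex.norm_real, Real.norm_of_nonneg (th_pos i).le]
  have := lam_le i h
  have := th_pos i
  nlinarith

lemma Lf_ge (i : ℕ) {z : ℂ} (h1 : R i / 2 ≤ z.im) (h2 : z.im ≤ 6 * R i) :
    th i / 10 ≤ ‖Lf i z‖ := by
  unfold Lf
  rw [norm_mul, Complex.norm_real, Real.norm_of_nonneg (th_pos i).le]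
  have := lam_ge i h1 h2
  have := th_pos i
  nlinarith

lemma Lf_ne (i : ℕ) {z : ℂ} (h1 : R i / 2 ≤ z.im) (h2 : z.im ≤ 6 * R i) : Lf i z ≠ 0 := by
  have h3 := Lf_ge i h1 h2
  have := th_pos i
  intro h
  rw [h, norm_zero] at h3
  linarith

lemma term_le (l : ℕ) {z : ℂ} (h : -1 ≤ z.re) :
    ‖Lf l z * Complex.exp (-(T l * z))‖ ≤ 3 * th l * Real.exp (-(T l * z.re)) := by
  rw [norm_mul, norm_exp_T]
  have := Lf_le l h
  gcongr

lemma term_le_half (l : ℕ) {z : ℂ} (h : -1 ≤ z.re) (h2 : -(S (l + 1) / 2) ≤ z.re) :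
    ‖Lf l z * Complex.exp (-(T l * z))‖ ≤ (1 / 2 : ℝ) ^ (l + 3) := by
  refine (term_le l h).trans (le_trans ?_ (term_small l))
  unfold th X
  rw [mul_assoc, ← Real.exp_add, mul_assoc, ← Real.exp_add]
  have := T_pos l
  refine mul_le_mul_of_nonneg_left (Real.exp_le_exp.2 ?_) (by norm_num)
  nlinarith

lemma sum_term_le (i : ℕ) {z : ℂ} (h : -1 ≤ z.re) (h2 : ∀ l < i, -(S (l + 1) / 2) ≤ z.re) :
    ‖∑ l ∈ Finset.range i, Lf l z * Complex.exp (-(T l * z))‖ ≤ 1 / 4 := by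
  refine (norm_sum_le _ _).trans ?_
  refine (Finset.sum_le_sum fun l hl => term_le_half l h (h2 l (Finset.mem_range.1 hl))).trans ?_
  exact sum_half_le i

lemma Df_le_two (i : ℕ) {z : ℂ} (h : -1 ≤ z.re) (h2 : -(S i / 2) ≤ z.re) : ‖Df i z‖ ≤ 2 := by
  unfold Df
  have h3 : ‖∑ l ∈ Finset.range i, Lf l z * Complex.exp (-(T l * z))‖ ≤ 1 / 4 := by
    apply sum_term_le i h
    intro l hl
    have := S_anti (show l + 1 ≤ i from hl)
    linarith
  calc _ ≤ ‖(1 : ℂ)‖ + ‖∑ l ∈ Finset.range i, Lf l z * Complex.exp (-(T l * z))‖ := norm_add_le _ _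
    _ ≤ 1 + 1 / 4 := by rw [norm_one]; gcongr
    _ ≤ 2 := by norm_num

lemma exp_neg_five : Real.exp (-5) ≤ 0.0068 := by
  rw [Real.exp_neg]
  have h := Real.exp_one_gt_d9
  have : Real.exp 5 = Real.exp 1 ^ 5 := by
    rw [← Real.exp_nat_mul]; norm_num
  rw [this]
  rw [inv_le_comm₀ (by positivity) (by norm_num)]
  calc (0.0068 : ℝ)⁻¹ ≤ 2.7182818283 ^ 5 := by norm_num
    _ ≤ _ := by gcongr

lemma x0_ge (i : ℕ) : -S i ≤ x0 i := by
  unfold x0; have := P_pos i; have : 0 < 5 / P i := by positivity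
  linarith

lemma x0_ge_neg_one (i : ℕ) : -1 ≤ x0 i := by
  have := x0_ge i; have := S_le_one i; linarith

lemma Df_le (i : ℕ) {z : ℂ} (h : x0 i ≤ z.re) : ‖Df i z‖ ≤ X / 20 := by
  have hX := X_gt
  have h1 : -1 ≤ z.re := (x0_ge_neg_one i).trans h
  rcases i with _ | k
  · simp only [Df, Finset.range_zero, Finset.sum_empty, add_zero, norm_one]
    linarith
  · rw [Df_succ]
    have hS := x0_ge (k + 1)
    have h3 : ‖Df k z‖ ≤ 5 / 4 := by
      unfold Df
      have h3 : ‖∑ l ∈ Finset.range k, Lf l z * Complex.exp (-(T l * z))‖ ≤ 1 / 4 := by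
        apply sum_term_le k h1
        intro l hl
        have e1 := S_anti (show l + 2 ≤ k + 1 by omega)
        have e2 := S_succ (l + 1)
        have e3 := S_pos (l + 1)
        rw [show l + 1 + 1 = l + 2 from rfl] at e2
        linarith
      calc _ ≤ ‖(1 : ℂ)‖ + ‖∑ l ∈ Finset.range k, Lf l z * Complex.exp (-(T l * z))‖ :=
            norm_add_le _ _
        _ ≤ 1 + 1 / 4 := by rw [norm_one]; gcongr
        _ = 5 / 4 := by norm_num
    have h4 : ‖Lf k z * Complex.exp (-(T k * z))‖ ≤ 3 * X * Real.exp (-5) := by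
      refine (term_le k h1).trans ?_
      unfold th X
      rw [mul_assoc, ← Real.exp_add, mul_assoc, ← Real.exp_add]
      have hT := T_pos k
      have e1 : T k * (x0 (k + 1)) = -(S (k + 1) * T k) + 5 := by
        unfold x0 T
        have := P_pos (k + 1)
        field_simp
      have e2 : T k * x0 (k + 1) ≤ T k * z.re := by gcongr
      refine mul_le_mul_of_nonneg_left (Real.exp_le_exp.2 ?_) (by norm_num)
      linarith
    have h5 := exp_neg_five
    calc _ ≤ ‖Df k z‖ + ‖Lf k z * Complex.exp (-(T k * z))‖ := norm_add_le _ _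
      _ ≤ 5 / 4 + 3 * X * 0.0068 := by
        gcongr
        refine h4.trans ?_
        gcongr
      _ ≤ X / 20 := by norm_num at *; linarith

/-- `|m_i| ≤ x_i/2` in the window, right of `x0 i` -/
lemma mf_le (i : ℕ) {z : ℂ} (h : x0 i ≤ z.re) (h1 : R i / 2 ≤ z.im) (h2 : z.im ≤ 6 * R i) :
    ‖mf i z‖ ≤ xw i / 2 := by
  unfold mf
  rw [norm_div]
  have a1 := Df_le i h
  have a2 := Lf_ge i h1 h2
  have a3 := th_pos i
  have a4 := th_mul_xw i
  rw [div_le_iff₀ (by linarith)]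
  have a5 := xw_pos i
  calc ‖Df i z‖ ≤ X / 20 := a1
    _ = xw i / 2 * (th i / 10) := by rw [← a4]; ring
    _ ≤ _ := by gcongr

lemma mf_le' (i : ℕ) {z : ℂ} (h : -1 ≤ z.re) (h' : -(S i / 2) ≤ z.re)
    (h1 : R i / 2 ≤ z.im) (h2 : z.im ≤ 6 * R i) :
    ‖mf i z‖ ≤ 20 / X * xw i := by
  unfold mf
  rw [norm_div]
  have a1 := Df_le_two i h h'
  have a2 := Lf_ge i h1 h2
  have a3 := th_pos i
  have a4 := th_mul_xw i
  have a6 := X_gt
  rw [div_le_iff₀ (by linarith)]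
  have a5 := xw_pos i
  calc ‖Df i z‖ ≤ 2 := a1
    _ = 20 / X * xw i * (th i / 10) := by rw [← a4]; field_simp; norm_num
    _ ≤ _ := by gcongr

lemma forty_exp7 : 40 * Real.exp 7 ≤ X := by
  unfold X
  have : Real.exp 11 = Real.exp 4 * Real.exp 7 := by rw [← Real.exp_add]; norm_num
  rw [this]
  gcongr
  have h := Real.exp_one_gt_d9
  have : Real.exp 4 = Real.exp 1 ^ 4 := by
    rw [← Real.exp_nat_mul]; norm_num
  rw [this]
  calc (40 : ℝ) ≤ 2.7182818283 ^ 4 := by norm_num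
    _ ≤ _ := by gcongr

/-- In the strip between `x0 i` and `bl (i+1)`: `|m_i| ≤ |e^{-zT_i}|/2`. -/
lemma mf_le_exp (i : ℕ) {z : ℂ} (h : x0 i ≤ z.re) (hb : z.re ≤ bl (i + 1))
    (h1 : R i / 2 ≤ z.im) (h2 : z.im ≤ 6 * R i) :
    ‖mf i z‖ ≤ Real.exp (-(T i * z.re)) / 2 := by
  have hT := T_pos i
  rcases le_total (-(S i / 2)) z.re with h3 | h3
  · have a1 := mf_le' i ((x0_ge_neg_one i).trans h) h3 h1 h2
    refine a1.trans ?_
    have e1 : T i * bl (i + 1) = -(S (i + 1) * T i) + 7 := by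
      unfold bl T
      have := P_pos (i + 1)
      field_simp
    have e2 : T i * z.re ≤ T i * bl (i + 1) := by gcongr
    have e3 : Real.exp (S (i + 1) * T i - 7) ≤ Real.exp (-(T i * z.re)) := by
      apply Real.exp_le_exp.2; linarith
    have e4 : xw i = Real.exp 7 * Real.exp (S (i + 1) * T i - 7) := by
      unfold xw; rw [← Real.exp_add]; congr 1; ring
    have e5 := forty_exp7
    have e6 : 20 / X * Real.exp 7 ≤ 1 / 2 := by
      rw [div_mul_eq_mul_div, div_le_iff₀ (by have := X_gt; linarith)]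
      linarith
    have e7 : 0 < Real.exp (S (i + 1) * T i - 7) := Real.exp_pos _
    calc 20 / X * xw i = (20 / X * Real.exp 7) * Real.exp (S (i + 1) * T i - 7) := by
          rw [e4]; ring
      _ ≤ 1 / 2 * Real.exp (S (i + 1) * T i - 7) := by gcongr
      _ ≤ 1 / 2 * Real.exp (-(T i * z.re)) := by gcongr
      _ = _ := by ring
  · have a1 := mf_le i h h1 h2
    refine a1.trans ?_
    unfold xw
    have hS := S_succ i
    have hS0 := S_pos i
    gcongr
    nlinarith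

lemma Lam_ge (i : ℕ) {z : ℂ} (h : x0 i ≤ z.re) (hb : z.re ≤ bl (i + 1))
    (h1 : R i / 2 ≤ z.im) (h2 : z.im ≤ 6 * R i) :
    Real.exp (-(T i * z.re)) / 2 ≤ ‖Lam i z‖ := by
  unfold Lam
  have a1 := mf_le_exp i h hb h1 h2
  have a2 := norm_exp_T i z
  have a3 : ‖Complex.exp (-(T i * z))‖ - ‖mf i z‖ ≤ ‖Complex.exp (-(T i * z)) + mf i z‖ := by
    have := norm_sub_norm_le (Complex.exp (-(T i * z))) (-mf i z)
    rwa [norm_neg, sub_neg_eq_add] at this
  linarith

end Pool.Agent.Nyman
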