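/- Lemma block P1 of MP_ed36af_an, written by helper53. -/
import Mathlib

set_option autoImplicit false

open MeasureTheory Set Complex
open scoped ENNReal

namespace Pool.Agent.Nyman.H53

/-- Uniqueness of the Fourier transform, real case. -/
lemma real_case (μ : Measure ℝ) [SigmaFinite μ] (g : ℝ → ℝ) (hg : Integrable g μ)
    (h : ∀ y : ℝ, ∫ t, (g t : ℂ) * Complex.exp ((y : ℂ) * (t : ℂ) * I) ∂μ = 0) : g =ᵐ[μ] 0 := by
  set p : ℝ → ℝ≥0∞ := fun t => ENNReal.ofReal (g t) with hpdef
  set n : ℝ → ℝ≥0∞ := fun t => ENNReal.ofReal (-(g t)) with hndef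
  have hp : AEMeasurable p μ := hg.aemeasurable.ennreal_ofReal
  have hn : AEMeasurable n μ := hg.neg.aemeasurable.ennreal_ofReal
  have : IsFiniteMeasure (μ.withDensity p) := isFiniteMeasure_withDensity_ofReal hg.2
  have : IsFiniteMeasure (μ.withDensity n) := isFiniteMeasure_withDensity_ofReal hg.neg.2
  have key : μ.withDensity p = μ.withDensity n := by
    apply Measure.ext_of_charFun
    ext y
    rw [charFun_apply_real, charFun_apply_real]
    rw [integral_withDensity_eq_integral_toReal_smul₀ hp
      (Filter.Eventually.of_forall fun t => ENNReal.ofReal_lt_top)]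
    rw [integral_withDensity_eq_integral_toReal_smul₀ hn
      (Filter.Eventually.of_forall fun t => ENNReal.ofReal_lt_top)]
    have hb : ∀ k : ℝ → ℝ, Integrable k μ →
        Integrable (fun t => (ENNReal.ofReal (k t)).toReal • Complex.exp ((y : ℂ) * (t : ℂ) * I)) μ := by
      intro k hk
      have h1 : Integrable (fun t => ((ENNReal.ofReal (k t)).toReal : ℂ)) μ := by
        have : Integrable (fun t => (ENNReal.ofReal (k t)).toReal) μ := by
          simpa [ENNReal.toReal_ofReal'] using hk.pos_part
        exact this.ofReal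
      have h2 := h1.mul_bdd (c := 1) (f := fun t : ℝ => ((ENNReal.ofReal (k t)).toReal : ℂ))
        (g := fun t : ℝ => Complex.exp ((y : ℂ) * (t : ℂ) * I))
        (by
          have : Continuous (fun t : ℝ => Complex.exp ((y : ℂ) * (t : ℂ) * I)) := by fun_prop
          exact this.aestronglyMeasurable)
        (Filter.Eventually.of_forall fun t => by
          have : Complex.exp ((y : ℂ) * (t : ℂ) * I) = Complex.exp (((y * t : ℝ) : ℂ) * I) := by
            push_cast; rfl
          rw [this, Complex.norm_exp_ofReal_mul_I])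
      refine h2.congr (Filter.Eventually.of_forall fun t => ?_)
      simp [Complex.real_smul]
    rw [← sub_eq_zero, ← integral_sub (hb g hg) (hb (fun t => -(g t)) hg.neg)]
    rw [← h y]
    refine integral_congr_ae (Filter.Eventually.of_forall fun t => ?_)
    simp only [Complex.real_smul, ENNReal.toReal_ofReal']
    rw [← sub_mul]
    congr 1
    rw [← Complex.ofReal_sub]
    congr 1
    rcases le_total 0 (g t) with h0 | h0
    · rw [max_eq_left h0, max_eq_right (by linarith)]; ring
    · rw [max_eq_right h0, max_eq_left (by linarith)]; ring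
  have h2 := (withDensity_eq_iff_of_sigmaFinite hp hn).1 key
  filter_upwards [h2] with t ht
  simp only [hpdef, hndef] at ht
  rcases le_total 0 (g t) with h0 | h0
  · rw [ENNReal.ofReal_of_nonpos (p := -(g t)) (by linarith)] at ht
    have := ENNReal.ofReal_eq_zero.1 ht
    simp only [Pi.zero_apply]
    linarith
  · rw [ENNReal.ofReal_of_nonpos (p := g t) h0] at ht
    have := ENNReal.ofReal_eq_zero.1 ht.symm
    simp only [Pi.zero_apply]
    linarith

theorem ae_zero_of_fourier (μ : Measure ℝ) [SigmaFinite μ] (f : ℝ → ℂ) (hf : Integrable f μ)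
    (h : ∀ y : ℝ, ∫ t, f t * Complex.exp ((y : ℂ) * (t : ℂ) * I) ∂μ = 0) : f =ᵐ[μ] 0 := by
  have hc : ∀ y : ℝ, ∫ t, (starRingEnd ℂ) (f t) * Complex.exp ((y : ℂ) * (t : ℂ) * I) ∂μ = 0 := by
    intro y
    have h1 := h (-y)
    have h2 := congrArg (starRingEnd ℂ) h1
    rw [← integral_conj, map_zero] at h2
    rw [← h2]
    refine integral_congr_ae (Filter.Eventually.of_forall fun t => ?_)
    simp only [map_mul, ← Complex.exp_conj, Complex.conj_ofReal, Complex.conj_I, ofReal_neg, map_neg]
    congr 2
    ring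
  have hbd : ∀ (y : ℝ) (k : ℝ → ℂ), Integrable k μ →
      Integrable (fun t => k t * Complex.exp ((y : ℂ) * (t : ℂ) * I)) μ := by
    intro y k hk
    exact hk.mul_bdd (c := 1) (g := fun t : ℝ => Complex.exp ((y : ℂ) * (t : ℂ) * I))
        (by
          have : Continuous (fun t : ℝ => Complex.exp ((y : ℂ) * (t : ℂ) * I)) := by fun_prop
          exact this.aestronglyMeasurable)
        (Filter.Eventually.of_forall fun t => by
          have : Complex.exp ((y : ℂ) * (t : ℂ) * I) = Complex.exp (((y * t : ℝ) : ℂ) * I) := by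
            push_cast; rfl
          rw [this, Complex.norm_exp_ofReal_mul_I])
  have hfc : Integrable (fun t => (starRingEnd ℂ) (f t)) μ := by
    have := (hf.norm).mono' (f := fun t => (starRingEnd ℂ) (f t))
      (Complex.continuous_conj.comp_aestronglyMeasurable hf.1)
      (Filter.Eventually.of_forall fun t => by simp)
    exact this
  have hre : (fun t => (f t).re) =ᵐ[μ] 0 := by
    apply real_case μ (fun t => (f t).re) hf.re
    intro y
    show ∫ t, (((f t).re : ℝ) : ℂ) * Complex.exp ((y : ℂ) * (t : ℂ) * I) ∂μ = 0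
    have : ∀ t, (((f t).re : ℝ) : ℂ) * Complex.exp ((y : ℂ) * (t : ℂ) * I)
        = (1 / 2 : ℂ) * (f t * Complex.exp ((y : ℂ) * (t : ℂ) * I)
          + (starRingEnd ℂ) (f t) * Complex.exp ((y : ℂ) * (t : ℂ) * I)) := by
      intro t
      rw [Complex.re_eq_add_conj]
      ring
    simp_rw [this]
    rw [integral_const_mul, integral_add (hbd y f hf) (hbd y _ hfc), h y, hc y]
    simp
  have him : (fun t => (f t).im) =ᵐ[μ] 0 := by
    apply real_case μ (fun t => (f t).im) hf.im
    intro y
    show ∫ t, (((f t).im : ℝ) : ℂ) * Complex.exp ((y : ℂ) * (t : ℂ) * I) ∂μ = 0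
    have : ∀ t, (((f t).im : ℝ) : ℂ) * Complex.exp ((y : ℂ) * (t : ℂ) * I)
        = (1 / (2 * I) : ℂ) * (f t * Complex.exp ((y : ℂ) * (t : ℂ) * I)
          - (starRingEnd ℂ) (f t) * Complex.exp ((y : ℂ) * (t : ℂ) * I)) := by
      intro t
      rw [Complex.im_eq_sub_conj]
      ring
    simp_rw [this]
    rw [integral_const_mul, integral_sub (hbd y f hf) (hbd y _ hfc), h y, hc y]
    simp
  filter_upwards [hre, him] with t h1 h2
  exact Complex.ext h1 h2

/-- `P1`: a function in `L¹(0, ∞)` whose Laplace transform vanishes on the imaginary axis is zero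
almost everywhere. -/
theorem ae_zero_of_laplace (f : ℝ → ℂ) (hf : IntegrableOn f (Set.Ioi (0 : ℝ)))
    (h : ∀ y : ℝ, ∫ t in Set.Ioi (0 : ℝ), f t * Complex.exp (-(((y : ℂ) * Complex.I) * (t : ℂ))) = 0) :
    f =ᵐ[volume.restrict (Set.Ioi (0 : ℝ))] 0 := by
  apply ae_zero_of_fourier _ f hf
  intro y
  rw [← h (-y)]
  refine integral_congr_ae (Filter.Eventually.of_forall fun t => ?_)
  simp only [ofReal_neg]
  congr 2
  ring

end Pool.Agent.Nyman.H53
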