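/- Lemma block P2 of MP_ed36af_an, written by helper53. -/
import Mathlib

set_option autoImplicit false

open MeasureTheory Set Complex
open scoped ENNReal Convolution

namespace Pool.Agent.Nyman.H53

section

variable {ω : ℝ → ℝ} {f g : ℝ → ℂ}

/-- Measurability of `f` from that of `ω f`. -/
lemma aesm_of_weight (hc : ContinuousOn ω (Set.Ici 0)) (hpos : ∀ t, 0 ≤ t → 0 < ω t)
    (hf : Integrable (fun t => (ω t : ℂ) * f t) (volume.restrict (Set.Ioi (0 : ℝ)))) :
    AEStronglyMeasurable ((Ioi (0 : ℝ)).indicator f) volume := by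
  rw [aestronglyMeasurable_indicator_iff measurableSet_Ioi]
  have h1 : AEStronglyMeasurable (fun t => ((ω t)⁻¹ : ℝ)) (volume.restrict (Set.Ioi (0 : ℝ))) := by
    apply ContinuousOn.aestronglyMeasurable _ measurableSet_Ioi
    apply ContinuousOn.inv₀ (hc.mono Ioi_subset_Ici_self)
    intro t ht
    exact (hpos t (le_of_lt ht)).ne'
  have h2 : AEStronglyMeasurable (fun t => (((ω t)⁻¹ : ℝ) : ℂ)) (volume.restrict (Set.Ioi (0 : ℝ))) :=
    Complex.continuous_ofReal.comp_aestronglyMeasurable h1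
  refine (h2.mul hf.1).congr ?_
  filter_upwards [ae_restrict_mem measurableSet_Ioi] with t ht
  have := (hpos t (le_of_lt ht)).ne'
  have h3 : (ω t : ℂ) ≠ 0 := by exact_mod_cast this
  simp only [Pi.mul_apply, Complex.ofReal_inv]
  field_simp

lemma integrable_wnorm (hpos : ∀ t, 0 ≤ t → 0 < ω t)
    (hf : Integrable (fun t => (ω t : ℂ) * f t) (volume.restrict (Set.Ioi (0 : ℝ)))) :
    Integrable ((Ioi (0 : ℝ)).indicator fun t => ‖f t‖ * ω t) volume := by
  rw [integrable_indicator_iff measurableSet_Ioi]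
  refine hf.norm.congr ?_
  filter_upwards [ae_restrict_mem measurableSet_Ioi] with t ht
  have h0 := hpos t (le_of_lt ht)
  rw [norm_mul, Complex.norm_real, Real.norm_of_nonneg h0.le, mul_comm]

lemma tconv_eq (t : ℝ) :
    (∫ s in Set.Ioo (0 : ℝ) t, g s * f (t - s)) =
      ∫ s, (Ioi (0 : ℝ)).indicator g s * (Ioi (0 : ℝ)).indicator f (t - s) := by
  rw [← integral_indicator measurableSet_Ioo]
  congr 1
  ext s
  by_cases h1 : 0 < s
  · by_cases h2 : s < t
    · rw [indicator_of_mem (show s ∈ Ioo 0 t from ⟨h1, h2⟩),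
        indicator_of_mem (show s ∈ Ioi (0 : ℝ) from h1),
        indicator_of_mem (show t - s ∈ Ioi (0 : ℝ) from sub_pos.2 h2)]
    · rw [indicator_of_notMem (fun h : s ∈ Ioo 0 t => h2 h.2),
        indicator_of_notMem (a := t - s) (fun h : t - s ∈ Ioi (0 : ℝ) => h2 (sub_pos.1 h)), mul_zero]
  · rw [indicator_of_notMem (fun h : s ∈ Ioo 0 t => h1 h.1),
      indicator_of_notMem (a := s) (s := Ioi (0 : ℝ)) (fun h => h1 h), zero_mul]

/-- pointwise domination -/
lemma dom (hpos : ∀ t, 0 ≤ t → 0 < ω t)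
    (hsub : ∀ s t, 0 ≤ s → 0 ≤ t → ω (s + t) ≤ ω s * ω t) (t s : ℝ) :
    ‖(((Ioi (0 : ℝ)).indicator ω t : ℝ) : ℂ) *
      ((Ioi (0 : ℝ)).indicator g s * (Ioi (0 : ℝ)).indicator f (t - s))‖ ≤
    ((Ioi (0 : ℝ)).indicator (fun t => ‖g t‖ * ω t) s) *
      ((Ioi (0 : ℝ)).indicator (fun t => ‖f t‖ * ω t) (t - s)) := by
  by_cases h1 : 0 < s
  · by_cases h2 : s < t
    · have h3 : 0 < t := h1.trans h2
      rw [indicator_of_mem (show t ∈ Ioi (0 : ℝ) from h3)]
      rw [indicator_of_mem (show s ∈ Ioi (0 : ℝ) from h1),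
        indicator_of_mem (show s ∈ Ioi (0 : ℝ) from h1),
        indicator_of_mem (show t - s ∈ Ioi (0 : ℝ) from sub_pos.2 h2),
        indicator_of_mem (show t - s ∈ Ioi (0 : ℝ) from sub_pos.2 h2)]
      rw [norm_mul, norm_mul, Complex.norm_real, Real.norm_of_nonneg (hpos t h3.le).le]
      have h4 := hsub s (t - s) h1.le (sub_pos.2 h2).le
      rw [add_sub_cancel] at h4
      calc ω t * (‖g s‖ * ‖f (t - s)‖) ≤ (ω s * ω (t - s)) * (‖g s‖ * ‖f (t - s)‖) := by gcongr
        _ = _ := by ring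
    · rw [indicator_of_notMem (a := t - s) (s := Ioi (0 : ℝ)) (f := f)
          (fun h : t - s ∈ Ioi (0 : ℝ) => h2 (sub_pos.1 h)),
        indicator_of_notMem (a := t - s) (s := Ioi (0 : ℝ))
          (fun h : t - s ∈ Ioi (0 : ℝ) => h2 (sub_pos.1 h))]
      simp
  · rw [indicator_of_notMem (a := s) (s := Ioi (0 : ℝ)) (f := g) (fun h => h1 h),
      indicator_of_notMem (a := s) (s := Ioi (0 : ℝ)) (fun h => h1 h)]
    simp

/-- the integrand is integrable on the plane -/
lemma integrable_plane (hc : ContinuousOn ω (Set.Ici 0)) (hpos : ∀ t, 0 ≤ t → 0 < ω t)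
    (hsub : ∀ s t, 0 ≤ s → 0 ≤ t → ω (s + t) ≤ ω s * ω t)
    (hf : Integrable (fun t => (ω t : ℂ) * f t) (volume.restrict (Set.Ioi (0 : ℝ))))
    (hg : Integrable (fun t => (ω t : ℂ) * g t) (volume.restrict (Set.Ioi (0 : ℝ)))) :
    Integrable (fun p : ℝ × ℝ => (((Ioi (0 : ℝ)).indicator ω p.1 : ℝ) : ℂ) *
      ((Ioi (0 : ℝ)).indicator g p.2 * (Ioi (0 : ℝ)).indicator f (p.1 - p.2)))
      (volume.prod volume) := by
  have hK := (integrable_wnorm hpos hg).convolution_integrand (ContinuousLinearMap.mul ℝ ℝ)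
    (integrable_wnorm hpos hf)
  refine hK.mono' ?_ (Filter.Eventually.of_forall fun p => dom hpos hsub p.1 p.2)
  have h1 : AEStronglyMeasurable ((Ioi (0 : ℝ)).indicator ω) volume := by
    rw [aestronglyMeasurable_indicator_iff measurableSet_Ioi]
    exact (hc.mono Ioi_subset_Ici_self).aestronglyMeasurable measurableSet_Ioi
  have h2 : AEStronglyMeasurable (fun t => (((Ioi (0 : ℝ)).indicator ω t : ℝ) : ℂ)) volume :=
    Complex.continuous_ofReal.comp_aestronglyMeasurable h1
  have h3 := (aesm_of_weight hc hpos hg).convolution_integrand (ContinuousLinearMap.mul ℝ ℂ)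
    (aesm_of_weight hc hpos hf)
  exact (h2.comp_fst (ν := volume)).mul h3

/-- `P2`: the weighted Young inequality for the truncated convolution. -/
theorem tconv_weighted (hc : ContinuousOn ω (Set.Ici 0)) (hpos : ∀ t, 0 ≤ t → 0 < ω t)
    (hsub : ∀ s t, 0 ≤ s → 0 ≤ t → ω (s + t) ≤ ω s * ω t)
    (hf : Integrable (fun t => (ω t : ℂ) * f t) (volume.restrict (Set.Ioi (0 : ℝ))))
    (hg : Integrable (fun t => (ω t : ℂ) * g t) (volume.restrict (Set.Ioi (0 : ℝ)))) :
    Integrable (fun t => (ω t : ℂ) * ∫ s in Set.Ioo (0 : ℝ) t, g s * f (t - s))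
      (volume.restrict (Set.Ioi (0 : ℝ))) ∧
    ∫ t in Set.Ioi (0 : ℝ), ‖∫ s in Set.Ioo (0 : ℝ) t, g s * f (t - s)‖ * ω t
      ≤ (∫ t in Set.Ioi (0 : ℝ), ‖g t‖ * ω t) * (∫ t in Set.Ioi (0 : ℝ), ‖f t‖ * ω t) := by
  have hP := integrable_plane hc hpos hsub hf hg
  have hI := hP.integral_prod_left
  have hK := (integrable_wnorm hpos hg).convolution_integrand (ContinuousLinearMap.mul ℝ ℝ)
    (integrable_wnorm hpos hf)
  have hKI := hK.integral_prod_left
  have hcv := integral_convolution (ContinuousLinearMap.mul ℝ ℝ) (integrable_wnorm hpos hg)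
    (integrable_wnorm hpos hf)
  have heq : ∀ t : ℝ, 0 < t → (∫ s, (((Ioi (0 : ℝ)).indicator ω t : ℝ) : ℂ) *
      ((Ioi (0 : ℝ)).indicator g s * (Ioi (0 : ℝ)).indicator f (t - s))) =
      (ω t : ℂ) * ∫ s in Set.Ioo (0 : ℝ) t, g s * f (t - s) := by
    intro t ht
    rw [integral_const_mul, tconv_eq, indicator_of_mem (show t ∈ Ioi (0 : ℝ) from ht)]
  constructor
  · refine (hI.restrict (s := Ioi (0 : ℝ))).congr ?_
    filter_upwards [ae_restrict_mem measurableSet_Ioi] with t ht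
    exact heq t ht
  · rw [← integral_indicator measurableSet_Ioi, ← integral_indicator measurableSet_Ioi,
      ← integral_indicator measurableSet_Ioi]
    rw [ContinuousLinearMap.mul_apply'] at hcv
    rw [← hcv]
    have hnn : ∀ k : ℝ → ℂ, ∀ t, 0 ≤ (Ioi (0 : ℝ)).indicator (fun t => ‖k t‖ * ω t) t := by
      intro k t
      apply indicator_nonneg
      intro t ht
      exact mul_nonneg (norm_nonneg _) (hpos t (le_of_lt ht)).le
    apply integral_mono_of_nonneg (Filter.Eventually.of_forall fun t => hnn _ t) hKI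
    -- pointwise bound almost everywhere
    have hsec := hK.prod_right_ae
    filter_upwards [hsec] with t ht
    by_cases h0 : 0 < t
    · rw [indicator_of_mem (show t ∈ Ioi (0 : ℝ) from h0)]
      have h1 : ‖∫ s in Set.Ioo (0 : ℝ) t, g s * f (t - s)‖ * ω t =
          ‖(ω t : ℂ) * ∫ s in Set.Ioo (0 : ℝ) t, g s * f (t - s)‖ := by
        rw [norm_mul, Complex.norm_real, Real.norm_of_nonneg (hpos t h0.le).le, mul_comm]
      rw [h1, ← heq t h0]
      refine (norm_integral_le_integral_norm _).trans ?_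
      apply integral_mono_of_nonneg (Filter.Eventually.of_forall fun s => norm_nonneg _) ht
      exact Filter.Eventually.of_forall fun s => dom hpos hsub t s
    · rw [indicator_of_notMem (a := t) (s := Ioi (0 : ℝ)) (fun h => h0 h)]
      apply integral_nonneg
      intro s
      exact mul_nonneg (hnn _ _) (hnn _ _)

/-- for almost every `t > 0` the truncated convolution integral converges. -/
theorem tconv_integrableOn (hc : ContinuousOn ω (Set.Ici 0)) (hpos : ∀ t, 0 ≤ t → 0 < ω t)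
    (hsub : ∀ s t, 0 ≤ s → 0 ≤ t → ω (s + t) ≤ ω s * ω t)
    (hf : Integrable (fun t => (ω t : ℂ) * f t) (volume.restrict (Set.Ioi (0 : ℝ))))
    (hg : Integrable (fun t => (ω t : ℂ) * g t) (volume.restrict (Set.Ioi (0 : ℝ)))) :
    ∀ᵐ t ∂(volume.restrict (Set.Ioi (0 : ℝ))),
      IntegrableOn (fun s => g s * f (t - s)) (Set.Ioo 0 t) := by
  have hP := (integrable_plane hc hpos hsub hf hg).prod_right_ae
  filter_upwards [ae_restrict_of_ae hP, ae_restrict_mem measurableSet_Ioi] with t ht h0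
  have hw := hpos t (le_of_lt h0)
  have h3 : (ω t : ℂ) ≠ 0 := by exact_mod_cast hw.ne'
  have h1 := (ht.const_mul ((ω t : ℂ)⁻¹)).integrableOn (s := Ioo 0 t)
  refine h1.congr_fun ?_ measurableSet_Ioo
  intro s hs
  simp only
  rw [indicator_of_mem (show t ∈ Ioi (0 : ℝ) from h0),
    indicator_of_mem (show s ∈ Ioi (0 : ℝ) from hs.1),
    indicator_of_mem (show t - s ∈ Ioi (0 : ℝ) from sub_pos.2 hs.2)]
  field_simp

end

end Pool.Agent.Nyman.H53
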