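import Pool.Agent.Lib_helper93.Nyman.Lower
import Pool.Agent.Lib_helper93.Nyman.P1
import Pool.Agent.Lib_helper93.Nyman.P2

set_option autoImplicit false
open Set Filter Topology MeasureTheory
open scoped Interval

namespace Pool.Agent.Nyman

/-! ### Laplace transforms of `kmu k` -/

lemma Df_ge {z : ℂ} (h : 0 ≤ z.re) (n : ℕ) : 3 / 4 ≤ ‖Df n z‖ := by
  unfold Df
  have h3 : ‖∑ l ∈ Finset.range n, Lf l z * Complex.exp (-(T l * z))‖ ≤ 1 / 4 := by
    apply sum_term_le n (by linarith)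
    intro l _
    have := S_pos (l + 1)
    linarith
  have h4 := norm_sub_norm_le (1 : ℂ) (-∑ l ∈ Finset.range n, Lf l z * Complex.exp (-(T l * z)))
  rw [sub_neg_eq_add, norm_neg, norm_one] at h4
  linarith

lemma kmu_laplace_ne {k : ℝ → ℂ} (hk : Ker k) {A : ℝ} (hA0 : 0 < A) (hA : ∀ t, A ≤ t → k t = 0)
    {z : ℂ} (hz : 0 ≤ z.re) (hne : Lap k 0 A z ≠ 0) :
    ∫ t in Ioi (0:ℝ), kmu k t * Complex.exp (-(z * (t : ℂ))) ≠ 0 := by
  intro h0
  have hint : IntegrableOn (fun t : ℝ => kmu k t * Complex.exp (-(z * (t : ℂ)))) (Ioi (0:ℝ)) := by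
    refine Integrable.mono (kmu_intW hk).integrableOn ?_ ?_
    · apply AEStronglyMeasurable.mul (kmu_continuous hk).aestronglyMeasurable
      apply Continuous.aestronglyMeasurable
      fun_prop
    · filter_upwards [ae_restrict_mem measurableSet_Ioi] with t ht
      have ht0 : (0:ℝ) < t := ht
      rw [norm_mul, Complex.norm_exp]
      have e : (-(z * t) : ℂ).re = -(z.re * t) := by simp
      rw [e]
      have h1 : Real.exp (-(z.re * t)) ≤ 1 := by
        rw [Real.exp_le_one_iff]; nlinarith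
      have := norm_nonneg (kmu k t)
      nlinarith
  have hlim := intervalIntegral_tendsto_integral_Ioi 0 hint tendsto_id
  rw [h0] at hlim
  -- along `b = T (j+1) - 1`
  have hT1 : Tendsto (fun j : ℕ => T (j + 1) - 1) atTop atTop := by
    apply tendsto_atTop_add_const_right
    exact (tendsto_add_atTop_iff_nat 1).2 T_tendsto
  have hlim2 := hlim.comp hT1
  have h2 : ∀ᶠ j in atTop, A + 2 < T (j + 1) - T j := gap_tendsto.eventually_gt_atTop _
  have hpos : 0 < ‖Lap k 0 A z‖ := norm_pos_iff.2 hne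
  have h3 : ∀ᶠ j : ℕ in atTop, ‖∫ t in (0:ℝ)..(T (j + 1) - 1), kmu k t * Complex.exp (-(z * (t : ℂ)))‖
      < 3 / 4 * ‖Lap k 0 A z‖ := by
    have := hlim2.norm
    rw [norm_zero] at this
    exact this.eventually_lt_const (by positivity)
  obtain ⟨j, hj1, hj2⟩ := (h2.and h3).exists
  have e1 : ∫ t in (0:ℝ)..(T (j + 1) - 1), kmu k t * Complex.exp (-(z * (t : ℂ))) =
      Lap (kmu k) (-1) (T (j + 1) - 1) z := by
    have hc : ∀ x y, IntervalIntegrable (fun t : ℝ => kmu k t * Complex.exp (-(z * t))) volume x y :=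
      fun x y => Lap_int ((kmu_continuous hk).intervalIntegrable x y) z
    unfold Lap
    rw [← intervalIntegral.integral_add_adjacent_intervals (hc (-1) 0) (hc 0 _)]
    have h1 : ∫ t in (-1:ℝ)..0, kmu k t * Complex.exp (-(z * t)) = 0 := by
      apply intervalIntegral.integral_zero_ae
      refine Filter.Eventually.of_forall fun t ht => ?_
      rw [uIoc_of_le (by norm_num)] at ht
      rw [kmu_neg hk ht.2, zero_mul]
    rw [h1, zero_add]
  rw [e1, Lap_kmu hk hA0 hA (by linarith), norm_mul] at hj2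
  have h4 := Df_ge hz (j + 1)
  nlinarith

/-! ### tents -/

noncomputable def tent (δ : ℝ) (t : ℝ) : ℂ := ((max 0 (δ - |t - δ|) : ℝ) : ℂ)

lemma tent_ker {δ : ℝ} (hδ : 0 < δ) : Ker (tent δ) := by
  refine ⟨⟨1, zero_le_one, ?_⟩, ?_, ⟨2 * δ, by linarith, ?_⟩⟩
  · intro s t
    unfold tent
    rw [← Complex.ofReal_sub, Complex.norm_real, Real.norm_eq_abs, one_mul]
    have h1 : |max 0 (δ - |s - δ|) - max 0 (δ - |t - δ|)| ≤ |(δ - |s - δ|) - (δ - |t - δ|)| := by
      have := abs_max_sub_max_le_abs (δ - |s - δ|) (δ - |t - δ|) 0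
      rwa [max_comm _ (0:ℝ), max_comm _ (0:ℝ)] at this
    refine h1.trans ?_
    have h2 : (δ - |s - δ|) - (δ - |t - δ|) = |t - δ| - |s - δ| := by ring
    rw [h2]
    have h3 := abs_abs_sub_abs_le_abs_sub (t - δ) (s - δ)
    have h4 : t - δ - (s - δ) = -(s - t) := by ring
    rw [h4, abs_neg] at h3
    exact h3
  · intro t ht
    unfold tent
    have : δ - |t - δ| ≤ 0 := by
      rw [abs_of_nonpos (by linarith)]; linarith
    rw [max_eq_left this]; simp
  · intro t ht
    unfold tent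
    have : δ - |t - δ| ≤ 0 := by
      rw [abs_of_nonneg (by linarith)]; linarith
    rw [max_eq_left this]; simp

lemma tent_pos {δ t : ℝ} (h1 : 0 < t) (h2 : t < 2 * δ) : 0 < max 0 (δ - |t - δ|) := by
  apply lt_max_of_lt_right
  have : |t - δ| < δ := by rw [abs_lt]; constructor <;> linarith
  linarith

lemma tent_laplace_ne {δ : ℝ} (hδ : 0 < δ) {z : ℂ} (hz : ‖z‖ * (2 * δ) ≤ 1 / 2) :
    Lap (tent δ) 0 (2 * δ) z ≠ 0 := by
  have hint : IntervalIntegrable (fun t : ℝ => tent δ t * Complex.exp (-(z * t))) volume 0 (2 * δ) :=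
    Lap_int ((tent_ker hδ).continuous.intervalIntegrable _ _) z
  have hre : (Lap (tent δ) 0 (2 * δ) z).re =
      ∫ t in (0:ℝ)..(2 * δ), (tent δ t * Complex.exp (-(z * t))).re := by
    unfold Lap
    have := Complex.reCLM.intervalIntegral_comp_comm hint
    simpa using this.symm
  have hpos : 0 < (Lap (tent δ) 0 (2 * δ) z).re := by
    rw [hre]
    apply intervalIntegral.intervalIntegral_pos_of_pos_on
    · apply Continuous.intervalIntegrable
      have := (tent_ker hδ).continuous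
      fun_prop
    · intro t ht
      have e1 : (tent δ t * Complex.exp (-(z * t))).re =
          max 0 (δ - |t - δ|) * (Complex.exp (-(z * t))).re := by
        unfold tent
        rw [Complex.re_ofReal_mul]
      rw [e1]
      apply mul_pos (tent_pos ht.1 ht.2)
      have hn : ‖-(z * t)‖ ≤ 1 / 2 := by
        rw [norm_neg, norm_mul, Complex.norm_real, Real.norm_of_nonneg ht.1.le]
        have := norm_nonneg z
        have := ht.2
        nlinarith
      have h2 := Complex.norm_exp_sub_one_le (x := -(z * t)) (by linarith)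
      have h3 := Complex.abs_re_le_norm (Complex.exp (-(z * t)) - 1)
      rw [Complex.sub_re, Complex.one_re] at h3
      have h4 := abs_le.1 (h3.trans h2)
      by_contra hcon
      push Not at hcon
      have h5 : ‖-(z * t)‖ = 1 / 2 := by linarith [h4.1]
      rw [norm_neg, norm_mul, Complex.norm_real, Real.norm_of_nonneg ht.1.le] at h5
      have h6 : ‖z‖ * t < 1 / 2 ∨ ‖z‖ = 0 := by
        rcases eq_or_lt_of_le (norm_nonneg z) with h | h
        · right; exact h.symm
        · left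
          have := ht.2
          nlinarith
      rcases h6 with h | h
      · linarith
      · rw [h] at h5; linarith
    · linarith
  intro h
  rw [h] at hpos
  simp at hpos

/-! ### convolution identities -/

noncomputable def tconv (g f : ℝ → ℂ) : ℝ → ℂ := fun t => ∫ s in Ioo (0:ℝ) t, g s * f (t - s)

noncomputable def cv (g k : ℝ → ℂ) : ℝ → ℂ := fun t => ∫ s in Ioi (0:ℝ), g s * k (t - s)

lemma cv_integrable {g k : ℝ → ℂ} (hg : IntegrableOn g (Ioi (0:ℝ))) (hk : Ker k) (t : ℝ) :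
    IntegrableOn (fun s => g s * k (t - s)) (Ioi (0:ℝ)) := by
  obtain ⟨M, hM⟩ := hk.bdd
  have hc := hk.continuous
  have h1 : AEStronglyMeasurable (fun s => k (t - s)) (volume.restrict (Ioi (0:ℝ))) := by
    apply Continuous.aestronglyMeasurable; fun_prop
  exact Integrable.mul_bdd (c := M) hg h1 (Filter.Eventually.of_forall fun s => hM _)

lemma cv_ker {g k : ℝ → ℂ} (hg : IntegrableOn g (Ioi (0:ℝ))) {M : ℝ} (hM0 : 0 ≤ M)
    (hM : ∀ s, M < s → g s = 0) (hk : Ker k) : Ker (cv g k) := by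
  obtain ⟨L, hL0, hL⟩ := hk.lip
  obtain ⟨A, hA0, hA⟩ := hk.supp
  refine ⟨⟨(∫ s in Ioi (0:ℝ), ‖g s‖) * L, ?_, ?_⟩, ?_, ⟨A + M, by linarith, ?_⟩⟩
  · exact mul_nonneg (integral_nonneg fun _ => norm_nonneg _) hL0
  · intro s t
    unfold cv
    rw [← integral_sub (cv_integrable hg hk s) (cv_integrable hg hk t)]
    rw [mul_assoc, ← integral_mul_const]
    apply norm_integral_le_of_norm_le (hg.norm.mul_const _)
    refine Filter.Eventually.of_forall fun x => ?_
    rw [← mul_sub, norm_mul]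
    have := hL (s - x) (t - x)
    rw [show s - x - (t - x) = s - t by ring] at this
    gcongr
  · intro t ht
    unfold cv
    rw [setIntegral_congr_fun (g := fun _ => (0:ℂ)) measurableSet_Ioi]
    · simp
    · intro s hs
      have hs0 : (0:ℝ) < s := hs
      simp only
      rw [hk.neg _ (by linarith), mul_zero]
  · intro t ht
    unfold cv
    rw [setIntegral_congr_fun (g := fun _ => (0:ℂ)) measurableSet_Ioi]
    · simp
    · intro s hs
      simp only
      rcases le_or_gt s M with h | h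
      · rw [hA _ (by linarith), mul_zero]
      · rw [hM s h, zero_mul]

lemma tconv_shift {g k : ℝ → ℂ} (hk : Ker k) {c : ℝ} (hc : 0 ≤ c) (t : ℝ) :
    ∫ s in Ioo (0:ℝ) t, g s * k (t - s - c) = cv g k (t - c) := by
  unfold cv
  have hsub : Ioo (0:ℝ) t ⊆ Ioi (0:ℝ) := fun x hx => hx.1
  rw [setIntegral_eq_of_subset_of_forall_sdiff_eq_zero measurableSet_Ioi
    (s := Ioo (0:ℝ) t) (t := Ioi (0:ℝ)) (f := fun s => g s * k (t - c - s)) hsub]
  · apply setIntegral_congr_fun measurableSet_Ioo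
    intro s _
    simp only
    rw [show t - s - c = t - c - s by ring]
  · intro s hs
    have h1 : (0:ℝ) < s := hs.1
    have h2 : t ≤ s := by
      by_contra h
      push Not at h
      exact hs.2 ⟨h1, h⟩
    rw [hk.neg _ (by linarith), mul_zero]

lemma tconv_kmu {g k : ℝ → ℂ} (hg : IntegrableOn g (Ioi (0:ℝ))) {M : ℝ} (hM0 : 0 ≤ M)
    (hM : ∀ s, M < s → g s = 0) (hk : Ker k) : tconv g (kmu k) = kmu (cv g k) := by
  ext t
  obtain ⟨n, hn⟩ := exists_T_gt t
  have hcv := cv_ker hg hM0 hM hk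
  rw [kmu_eq hcv hn.le]
  unfold tconv
  have hint : ∀ c : ℝ, IntegrableOn (fun s => g s * k (t - s - c)) (Ioo (0:ℝ) t) := by
    intro c
    have hsub : Ioo (0:ℝ) t ⊆ Ioi (0:ℝ) := fun x hx => hx.1
    have := (cv_integrable hg hk (t - c)).mono_set hsub
    refine this.congr_fun ?_ measurableSet_Ioo
    intro s _
    simp only
    rw [show t - s - c = t - c - s by ring]
  have e1 : ∫ s in Ioo (0:ℝ) t, g s * kmu k (t - s) =
      ∫ s in Ioo (0:ℝ) t, (g s * k (t - s - 0) + ∑ i ∈ Finset.range n,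
        (th i * (g s * k (t - s - T i)) - th i * (g s * k (t - s - (T i + hh i))))) := by
    apply setIntegral_congr_fun measurableSet_Ioo
    intro s hs
    simp only
    rw [kmu_eq hk (n := n) (by linarith [hs.1]), mul_add, Finset.mul_sum, sub_zero]
    congr 1
    apply Finset.sum_congr rfl
    intro i _
    unfold wk
    rw [show t - s - (T i + hh i) = t - s - T i - hh i by ring]
    ring
  rw [e1, integral_add (hint 0)]
  · rw [integral_finsetSum]
    · rw [tconv_shift hk le_rfl, sub_zero]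
      congr 1
      apply Finset.sum_congr rfl
      intro i _
      have hT := T_pos i
      have hh0 := hh_pos i
      rw [integral_sub ((hint _).const_mul _) ((hint _).const_mul _), integral_const_mul,
        integral_const_mul, tconv_shift hk hT.le, tconv_shift hk (by linarith)]
      unfold wk
      rw [show t - (T i + hh i) = t - T i - hh i by ring]
      ring
    · intro i _
      exact ((hint _).const_mul _).sub ((hint _).const_mul _)
  · exact integrable_finsetSum _ fun i _ => ((hint _).const_mul _).sub ((hint _).const_mul _)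

lemma tconv_intW {f g : ℝ → ℂ} (hf : IntW f) (hg : IntW g) : IntW (tconv g f) :=
  (H53.tconv_weighted om_continuousOn (fun t _ => om_pos t) (fun _ _ hs ht => om_submul hs ht)
    hf hg).1

lemma tconv_nrm {f g : ℝ → ℂ} (hf : IntW f) (hg : IntW g) : nrm (tconv g f) ≤ nrm g * nrm f :=
  (H53.tconv_weighted om_continuousOn (fun t _ => om_pos t) (fun _ _ hs ht => om_submul hs ht)
    hf hg).2

lemma tconv_ae {f g : ℝ → ℂ} (hf : IntW f) (hg : IntW g) :
    ∀ᵐ t ∂(volume.restrict (Ioi (0 : ℝ))), IntegrableOn (fun s => g s * f (t - s)) (Ioo 0 t) :=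
  H53.tconv_integrableOn om_continuousOn (fun t _ => om_pos t) (fun _ _ hs ht => om_submul hs ht)
    hf hg

/-- truncation -/
noncomputable def trunc (g : ℝ → ℂ) (M : ℝ) : ℝ → ℂ := indicator (Iic M) g

lemma trunc_intW {g : ℝ → ℂ} (hg : IntW g) (M : ℝ) : IntW (trunc g M) := by
  unfold IntW trunc
  have : (fun t => (om t : ℂ) * (Iic M).indicator g t) =
      (Iic M).indicator (fun t => (om t : ℂ) * g t) := by
    ext t
    by_cases h : t ∈ Iic M
    · rw [indicator_of_mem h, indicator_of_mem h]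
    · rw [indicator_of_notMem h, indicator_of_notMem h, mul_zero]
  rw [this]
  exact Integrable.indicator hg measurableSet_Iic

lemma trunc_nrm_le {g : ℝ → ℂ} (hg : IntW g) (M : ℝ) : nrm (trunc g M) ≤ nrm g := by
  unfold nrm
  apply integral_mono (trunc_intW hg M).norm_int hg.norm_int
  intro t
  simp only
  have := om_pos t
  have : ‖trunc g M t‖ ≤ ‖g t‖ := norm_indicator_le_norm_self _ _
  gcongr

lemma trunc_tendsto {g : ℝ → ℂ} (hg : IntW g) :
    Tendsto (fun M : ℝ => nrm (g - trunc g M)) atTop (𝓝 0) := by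
  have hlim := intervalIntegral_tendsto_integral_Ioi 0 hg.norm_int tendsto_id
  have h2 : Tendsto (fun M : ℝ => nrm g - ∫ t in (0:ℝ)..M, ‖g t‖ * om t) atTop (𝓝 (nrm g - nrm g)) :=
    tendsto_const_nhds.sub hlim
  rw [sub_self] at h2
  refine h2.congr' ?_
  filter_upwards [eventually_ge_atTop (0:ℝ)] with M hM
  rw [intervalIntegral.integral_of_le hM]
  have e1 : nrm (g - trunc g M) = ∫ t in Ioi (0:ℝ), (Ioi M).indicator (fun t => ‖g t‖ * om t) t := by
    unfold nrm
    congr 1
    ext t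
    unfold trunc
    simp only [Pi.sub_apply]
    by_cases h : t ≤ M
    · rw [indicator_of_mem (show t ∈ Iic M from h), indicator_of_notMem (show t ∉ Ioi M from not_lt.2 h)]
      simp
    · push Not at h
      rw [indicator_of_notMem (show t ∉ Iic M from not_le.2 h), indicator_of_mem (show t ∈ Ioi M from h)]
      simp
  rw [e1, setIntegral_indicator measurableSet_Ioi]
  have e2 : Ioi (0:ℝ) ∩ Ioi M = Ioi M := by
    apply inter_eq_right.2
    exact Ioi_subset_Ioi hM
  rw [e2]
  unfold nrm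
  have h3 : Ioi (0:ℝ) = Ioc 0 M ∪ Ioi M := (Ioc_union_Ioi_eq_Ioi hM).symm
  rw [h3, setIntegral_union]
  · ring
  · rw [Set.disjoint_left]
    intro x hx hx2
    exact absurd hx.2 (not_le.2 hx2)
  · exact measurableSet_Ioi
  · exact IntegrableOn.mono_set hg.norm_int Ioc_subset_Ioi_self
  · exact IntegrableOn.mono_set hg.norm_int (Ioi_subset_Ioi hM)

/-- The ideal. -/
def II : Set (ℝ → ℂ) := {f | IntW f ∧ ∀ ε : ℝ, 0 < ε → ∃ k, Ker k ∧ nrm (f - kmu k) < ε}

lemma kmu_mem {k : ℝ → ℂ} (hk : Ker k) : kmu k ∈ II := by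
  refine ⟨kmu_intW hk, fun ε hε => ⟨k, hk, ?_⟩⟩
  rw [sub_self]
  have : nrm 0 = 0 := by simp [nrm]
  rw [this]; exact hε

lemma II_zero : (0 : ℝ → ℂ) ∈ II := by
  have := kmu_mem Ker.zero
  rwa [kmu_zero] at this

lemma II_add {f g : ℝ → ℂ} (hf : f ∈ II) (hg : g ∈ II) : f + g ∈ II := by
  refine ⟨hf.1.add hg.1, fun ε hε => ?_⟩
  obtain ⟨k, hk, hk2⟩ := hf.2 (ε / 2) (by linarith)
  obtain ⟨l, hl, hl2⟩ := hg.2 (ε / 2) (by linarith)
  refine ⟨k + l, hk.add hl, ?_⟩
  rw [kmu_add hk hl]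
  have e : f + g - (kmu k + kmu l) = (f - kmu k) + (g - kmu l) := by ring
  rw [e]
  have := nrm_add_le (hf.1.sub (kmu_intW hk)) (hg.1.sub (kmu_intW hl))
  linarith

lemma II_smul {f : ℝ → ℂ} (c : ℂ) (hf : f ∈ II) : c • f ∈ II := by
  refine ⟨hf.1.smul c, fun ε hε => ?_⟩
  obtain ⟨k, hk, hk2⟩ := hf.2 (ε / (‖c‖ + 1)) (by positivity)
  refine ⟨c • k, hk.smul c, ?_⟩
  rw [kmu_smul, ← smul_sub, nrm_smul]
  have h1 := nrm_nonneg (f - kmu k)
  rw [lt_div_iff₀ (by positivity)] at hk2
  nlinarith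

lemma II_congr {f g : ℝ → ℂ} (hf : f ∈ II) (h : g =ᵐ[volume.restrict (Ioi (0:ℝ))] f) : g ∈ II := by
  refine ⟨hf.1.congr h, fun ε hε => ?_⟩
  obtain ⟨k, hk, hk2⟩ := hf.2 ε hε
  refine ⟨k, hk, ?_⟩
  rw [nrm_congr (f := f - kmu k)]
  · exact hk2
  · filter_upwards [h] with t ht
    simp only [Pi.sub_apply, ht]

lemma II_closed {f : ℝ → ℂ} (hf : IntW f)
    (h : ∀ ε : ℝ, 0 < ε → ∃ g ∈ II, nrm (f - g) < ε) : f ∈ II := by
  refine ⟨hf, fun ε hε => ?_⟩
  obtain ⟨g, hg, hg2⟩ := h (ε / 2) (by linarith)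
  obtain ⟨k, hk, hk2⟩ := hg.2 (ε / 2) (by linarith)
  refine ⟨k, hk, ?_⟩
  have e : f - kmu k = (f - g) + (g - kmu k) := by ring
  rw [e]
  have := nrm_add_le (hf.sub hg.1) (hg.1.sub (kmu_intW hk))
  linarith

lemma II_conv {f g : ℝ → ℂ} (hf : f ∈ II) (hg : IntW g) : tconv g f ∈ II := by
  refine ⟨tconv_intW hf.1 hg, fun ε hε => ?_⟩
  set a := nrm f with ha
  set b := nrm g with hb
  have ha0 : 0 ≤ a := nrm_nonneg f
  have hb0 : 0 ≤ b := nrm_nonneg g
  obtain ⟨k, hk, hk2⟩ := hf.2 (ε / (2 * (b + 1))) (by positivity)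
  have h1 : ∀ᶠ M : ℝ in atTop, nrm (g - trunc g M) < ε / (2 * (a + 1)) :=
    (trunc_tendsto hg).eventually_lt_const (by positivity)
  obtain ⟨M, hM1, hM0⟩ := (h1.and (eventually_ge_atTop (0:ℝ))).exists
  set gM := trunc g M with hgM
  have hgMW : IntW gM := trunc_intW hg M
  have hgMz : ∀ s, M < s → gM s = 0 := by
    intro s hs
    rw [hgM]; unfold trunc
    rw [indicator_of_notMem (show s ∉ Iic M from not_le.2 hs)]
  have hker := cv_ker hgMW.integrableOn hM0 hgMz hk
  refine ⟨cv gM k, hker, ?_⟩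
  rw [← tconv_kmu hgMW.integrableOn hM0 hgMz hk]
  have hkW := kmu_intW hk
  have hd1 : IntW (g - gM) := hg.sub hgMW
  have hd2 : IntW (f - kmu k) := hf.1.sub hkW
  have hae : tconv g f - tconv gM (kmu k) =ᵐ[volume.restrict (Ioi (0:ℝ))]
      tconv (g - gM) f + tconv gM (f - kmu k) := by
    filter_upwards [tconv_ae hf.1 hg, tconv_ae hf.1 hgMW, tconv_ae hkW hgMW] with t h1 h2 h3
    simp only [Pi.sub_apply, Pi.add_apply, tconv]
    rw [← integral_sub h1 h3, ← integral_add]
    · congr 1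
      ext s
      ring
    · refine (h1.sub h2).congr_fun ?_ measurableSet_Ioo
      intro s _
      simp only [Pi.sub_apply]; ring
    · refine (h2.sub h3).congr_fun ?_ measurableSet_Ioo
      intro s _
      simp only [Pi.sub_apply]; ring
  rw [nrm_congr hae]
  have n1 := nrm_add_le (tconv_intW hf.1 hd1) (tconv_intW hd2 hgMW)
  have n2 := tconv_nrm hf.1 hd1
  have n3 := tconv_nrm hd2 hgMW
  have n4 := trunc_nrm_le hg M
  have n5 := nrm_nonneg (g - gM)
  have n6 := nrm_nonneg (f - kmu k)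
  rw [lt_div_iff₀ (by positivity)] at hM1 hk2
  have n7 : nrm (g - gM) * a ≤ nrm (g - gM) * (a + 1) := by nlinarith
  have n8 : nrm gM * nrm (f - kmu k) ≤ nrm (f - kmu k) * (b + 1) := by nlinarith
  have n9 : nrm (g - gM) * (a + 1) < ε / 2 := by linarith
  have n10 : nrm (f - kmu k) * (b + 1) < ε / 2 := by linarith
  linarith

lemma II_alpha (ε : ℝ) (hε : 0 < ε) : ∃ f ∈ II, ¬ (f =ᵐ[volume.restrict (Ioo (0:ℝ) ε)] 0) := by
  set δ : ℝ := min ε 1 / 2 with hδ
  have hm : 0 < min ε 1 := lt_min hε one_pos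
  have hδ0 : 0 < δ := by positivity
  have hk := tent_ker hδ0
  refine ⟨kmu (tent δ), kmu_mem hk, fun h => ?_⟩
  have h1 := Measure.eqOn_open_of_ae_eq h isOpen_Ioo (kmu_continuous hk).continuousOn
    continuousOn_const
  have h2 : δ ∈ Ioo (0:ℝ) ε := ⟨hδ0, by
    have : min ε 1 ≤ ε := min_le_left _ _
    linarith⟩
  have h3 := h1 h2
  have hT0 := T_ge_two 0
  rw [kmu_eq hk (n := 0) (by
    have : min ε 1 ≤ 1 := min_le_right _ _
    linarith)] at h3
  simp only [Finset.range_zero, Finset.sum_empty, add_zero, tent, sub_self, abs_zero, sub_zero,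
    Pi.zero_apply, Complex.ofReal_eq_zero] at h3
  rw [max_eq_right hδ0.le] at h3
  linarith

lemma II_hull (z : ℂ) (hz : 0 ≤ z.re) :
    ∃ f ∈ II, ∫ t in Ioi (0:ℝ), f t * Complex.exp (-(z * (t : ℂ))) ≠ 0 := by
  set δ : ℝ := 1 / (4 * (‖z‖ + 1)) with hδ
  have hδ0 : 0 < δ := by have := norm_nonneg z; positivity
  have hk := tent_ker hδ0
  refine ⟨kmu (tent δ), kmu_mem hk, ?_⟩
  apply kmu_laplace_ne hk (A := 2 * δ) (by linarith) _ hz
  · apply tent_laplace_ne hδ0
    have := norm_nonneg z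
    rw [hδ, show ‖z‖ * (2 * (1 / (4 * (‖z‖ + 1)))) = ‖z‖ / (‖z‖ + 1) / 2 by field_simp; norm_num]
    have : ‖z‖ / (‖z‖ + 1) ≤ 1 := by rw [div_le_one (by positivity)]; linarith
    linarith
  · intro t ht
    unfold tent
    have : δ - |t - δ| ≤ 0 := by
      rw [abs_of_nonneg (by linarith)]; linarith
    rw [max_eq_left this]; simp

lemma uu_not_mem : uu ∉ II := by
  intro h
  obtain ⟨k, hk, hk2⟩ := h.2 (1 / 10) (by norm_num)
  have := lower hk
  linarith

end Pool.Agent.Nyman
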