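import Pool.Agent.Lib_helper93.Nyman.Step

set_option autoImplicit false
open Set Filter Topology MeasureTheory

namespace Pool.Agent.Nyman

lemma sinh_bound : Real.sinh (Real.pi * 3.5) ≤ 30000 := by
  have h1 : Real.sinh (Real.pi * 3.5) ≤ Real.exp (Real.pi * 3.5) / 2 := by
    rw [Real.sinh_eq]
    have := Real.exp_pos (-(Real.pi * 3.5))
    linarith
  have h2 : Real.exp (Real.pi * 3.5) ≤ X := by
    unfold X
    apply Real.exp_le_exp.2
    have := Real.pi_lt_d4
    norm_num at this ⊢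
    linarith
  have h3 := X_lt
  linarith

lemma hB_ge (i : ℕ) {x y : ℝ} (hx1 : 1 / 2 / P i ≤ x) (hx2 : x ≤ R i / 2) (hy : R i / 2 ≤ y) :
    1 / (20000 * P i * R i) ≤ Real.sin (Real.pi * x / R i) * Real.sinh (Real.pi * y / R i) /
      Real.sinh (Real.pi * (3.5 * R i) / R i) := by
  have hR := R_pos i
  have hP := P_pos i
  have hpi := Real.pi_gt_three
  have e1 : Real.pi * (3.5 * R i) / R i = Real.pi * 3.5 := by field_simp
  rw [e1]
  have hx0 : 0 < x := lt_of_lt_of_le (by positivity) hx1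
  have hs1 : 1 / (P i * R i) ≤ Real.sin (Real.pi * x / R i) := by
    have h1 : Real.pi * x / R i ≤ Real.pi / 2 := by
      rw [div_le_iff₀ hR]; nlinarith
    have h2 := Real.mul_le_sin (x := Real.pi * x / R i) (by positivity) h1
    have h3 : 2 / Real.pi * (Real.pi * x / R i) = 2 * x / R i := by field_simp
    rw [h3] at h2
    refine le_trans ?_ h2
    rw [div_le_div_iff₀ (by positivity) hR]
    have h4 : 1 ≤ 2 * x * P i := by
      rw [div_div, div_le_iff₀ (by positivity)] at hx1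
      linarith
    nlinarith
  have hs2 : 1.5 ≤ Real.sinh (Real.pi * y / R i) := by
    have h1 : 1.5 ≤ Real.pi * y / R i := by
      rw [le_div_iff₀ hR]; nlinarith
    have h2 : Real.pi * y / R i ≤ Real.sinh (Real.pi * y / R i) :=
      Real.self_le_sinh_iff.2 (by linarith)
    linarith
  have hs3 := sinh_bound
  have hs4 : 0 < Real.sinh (Real.pi * 3.5) := Real.sinh_pos_iff.2 (by positivity)
  have h5 : (0 : ℝ) < 1 / (P i * R i) := by positivity
  have h6 : 0 ≤ Real.sin (Real.pi * x / R i) := by linarith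
  calc 1 / (20000 * P i * R i) = 1 / (P i * R i) * 1.5 / 30000 := by field_simp; norm_num
    _ ≤ Real.sin (Real.pi * x / R i) * Real.sinh (Real.pi * y / R i) / 30000 := by gcongr
    _ ≤ _ := by
      apply div_le_div_of_nonneg_left _ hs4 hs3
      have : 0 ≤ Real.sin (Real.pi * x / R i) := by linarith
      have : 0 ≤ Real.sinh (Real.pi * y / R i) := by linarith
      positivity

/-- Step from level `i+1` to level `i`. -/
lemma step (i : ℕ) {U : ℂ → ℂ} (hU : Differentiable ℂ U)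
    (hU3 : ∀ z : ℂ, -1 ≤ z.re → ‖U z‖ ≤ 3) {v : ℝ → ℂ} (hv : VHyp v)
    {Bn Hn : ℂ → ℂ}
    (hid : ∀ z : ℂ, R (i + 1) ≤ z.im → z.im ≤ 3 * R (i + 1) →
      Bf U v i z = Bn z + Lam i z * Hn z)
    (hHd : ∀ z : ℂ, R (i + 1) ≤ z.im → z.im ≤ 3 * R (i + 1) → DifferentiableAt ℂ Hn z)
    (hHb : ∀ z : ℂ, al (i + 1) ≤ z.re → z.re ≤ x0 i + R (i + 1) → R (i + 1) ≤ z.im →
      z.im ≤ 3 * R (i + 1) → ‖Hn z‖ ≤ 2)
    (hBn : ∀ z : ℂ, al (i + 1) ≤ z.re → z.re ≤ x1 (i + 1) + R (i + 1) / 2 → R (i + 1) ≤ z.im →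
      z.im ≤ 3 * R (i + 1) → ‖Bn z‖ ≤ Real.exp (-(2 * P (i + 1)))) :
    Claim U v i := by
  intro z hz1 hz2 hz3 hz4
  have hR := R_pos i
  have hR8 := R_ge i
  have hP := P_pos i
  have hRs := R_succ i
  have hHsg := Hs_ge i
  have hxx : x1 i - x0 i = 1 / 2 / P i := by unfold x1 x0; ring
  have hax : al i - x1 i = 1 / 2 / P i := by unfold x1 al; ring
  have hP2 : 0 < 1 / 2 / P i := by positivity
  have hPs : 1 / 2 / P i ≤ 1 / 100 := by
    rw [div_le_iff₀ hP]; have := P_big i; norm_num at this ⊢; linarith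
  have hx0g := x0_ge_neg_one i
  have hε0 : 0 < Real.exp (-(P i ^ 3 / 4)) := Real.exp_pos _
  have hε1 : Real.exp (-(P i ^ 3 / 4)) ≤ 4 := by
    have : Real.exp (-(P i ^ 3 / 4)) ≤ 1 := by
      rw [Real.exp_le_one_iff]; have : 0 < P i ^ 3 := by positivity
      linarith
    linarith
  have key := lemB (B := Bf U v i) (x1 := x1 i) (L := R i) (y1 := R i / 2) (Y := 3.5 * R i)
    (C0 := 4) (ε := Real.exp (-(P i ^ 3 / 4))) hR (by positivity) hε0 hε1 ?_ ?_ ?_
    (z := z) (by linarith) (by linarith) (by linarith) (by linarith)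
  · refine key.trans ?_
    have h1 := hB_ge i (x := z.re - x1 i) (y := z.im - R i / 2) (by linarith) (by linarith)
      (by linarith)
    set q : ℝ := Real.sin (Real.pi * (z.re - x1 i) / R i) *
      Real.sinh (Real.pi * (z.im - R i / 2) / R i) / Real.sinh (Real.pi * (3.5 * R i) / R i)
      with hq
    have h2 : P i ^ 3 / 4 ≤ Real.log (4 / Real.exp (-(P i ^ 3 / 4))) := by
      rw [Real.log_div (by norm_num) hε0.ne', Real.log_exp]
      have := Real.log_nonneg (show (1 : ℝ) ≤ 4 by norm_num)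
      linarith
    have h3 : P i ^ 3 / 4 * (1 / (20000 * P i * R i)) ≤
        Real.log (4 / Real.exp (-(P i ^ 3 / 4))) * q := by
      have : (0 : ℝ) ≤ P i ^ 3 / 4 := by positivity
      have : (0 : ℝ) ≤ 1 / (20000 * P i * R i) := by positivity
      gcongr
      linarith
    have h4 : P i ^ 3 / 4 * (1 / (20000 * P i * R i)) = P i ^ 2 / (80000 * R i) := by
      field_simp; norm_num
    have h5 : 2 * P i + 4 ≤ P i ^ 2 / (80000 * R i) := by
      rw [le_div_iff₀ (by positivity)]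
      have h6 := R_le_P i
      have h7 := P_big i
      norm_num at h6 h7
      nlinarith
    have h8 : (4 : ℝ) ≤ Real.exp 4 := by
      have := Real.add_one_le_exp (4 : ℝ); linarith
    calc 4 * Real.exp (-(Real.log (4 / Real.exp (-(P i ^ 3 / 4))) * q))
        ≤ Real.exp 4 * Real.exp (-(2 * P i + 4)) := by
          gcongr
          linarith
      _ = Real.exp (-(2 * P i)) := by rw [← Real.exp_add]; congr 1; ring
  · intro w h1 h2 h3 h4
    exact Bf_differentiableAt hU hv i (Lf_ne i h3 (by linarith))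
  · intro w h1 h2 h3 h4
    exact Bf_le hv i (hU3 w (by linarith)) (by linarith) h3 (by linarith) (by linarith)
  · intro w h1 h2 h3
    exact stepA_top i hU hU3 hv hid hHd hHb hBn (by linarith) h2 h3

lemma claim_succ (i : ℕ) {U : ℂ → ℂ} (hU : Differentiable ℂ U)
    (hU3 : ∀ z : ℂ, -1 ≤ z.re → ‖U z‖ ≤ 3) {v : ℝ → ℂ} (hv : VHyp v)
    (hc : Claim U v (i + 1)) : Claim U v i := by
  have hR := R_pos i
  have hRs := R_succ i
  have hne1 : ∀ z : ℂ, R (i + 1) ≤ z.im → z.im ≤ 3 * R (i + 1) → Lf i z ≠ 0 := by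
    intro z h1 h2; exact Lf_ne i (by linarith) (by linarith)
  have hne2 : ∀ z : ℂ, R (i + 1) ≤ z.im → z.im ≤ 3 * R (i + 1) → Lf (i + 1) z ≠ 0 := by
    intro z h1 h2; exact Lf_ne (i + 1) (by linarith) (by linarith)
  refine step i hU hU3 hv (Bn := Bf U v (i + 1)) (Hn := Hf v i) ?_ ?_ ?_ hc
  · intro z h1 h2
    exact ident3 U hv i z (hne1 z h1 h2) (hne2 z h1 h2)
  · intro z h1 h2
    exact Hf_differentiableAt hv i (hne1 z h1 h2) (hne2 z h1 h2)
  · intro z h1 h2 h3 h4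
    have a1 := Hs_ge i
    have a2 := Hs_ge' i
    exact Hf_le hv i h1 h3 h4 (by linarith) (by linarith)

lemma claim_top (j : ℕ) {U Kh : ℂ → ℂ} (hU : Differentiable ℂ U) (hKh : Differentiable ℂ Kh)
    (hU3 : ∀ z : ℂ, -1 ≤ z.re → ‖U z‖ ≤ 3) {v : ℝ → ℂ} (hv : VHyp v)
    (hKb : ∀ z : ℂ, -1 ≤ z.re → ‖Kh z‖ * (3 * th j) ≤ 1)
    (htop : ∀ z : ℂ, U z - blk v (j + 1) 0 z = Kh z * Df (j + 1) z) : Claim U v j := by
  have hR := R_pos j
  have hRs := R_succ j
  have hne1 : ∀ z : ℂ, R (j + 1) ≤ z.im → z.im ≤ 3 * R (j + 1) → Lf j z ≠ 0 := by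
    intro z h1 h2; exact Lf_ne j (by linarith) (by linarith)
  refine step j hU hU3 hv (Bn := fun _ => 0) (Hn := fun z => Gf v j z + Lf j z * Kh z)
    ?_ ?_ ?_ ?_
  · intro z h1 h2
    exact ident_top U Kh hv j z (hne1 z h1 h2) (htop z)
  · intro z h1 h2
    exact (Gf_differentiableAt hv j (hne1 z h1 h2)).add ((Lf_differentiable j z).mul (hKh z))
  · intro z h1 h2 h3 h4
    have a1 := Hs_ge j
    have a3 := x0_lt_al_succ j
    have a4 := x0_ge_neg_one j
    have g1 := Gf_le hv j (z := z) (by linarith) h1 (by linarith) (by linarith) (by linarith)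
    have g2 := Lf_le j (z := z) (by linarith)
    have g3 := hKb z (by linarith)
    calc ‖Gf v j z + Lf j z * Kh z‖ ≤ ‖Gf v j z‖ + ‖Lf j z * Kh z‖ := norm_add_le _ _
      _ ≤ 1 + ‖Kh z‖ * (3 * th j) := by
          rw [norm_mul, mul_comm ‖Lf j z‖]
          gcongr
      _ ≤ 2 := by linarith
  · intro z _ _ _ _
    rw [norm_zero]
    exact (Real.exp_pos _).le

lemma claim_zero (j : ℕ) {U : ℂ → ℂ} (hU : Differentiable ℂ U)
    (hU3 : ∀ z : ℂ, -1 ≤ z.re → ‖U z‖ ≤ 3) {v : ℝ → ℂ} (hv : VHyp v)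
    (hc : Claim U v j) : Claim U v 0 := by
  induction j with
  | zero => exact hc
  | succ k ih => exact ih (claim_succ k hU hU3 hv hc)

/-- **Key theorem.** -/
theorem key (j : ℕ) {U Kh : ℂ → ℂ} (hU : Differentiable ℂ U) (hKh : Differentiable ℂ Kh)
    (hU3 : ∀ z : ℂ, -1 ≤ z.re → ‖U z‖ ≤ 3) {v : ℝ → ℂ} (hv : VHyp v)
    (hKb : ∀ z : ℂ, -1 ≤ z.re → ‖Kh z‖ * (3 * th j) ≤ 1)
    (htop : ∀ z : ℂ, U z - blk v (j + 1) 0 z = Kh z * Df (j + 1) z) :
    ‖U (3 * Real.pi * Complex.I)‖ ≤ 1 / 100 + ∫ t, wv v t := by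
  have hc := claim_zero j hU hU3 hv (claim_top j hU hKh hU3 hv hKb htop)
  have hR0 : R 0 = 8 := by simp [R]
  have hpi := Real.pi_gt_three
  have hpi2 := Real.pi_lt_d2
  have hP := P_pos 0
  have hPb := P_big 0
  norm_num at hPb
  have h7 : 7 / P 0 ≤ 1 / 100 := by
    rw [div_le_iff₀ hP]; linarith
  have h5 : 5 / P 0 ≤ 7 / P 0 := by gcongr; norm_num
  have h6 : 6 / P 0 ≤ 7 / P 0 := by gcongr; norm_num
  have h55 : 0 < 5.5 / P 0 := by positivity
  have hre : (3 * Real.pi * Complex.I : ℂ).re = 0 := by simp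
  have him : (3 * Real.pi * Complex.I : ℂ).im = 3 * Real.pi := by simp
  have hH := Hs_ge 0
  have hx0 := x0_ge_neg_one 0
  have hR1 := R_succ 0
  have h1 : ‖Bf U v 0 (3 * Real.pi * Complex.I)‖ ≤ Real.exp (-(2 * P 0)) := by
    apply hc
    · rw [hre]; unfold al; rw [S_zero]; linarith
    · rw [hre, hR0]; unfold x1; rw [S_zero]; linarith
    · rw [him, hR0]; linarith
    · rw [him, hR0]; norm_num at hpi2 ⊢; linarith
  have h2 := U_le_of hv (U := U) 0 (z := 3 * Real.pi * Complex.I)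
    (by rw [hre]; exact (x0_neg 0).le) (by rw [him, hR0]; linarith)
    (by rw [him, hR0]; norm_num at hpi2 ⊢; linarith) (by rw [hre]; linarith)
  have h3 : Real.exp (-(2 * P 0)) ≤ 1 / 100 := by
    refine (exp_neg_le_inv (by positivity)).trans ?_
    apply one_div_le_one_div_of_le (by norm_num)
    linarith
  linarith

end Pool.Agent.Nyman
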