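import Pool.Agent.Lib_helper93.Nyman.Fun

set_option autoImplicit false
open Set Filter Topology MeasureTheory

namespace Pool.Agent.Nyman

/-- Test kernels: Lipschitz functions supported in `[0,A]` (vanishing at the ends). -/
structure Ker (k : ℝ → ℂ) : Prop where
  lip : ∃ C : ℝ, 0 ≤ C ∧ ∀ s t, ‖k s - k t‖ ≤ C * |s - t|
  neg : ∀ t ≤ 0, k t = 0
  supp : ∃ A : ℝ, 0 < A ∧ ∀ t, A ≤ t → k t = 0

lemma Ker.continuous {k : ℝ → ℂ} (hk : Ker k) : Continuous k := by
  obtain ⟨C, hC0, hC⟩ := hk.lip
  have : LipschitzWith (Real.toNNReal C) k := by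
    apply LipschitzWith.of_dist_le_mul
    intro x y
    rw [dist_eq_norm, Real.dist_eq, Real.coe_toNNReal _ hC0]
    exact hC x y
  exact this.continuous

lemma Ker.zero : Ker 0 :=
  ⟨⟨0, le_rfl, by simp⟩, fun _ _ => rfl, ⟨1, one_pos, fun _ _ => rfl⟩⟩

lemma Ker.add {k l : ℝ → ℂ} (hk : Ker k) (hl : Ker l) : Ker (k + l) := by
  obtain ⟨C, hC0, hC⟩ := hk.lip
  obtain ⟨C', hC0', hC'⟩ := hl.lip
  obtain ⟨A, hA0, hA⟩ := hk.supp
  obtain ⟨A', hA0', hA'⟩ := hl.supp
  refine ⟨⟨C + C', by linarith, ?_⟩, ?_, ⟨max A A', lt_max_of_lt_left hA0, ?_⟩⟩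
  · intro s t
    have h1 := hC s t
    have h2 := hC' s t
    have e : (k + l) s - (k + l) t = (k s - k t) + (l s - l t) := by
      simp only [Pi.add_apply]; ring
    rw [e]
    refine (norm_add_le _ _).trans ?_
    linarith
  · intro t ht
    simp [hk.neg t ht, hl.neg t ht]
  · intro t ht
    simp [hA t ((le_max_left _ _).trans ht), hA' t ((le_max_right _ _).trans ht)]

lemma Ker.smul {k : ℝ → ℂ} (c : ℂ) (hk : Ker k) : Ker (c • k) := by
  obtain ⟨C, hC0, hC⟩ := hk.lip
  obtain ⟨A, hA0, hA⟩ := hk.supp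
  refine ⟨⟨‖c‖ * C, by positivity, ?_⟩, ?_, ⟨A, hA0, ?_⟩⟩
  · intro s t
    have h1 := hC s t
    have e : (c • k) s - (c • k) t = c * (k s - k t) := by
      simp only [Pi.smul_apply, smul_eq_mul]; ring
    rw [e, norm_mul, mul_assoc]
    gcongr
  · intro t ht
    simp [hk.neg t ht]
  · intro t ht
    simp [hA t ht]

/-- the `i`-th summand of `k * μ` -/
noncomputable def wk (k : ℝ → ℂ) (i : ℕ) (t : ℝ) : ℂ :=
  th i * (k (t - T i) - k (t - T i - hh i))

noncomputable def kmu (k : ℝ → ℂ) (t : ℝ) : ℂ := k t + ∑' i, wk k i t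

lemma wk_zero {k : ℝ → ℂ} (hk : Ker k) (i : ℕ) {t : ℝ} (h : t ≤ T i) : wk k i t = 0 := by
  unfold wk
  rw [hk.neg _ (by linarith), hk.neg _ (by have := hh_pos i; linarith)]
  simp

lemma kmu_eq {k : ℝ → ℂ} (hk : Ker k) {t : ℝ} {n : ℕ} (h : t ≤ T n) :
    kmu k t = k t + ∑ i ∈ Finset.range n, wk k i t := by
  unfold kmu
  congr 1
  apply tsum_eq_sum
  intro i hi
  have hi' : n ≤ i := by simpa using hi
  exact wk_zero hk i (h.trans (T_mono hi'))

lemma T_tendsto : Tendsto T atTop atTop := by
  apply tendsto_atTop_mono (f := fun i : ℕ => (i : ℝ))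
  · intro i
    have := P_ge (i + 1)
    unfold T
    refine le_trans ?_ this
    have h3 : i < 2 ^ (40 * (i + 1 + 1)) :=
      lt_of_lt_of_le (Nat.lt_two_pow_self) (Nat.pow_le_pow_right (by norm_num) (by omega))
    exact_mod_cast h3.le
  · exact tendsto_natCast_atTop_atTop

lemma exists_T_gt (t : ℝ) : ∃ n, t < T n :=
  (T_tendsto.eventually_gt_atTop t).exists

lemma wk_continuous {k : ℝ → ℂ} (hk : Ker k) (i : ℕ) : Continuous (wk k i) := by
  have := hk.continuous
  unfold wk
  fun_prop

lemma wk_summable {k : ℝ → ℂ} (hk : Ker k) (t : ℝ) : Summable fun i => wk k i t := by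
  obtain ⟨n, hn⟩ := exists_T_gt t
  apply summable_of_ne_finset_zero (s := Finset.range n)
  intro i hi
  have hi' : n ≤ i := by simpa using hi
  exact wk_zero hk i (hn.le.trans (T_mono hi'))

lemma kmu_continuous {k : ℝ → ℂ} (hk : Ker k) : Continuous (kmu k) := by
  rw [continuous_iff_continuousAt]
  intro t
  obtain ⟨n, hn⟩ := exists_T_gt t
  have h1 : ContinuousAt (fun t => k t + ∑ i ∈ Finset.range n, wk k i t) t := by
    apply Continuous.continuousAt
    apply hk.continuous.add
    exact continuous_finsetSum _ fun i _ => wk_continuous hk i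
  apply h1.congr
  filter_upwards [Iio_mem_nhds hn] with s hs
  exact (kmu_eq hk (le_of_lt hs)).symm

lemma kmu_neg {k : ℝ → ℂ} (hk : Ker k) {t : ℝ} (h : t ≤ 0) : kmu k t = 0 := by
  rw [kmu_eq hk (n := 0) (h.trans (T_pos 0).le), hk.neg t h]
  simp

lemma kmu_zero : kmu 0 = 0 := by
  ext t; simp [kmu, wk]

lemma kmu_add {k l : ℝ → ℂ} (hk : Ker k) (hl : Ker l) : kmu (k + l) = kmu k + kmu l := by
  ext t
  simp only [kmu, Pi.add_apply]
  have h : ∀ i, wk (k + l) i t = wk k i t + wk l i t := by
    intro i; simp only [wk, Pi.add_apply]; ring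
  rw [tsum_congr h, (wk_summable hk t).tsum_add (wk_summable hl t)]
  ring

lemma kmu_smul {k : ℝ → ℂ} (c : ℂ) : kmu (c • k) = c • kmu k := by
  ext t
  simp only [kmu, Pi.smul_apply, smul_eq_mul]
  have h : ∀ i, wk (c • k) i t = c * wk k i t := by
    intro i; simp only [wk, Pi.smul_apply, smul_eq_mul]; ring
  rw [tsum_congr h, tsum_mul_left]
  ring

/-- the main bound on a summand -/
lemma wk_bound {k : ℝ → ℂ} (hk : Ker k) : ∃ C A : ℝ, 0 ≤ C ∧ 0 < A ∧ ∀ i t, 0 ≤ t →
    ‖wk k i t‖ * om t ≤ indicator (Icc (T i) (T i + A)) (fun _ => C * hh i) t := by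
  obtain ⟨L, hL0, hL⟩ := hk.lip
  obtain ⟨A, hA0, hA⟩ := hk.supp
  refine ⟨L * X * Real.exp (A + 1), A + 1, ?_, by linarith, ?_⟩
  · have := X_gt; positivity
  intro i t ht
  have hh0 := hh_pos i
  have hh1 := hh_le i
  by_cases h : t ∈ Icc (T i) (T i + (A + 1))
  · rw [indicator_of_mem h]
    have e1 : ‖wk k i t‖ ≤ th i * (L * hh i) := by
      unfold wk
      rw [norm_mul, Complex.norm_real, Real.norm_of_nonneg (th_pos i).le]
      have := hL (t - T i) (t - T i - hh i)
      have e : |t - T i - (t - T i - hh i)| = hh i := by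
        rw [show t - T i - (t - T i - hh i) = hh i by ring, abs_of_pos hh0]
      rw [e] at this
      have := th_pos i
      gcongr
    have e2 : om t ≤ xw i * Real.exp (A + 1) := by
      have h1 := om_submul (T_pos i).le (show 0 ≤ t - T i by linarith [h.1])
      rw [add_sub_cancel] at h1
      have h2 := om_T_le i
      have h3 : om (t - T i) ≤ Real.exp (A + 1) := by
        refine (om_le_exp (by linarith [h.1])).trans ?_
        apply Real.exp_le_exp.2
        linarith [h.2]
      have := om_pos (t - T i)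
      have := xw_pos i
      refine h1.trans ?_
      gcongr
    have := th_pos i
    have := om_pos t
    calc ‖wk k i t‖ * om t ≤ (th i * (L * hh i)) * (xw i * Real.exp (A + 1)) := by gcongr
      _ = L * (th i * xw i) * Real.exp (A + 1) * hh i := by ring
      _ = L * X * Real.exp (A + 1) * hh i := by rw [th_mul_xw]
  · rw [indicator_of_notMem h]
    have : wk k i t = 0 := by
      rw [mem_Icc, not_and_or] at h
      rcases h with h | h
      · exact wk_zero hk i (by push Not at h; exact h.le)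
      · push Not at h
        unfold wk
        rw [hA _ (by linarith), hA _ (by linarith)]
        simp
    rw [this, norm_zero, zero_mul]

lemma hh_summable : Summable hh := by
  have : hh = fun i => 1 / 24 * (1 / 2 : ℝ) ^ i := by
    ext i
    unfold hh R
    rw [one_div_pow]
    field_simp
    norm_num
  rw [this]
  apply Summable.mul_left
  exact summable_geometric_of_lt_one (by norm_num) (by norm_num)

/-- membership in `L¹(ω)` -/
def IntW (f : ℝ → ℂ) : Prop :=
  Integrable (fun t => (om t : ℂ) * f t) (volume.restrict (Ioi (0:ℝ)))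

noncomputable def nrm (f : ℝ → ℂ) : ℝ := ∫ t in Ioi (0:ℝ), ‖f t‖ * om t

lemma om_aesm : AEStronglyMeasurable om (volume.restrict (Ioi (0:ℝ))) :=
  (om_continuousOn.mono (Ioi_subset_Ici le_rfl)).aestronglyMeasurable measurableSet_Ioi

lemma omC_aesm : AEStronglyMeasurable (fun t => (om t : ℂ)) (volume.restrict (Ioi (0:ℝ))) :=
  Complex.continuous_ofReal.comp_aestronglyMeasurable om_aesm

lemma IntW.aesm {f : ℝ → ℂ} (hf : IntW f) :
    AEStronglyMeasurable f (volume.restrict (Ioi (0:ℝ))) := by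
  have h1 : AEStronglyMeasurable (fun t => (om t : ℂ)⁻¹) (volume.restrict (Ioi (0:ℝ))) :=
    (omC_aesm.aemeasurable.inv).aestronglyMeasurable
  have h2 := h1.mul hf.aestronglyMeasurable
  refine h2.congr (Filter.Eventually.of_forall fun t => ?_)
  have : (om t : ℂ) ≠ 0 := by exact_mod_cast (om_pos t).ne'
  simp only [Pi.mul_apply]
  field_simp

lemma IntW.norm_int {f : ℝ → ℂ} (hf : IntW f) :
    Integrable (fun t => ‖f t‖ * om t) (volume.restrict (Ioi (0:ℝ))) := by
  have := hf.norm
  refine this.congr (Filter.Eventually.of_forall fun t => ?_)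
  simp only [norm_mul, Complex.norm_real, Real.norm_of_nonneg (om_pos t).le]
  ring

lemma IntW.integrableOn {f : ℝ → ℂ} (hf : IntW f) : IntegrableOn f (Ioi (0:ℝ)) := by
  refine Integrable.mono hf hf.aesm (Filter.Eventually.of_forall fun t => ?_)
  rw [norm_mul, Complex.norm_real, Real.norm_of_nonneg (om_pos t).le]
  have := one_le_om t
  have := norm_nonneg (f t)
  nlinarith

lemma intW_of_norm {f : ℝ → ℂ} (hm : AEStronglyMeasurable f (volume.restrict (Ioi (0:ℝ))))
    (hf : Integrable (fun t => ‖f t‖ * om t) (volume.restrict (Ioi (0:ℝ)))) : IntW f := by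
  refine Integrable.mono hf (omC_aesm.mul hm) (Filter.Eventually.of_forall fun t => ?_)
  rw [norm_mul, Complex.norm_real, norm_mul, norm_norm, mul_comm]

lemma IntW.add {f g : ℝ → ℂ} (hf : IntW f) (hg : IntW g) : IntW (f + g) := by
  unfold IntW
  refine (Integrable.add hf hg).congr (Filter.Eventually.of_forall fun t => ?_)
  simp only [Pi.add_apply]; ring

lemma IntW.sub {f g : ℝ → ℂ} (hf : IntW f) (hg : IntW g) : IntW (f - g) := by
  unfold IntW
  refine (Integrable.sub hf hg).congr (Filter.Eventually.of_forall fun t => ?_)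
  simp only [Pi.sub_apply]; ring

lemma IntW.smul {f : ℝ → ℂ} (c : ℂ) (hf : IntW f) : IntW (c • f) := by
  unfold IntW
  refine (Integrable.const_mul hf c).congr (Filter.Eventually.of_forall fun t => ?_)
  simp only [Pi.smul_apply, smul_eq_mul]; ring

lemma IntW.congr {f g : ℝ → ℂ} (hf : IntW f) (h : g =ᵐ[volume.restrict (Ioi (0:ℝ))] f) :
    IntW g := by
  unfold IntW
  refine Integrable.congr hf ?_
  filter_upwards [h] with t ht
  rw [ht]

lemma nrm_nonneg (f : ℝ → ℂ) : 0 ≤ nrm f :=
  integral_nonneg fun t => mul_nonneg (norm_nonneg _) (om_pos t).le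

lemma nrm_add_le {f g : ℝ → ℂ} (hf : IntW f) (hg : IntW g) : nrm (f + g) ≤ nrm f + nrm g := by
  unfold nrm
  rw [← integral_add hf.norm_int hg.norm_int]
  apply integral_mono (hf.add hg).norm_int (hf.norm_int.add hg.norm_int)
  intro t
  have := norm_add_le (f t) (g t)
  have := om_pos t
  simp only [Pi.add_apply]
  rw [← add_mul]
  gcongr

lemma nrm_smul (c : ℂ) (f : ℝ → ℂ) : nrm (c • f) = ‖c‖ * nrm f := by
  unfold nrm
  rw [← integral_const_mul]
  congr 1
  ext t
  simp only [Pi.smul_apply, smul_eq_mul, norm_mul]; ring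

lemma nrm_congr {f g : ℝ → ℂ} (h : g =ᵐ[volume.restrict (Ioi (0:ℝ))] f) : nrm g = nrm f := by
  unfold nrm
  apply integral_congr_ae
  filter_upwards [h] with t ht
  rw [ht]

/-- Integrability of compactly supported continuous functions -/
lemma intW_of_bdd {f : ℝ → ℂ} {A : ℝ} (hm : AEStronglyMeasurable f (volume.restrict (Ioi (0:ℝ))))
    (hA : ∀ t, A ≤ t → f t = 0) {M : ℝ} (hM : ∀ t, ‖f t‖ ≤ M) : IntW f := by
  apply intW_of_norm hm
  have h1 : Integrable (indicator (Icc 0 A) (fun _ : ℝ => M * Real.exp A))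
      (volume.restrict (Ioi (0:ℝ))) := by
    apply Integrable.mono_measure _ Measure.restrict_le_self
    rw [integrable_indicator_iff measurableSet_Icc]
    exact integrableOn_const (by simp)
  refine h1.mono (hm.norm.mul om_aesm) ?_
  filter_upwards [ae_restrict_mem measurableSet_Ioi] with t ht
  have ht0 : 0 < t := ht
  have hM0 : 0 ≤ M := (norm_nonneg _).trans (hM 0)
  by_cases h : t ≤ A
  · rw [indicator_of_mem (show t ∈ Icc 0 A from ⟨ht0.le, h⟩)]
    rw [Real.norm_of_nonneg (mul_nonneg (norm_nonneg _) (om_pos t).le),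
      Real.norm_of_nonneg (by positivity)]
    have h2 := om_le_exp ht0.le
    have h3 : Real.exp t ≤ Real.exp A := Real.exp_le_exp.2 h
    have h4 := hM t
    have := om_pos t
    gcongr
    linarith
  · push Not at h
    rw [hA t h.le]
    simp

lemma Ker.bdd {k : ℝ → ℂ} (hk : Ker k) : ∃ M, ∀ t, ‖k t‖ ≤ M := by
  obtain ⟨C, hC0, hC⟩ := hk.lip
  obtain ⟨A, hA0, hA⟩ := hk.supp
  refine ⟨C * A, fun t => ?_⟩
  rcases le_total t 0 with h | h
  · rw [hk.neg t h, norm_zero]; positivity
  · rcases le_total A t with h2 | h2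
    · rw [hA t h2, norm_zero]; positivity
    · have := hC t 0
      rw [hk.neg 0 le_rfl, sub_zero, sub_zero, abs_of_nonneg h] at this
      refine this.trans ?_
      gcongr

lemma Ker.intW {k : ℝ → ℂ} (hk : Ker k) : IntW k := by
  obtain ⟨M, hM⟩ := hk.bdd
  obtain ⟨A, hA0, hA⟩ := hk.supp
  exact intW_of_bdd hk.continuous.aestronglyMeasurable hA hM

lemma kmu_intW {k : ℝ → ℂ} (hk : Ker k) : IntW (kmu k) := by
  have h1 : IntW (fun t => ∑' i, wk k i t) := by
    have hcont : Continuous (fun t => ∑' i, wk k i t) := by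
      have : (fun t => ∑' i, wk k i t) = fun t => kmu k t - k t := by
        ext t; unfold kmu; ring
      rw [this]
      exact (kmu_continuous hk).sub hk.continuous
    obtain ⟨C, A, hC0, hA0, hC⟩ := wk_bound hk
    refine ⟨omC_aesm.mul hcont.aestronglyMeasurable, ?_⟩
    rw [hasFiniteIntegral_iff_enorm]
    have e1 : ∀ t ∈ Ioi (0:ℝ), ‖(om t : ℂ) * ∑' i, wk k i t‖ₑ ≤
        ∑' i, ENNReal.ofReal (indicator (Icc (T i) (T i + A)) (fun _ => C * hh i) t) := by
      intro t ht
      have ht0 : (0:ℝ) < t := ht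
      rw [← tsum_mul_left]
      refine (enorm_tsum_le_tsum_enorm).trans ?_
      apply ENNReal.tsum_le_tsum
      intro i
      rw [← ofReal_norm]
      apply ENNReal.ofReal_le_ofReal
      rw [norm_mul, Complex.norm_real, Real.norm_of_nonneg (om_pos t).le, mul_comm]
      exact hC i t ht0.le
    have e2 : ∫⁻ t in Ioi (0:ℝ), ‖(om t : ℂ) * ∑' i, wk k i t‖ₑ ≤
        ∫⁻ t in Ioi (0:ℝ),
          ∑' i, ENNReal.ofReal (indicator (Icc (T i) (T i + A)) (fun _ => C * hh i) t) :=
      setLIntegral_mono' measurableSet_Ioi e1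
    refine lt_of_le_of_lt e2 ?_
    rw [lintegral_tsum]
    · have e3 : ∀ i, ∫⁻ t in Ioi (0:ℝ),
          ENNReal.ofReal (indicator (Icc (T i) (T i + A)) (fun _ => C * hh i) t) ≤
          ENNReal.ofReal (A * C * hh i) := by
        intro i
        refine (setLIntegral_le_lintegral _ _).trans ?_
        have e4 : (fun t => ENNReal.ofReal (indicator (Icc (T i) (T i + A)) (fun _ => C * hh i) t))
            = indicator (Icc (T i) (T i + A)) (fun _ => ENNReal.ofReal (C * hh i)) := by
          ext t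
          by_cases h : t ∈ Icc (T i) (T i + A)
          · rw [indicator_of_mem h, indicator_of_mem h]
          · rw [indicator_of_notMem h, indicator_of_notMem h, ENNReal.ofReal_zero]
        rw [e4, lintegral_indicator_const measurableSet_Icc, Real.volume_Icc]
        rw [← ENNReal.ofReal_mul (mul_nonneg hC0 (hh_pos i).le)]
        apply ENNReal.ofReal_le_ofReal
        apply le_of_eq; ring
      refine lt_of_le_of_lt (ENNReal.tsum_le_tsum e3) ?_
      rw [← ENNReal.ofReal_tsum_of_nonneg]
      · exact ENNReal.ofReal_lt_top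
      · intro i; have := hh_pos i; positivity
      · exact hh_summable.mul_left _
    · intro i
      apply Measurable.aemeasurable
      apply ENNReal.measurable_ofReal.comp
      exact measurable_const.indicator measurableSet_Icc
  exact hk.intW.add h1

end Pool.Agent.Nyman
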