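import Pool.Agent.Lib_helper93.Nyman.Blk

set_option autoImplicit false
open Set Filter Topology MeasureTheory

namespace Pool.Agent.Nyman

/-- main functions -/
noncomputable def Bf (U : ℂ → ℂ) (v : ℝ → ℂ) (i : ℕ) (z : ℂ) : ℂ :=
  U z - ∑ n ∈ Finset.range (N i), (-mf i z) ^ n * blk v i n z

noncomputable def Gf (v : ℝ → ℂ) (i : ℕ) (z : ℂ) : ℂ :=
  ∑ n ∈ Finset.range (N i),
    (∑ k ∈ Finset.range n, Complex.exp (-(T i * z)) ^ k * (-mf i z) ^ (n - 1 - k)) * blk v i n z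

noncomputable def Kf (v : ℝ → ℂ) (i : ℕ) (z : ℂ) : ℂ :=
  ∑ n ∈ Finset.range (N i - 1), (-mf i z) ^ n * blk v i (n + 1) z

noncomputable def Hf (v : ℝ → ℂ) (i : ℕ) (z : ℂ) : ℂ :=
  Gf v i z - Lf i z / Lf (i + 1) z * Kf v (i + 1) z

lemma N_pos (i : ℕ) : 0 < N i := by
  unfold N Pn; positivity

lemma ident1 (U : ℂ → ℂ) {v : ℝ → ℂ} (hv : VHyp v) (i : ℕ) (z : ℂ) :
    U z - blk v (i + 1) 0 z = Bf U v i z - Lam i z * Gf v i z := by
  unfold Bf Gf
  rw [← blk_sum hv, Finset.mul_sum]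
  have h : ∀ n ∈ Finset.range (N i),
      Complex.exp (-(T i * z)) ^ n * blk v i n z = (-mf i z) ^ n * blk v i n z +
      Lam i z * ((∑ k ∈ Finset.range n,
        Complex.exp (-(T i * z)) ^ k * (-mf i z) ^ (n - 1 - k)) * blk v i n z) := by
    intro n _
    have h2 := (Commute.all (Complex.exp (-(T i * z))) (-mf i z)).geom_sum₂_mul n
    have h3 : Complex.exp (-(T i * z)) - -mf i z = Lam i z := by unfold Lam; ring
    rw [h3] at h2
    have h4 : Complex.exp (-(T i * z)) ^ n = (-mf i z) ^ n +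
      (∑ k ∈ Finset.range n, Complex.exp (-(T i * z)) ^ k * (-mf i z) ^ (n - 1 - k)) * Lam i z := by
      rw [h2]; ring
    rw [h4]; ring
  rw [Finset.sum_congr rfl h, Finset.sum_add_distrib]
  ring

lemma ident2 (U : ℂ → ℂ) (v : ℝ → ℂ) (i : ℕ) (z : ℂ) :
    U z - blk v i 0 z = Bf U v i z - mf i z * Kf v i z := by
  unfold Bf Kf
  obtain ⟨M, hM⟩ : ∃ M, N i = M + 1 := ⟨N i - 1, by have := N_pos i; omega⟩
  rw [hM, Finset.sum_range_succ', Finset.mul_sum]
  simp only [Nat.add_sub_cancel, pow_zero, one_mul]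
  have h : ∀ n ∈ Finset.range M, (-mf i z) ^ (n + 1) * blk v i (n + 1) z =
      -(mf i z * ((-mf i z) ^ n * blk v i (n + 1) z)) := by
    intro n _; rw [pow_succ]; ring
  rw [Finset.sum_congr rfl h, Finset.sum_neg_distrib]
  ring

lemma ident3 (U : ℂ → ℂ) {v : ℝ → ℂ} (hv : VHyp v) (i : ℕ) (z : ℂ) (h1 : Lf i z ≠ 0)
    (_h2 : Lf (i + 1) z ≠ 0) :
    Bf U v i z = Bf U v (i + 1) z + Lam i z * Hf v i z := by
  have a := ident1 U hv i z
  have b := ident2 U v (i + 1) z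
  have c : mf (i + 1) z = Lf i z * Lam i z / Lf (i + 1) z := by
    unfold mf; rw [Lam_mul i z h1]
  unfold Hf
  have e : Bf U v i z = (U z - blk v (i + 1) 0 z) + Lam i z * Gf v i z := by rw [a]; ring
  rw [e, b, c]
  ring

lemma ident_top (U Kh : ℂ → ℂ) {v : ℝ → ℂ} (hv : VHyp v) (j : ℕ) (z : ℂ) (h1 : Lf j z ≠ 0)
    (htop : U z - blk v (j + 1) 0 z = Kh z * Df (j + 1) z) :
    Bf U v j z = 0 + Lam j z * (Gf v j z + Lf j z * Kh z) := by
  have a := ident1 U hv j z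
  rw [← Lam_mul j z h1] at htop
  have e : Bf U v j z = (U z - blk v (j + 1) 0 z) + Lam j z * Gf v j z := by rw [a]; ring
  rw [e, htop]; ring

lemma mf_differentiableAt (i : ℕ) {z : ℂ} (h : Lf i z ≠ 0) : DifferentiableAt ℂ (mf i) z := by
  unfold mf
  exact (Df_differentiable i z).div (Lf_differentiable i z) h

lemma Bf_differentiableAt {U : ℂ → ℂ} (hU : Differentiable ℂ U) {v : ℝ → ℂ} (hv : VHyp v) (i : ℕ)
    {z : ℂ} (h : Lf i z ≠ 0) : DifferentiableAt ℂ (Bf U v i) z := by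
  unfold Bf
  apply (hU z).sub
  apply DifferentiableAt.fun_sum
  intro n _
  exact ((mf_differentiableAt i h).neg.pow n).mul (blk_differentiable hv i n z)

lemma Lam_differentiableAt (i : ℕ) {z : ℂ} (h : Lf i z ≠ 0) : DifferentiableAt ℂ (Lam i) z := by
  unfold Lam
  exact DifferentiableAt.add (by fun_prop) (mf_differentiableAt i h)

lemma Gf_differentiableAt {v : ℝ → ℂ} (hv : VHyp v) (i : ℕ)
    {z : ℂ} (h : Lf i z ≠ 0) : DifferentiableAt ℂ (Gf v i) z := by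
  unfold Gf
  apply DifferentiableAt.fun_sum
  intro n _
  refine DifferentiableAt.mul ?_ (blk_differentiable hv i n z)
  apply DifferentiableAt.fun_sum
  intro k _
  refine DifferentiableAt.mul (by fun_prop) ((mf_differentiableAt i h).neg.pow _)

lemma Kf_differentiableAt {v : ℝ → ℂ} (hv : VHyp v) (i : ℕ)
    {z : ℂ} (h : Lf i z ≠ 0) : DifferentiableAt ℂ (Kf v i) z := by
  unfold Kf
  apply DifferentiableAt.fun_sum
  intro n _
  exact ((mf_differentiableAt i h).neg.pow n).mul (blk_differentiable hv i (n + 1) z)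

lemma Hf_differentiableAt {v : ℝ → ℂ} (hv : VHyp v) (i : ℕ)
    {z : ℂ} (h : Lf i z ≠ 0) (h' : Lf (i + 1) z ≠ 0) : DifferentiableAt ℂ (Hf v i) z := by
  unfold Hf
  exact (Gf_differentiableAt hv i h).sub
    (((Lf_differentiable i z).div (Lf_differentiable (i + 1) z) h').mul
      (Kf_differentiableAt hv (i + 1) h'))

/-! ### bounds -/

lemma Bf_le {U : ℂ → ℂ} {v : ℝ → ℂ} (hv : VHyp v) (i : ℕ) {z : ℂ} (hU : ‖U z‖ ≤ 3)
    (h : x0 i ≤ z.re) (h1 : R i / 2 ≤ z.im) (h2 : z.im ≤ 6 * R i)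
    (h3 : z.re ≤ Hs i - S (i + 1)) : ‖Bf U v i z‖ ≤ 4 := by
  unfold Bf
  have hm := mf_le i h h1 h2
  have hx := xw_pos i
  have hsum : ‖∑ n ∈ Finset.range (N i), (-mf i z) ^ n * blk v i n z‖ ≤ 1 := by
    refine (norm_sum_le _ _).trans (le_trans ?_ (nb_sum_le hv i (N i)))
    apply Finset.sum_le_sum
    intro n hn
    rw [norm_mul, norm_pow, norm_neg]
    have hb := blk_le hv i n (Finset.mem_range.1 hn) ((x0_ge i).trans h) h3
    have hnb := nb_nonneg v i n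
    calc ‖mf i z‖ ^ n * ‖blk v i n z‖ ≤ (xw i) ^ n * ((xw i ^ n)⁻¹ * nb v i n) := by
          gcongr
          linarith
      _ = nb v i n := by field_simp
  calc _ ≤ ‖U z‖ + ‖∑ n ∈ Finset.range (N i), (-mf i z) ^ n * blk v i n z‖ := norm_sub_le _ _
    _ ≤ 3 + 1 := by gcongr
    _ = 4 := by norm_num

lemma U_le_of {U : ℂ → ℂ} {v : ℝ → ℂ} (hv : VHyp v) (i : ℕ) {z : ℂ}
    (h : x0 i ≤ z.re) (h1 : R i / 2 ≤ z.im) (h2 : z.im ≤ 6 * R i)
    (h3 : z.re ≤ Hs i - S (i + 1)) : ‖U z‖ ≤ ‖Bf U v i z‖ + ∫ t, wv v t := by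
  have hm := mf_le i h h1 h2
  have hx := xw_pos i
  have hsum : ‖∑ n ∈ Finset.range (N i), (-mf i z) ^ n * blk v i n z‖ ≤ ∫ t, wv v t := by
    refine (norm_sum_le _ _).trans ?_
    have h4 : ∑ n ∈ Finset.range (N i), ‖(-mf i z) ^ n * blk v i n z‖ ≤
        ∑ n ∈ Finset.range (N i), nb v i n := by
      apply Finset.sum_le_sum
      intro n hn
      rw [norm_mul, norm_pow, norm_neg]
      have hb := blk_le hv i n (Finset.mem_range.1 hn) ((x0_ge i).trans h) h3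
      have hnb := nb_nonneg v i n
      calc ‖mf i z‖ ^ n * ‖blk v i n z‖ ≤ (xw i) ^ n * ((xw i ^ n)⁻¹ * nb v i n) := by
            gcongr
            linarith
        _ = nb v i n := by field_simp
    refine h4.trans ?_
    unfold nb
    rw [intervalIntegral.sum_integral_adjacent_intervals
      (a := fun k : ℕ => (k : ℝ) * T i - 1) (fun k _ => hv.int.intervalIntegrable)]
    rw [intervalIntegral.integral_of_le (by
      have := T_pos i
      have : (0 : ℝ) ≤ (N i : ℝ) := Nat.cast_nonneg _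
      push_cast
      nlinarith)]
    exact setIntegral_le_integral hv.int (Filter.Eventually.of_forall (wv_nonneg v))
  have e : U z = Bf U v i z + ∑ n ∈ Finset.range (N i), (-mf i z) ^ n * blk v i n z := by
    unfold Bf; ring
  calc ‖U z‖ = ‖Bf U v i z + ∑ n ∈ Finset.range (N i), (-mf i z) ^ n * blk v i n z‖ := by
        rw [← e]
    _ ≤ _ := norm_add_le _ _
    _ ≤ _ := by gcongr

lemma xw_big (i : ℕ) : 60 ≤ xw i := by
  unfold xw
  have h1 := SP_big (i + 1)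
  have h2 : S (i + 1) * P (i + 1) = S (i + 1) * T i := rfl
  rw [h2] at h1
  have h3 := Real.add_one_le_exp (S (i + 1) * T i)
  norm_num at h1
  linarith

lemma half_pow_bound (n : ℕ) : (n : ℝ) * (1 / 2 : ℝ) ^ (n - 1) ≤ 1 := by
  rcases n with _ | k
  · simp
  · simp only [Nat.add_sub_cancel]
    have h : ((k + 1 : ℕ) : ℝ) ≤ 2 ^ k := by
      have : k + 1 ≤ 2 ^ k := Nat.lt_two_pow_self
      exact_mod_cast this
    rw [one_div, inv_pow, ← div_eq_mul_inv, div_le_one (by positivity)]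
    exact h

lemma Gf_le {v : ℝ → ℂ} (hv : VHyp v) (i : ℕ) {z : ℂ}
    (h : x0 i ≤ z.re) (ha : al (i + 1) ≤ z.re) (h1 : R i / 2 ≤ z.im) (h2 : z.im ≤ 6 * R i)
    (h3 : z.re ≤ Hs i - S (i + 1)) : ‖Gf v i z‖ ≤ 1 := by
  unfold Gf
  have hm := mf_le i h h1 h2
  have hx := xw_pos i
  have hx60 := xw_big i
  have hE : ‖Complex.exp (-(T i * z))‖ ≤ xw i / 2 := by
    rw [norm_exp_T]
    have hT := T_pos i
    have e1 : T i * al (i + 1) = -(S (i + 1) * T i) + 6 := by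
      unfold al T
      have := P_pos (i + 1)
      field_simp
    have e2 : T i * al (i + 1) ≤ T i * z.re := by gcongr
    have e3 : Real.exp (-(T i * z.re)) ≤ Real.exp (S (i + 1) * T i - 6) :=
      Real.exp_le_exp.2 (by linarith)
    have e4 : Real.exp (S (i + 1) * T i - 6) = xw i * Real.exp (-6) := by
      unfold xw; rw [← Real.exp_add]; congr 1
    have e5 : Real.exp (-6) ≤ 1 / 2 := by
      have := exp_neg_le_inv (show (0:ℝ) < 6 by norm_num)
      linarith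
    rw [e4] at e3
    nlinarith
  refine (norm_sum_le _ _).trans (le_trans ?_ (nb_sum_le hv i (N i)))
  apply Finset.sum_le_sum
  intro n hn
  rw [norm_mul]
  have hb := blk_le hv i n (Finset.mem_range.1 hn) ((x0_ge i).trans h) h3
  have hnb := nb_nonneg v i n
  have hs : ‖∑ k ∈ Finset.range n, Complex.exp (-(T i * z)) ^ k * (-mf i z) ^ (n - 1 - k)‖ ≤
      n * (xw i / 2) ^ (n - 1) := by
    refine (norm_sum_le _ _).trans ?_
    have : ∀ k ∈ Finset.range n, ‖Complex.exp (-(T i * z)) ^ k * (-mf i z) ^ (n - 1 - k)‖ ≤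
        (xw i / 2) ^ (n - 1) := by
      intro k hk
      rw [norm_mul, norm_pow, norm_pow, norm_neg]
      have hk' := Finset.mem_range.1 hk
      calc ‖Complex.exp (-(T i * z))‖ ^ k * ‖mf i z‖ ^ (n - 1 - k)
          ≤ (xw i / 2) ^ k * (xw i / 2) ^ (n - 1 - k) := by gcongr
        _ = (xw i / 2) ^ (n - 1) := by rw [← pow_add]; congr 1; omega
    refine (Finset.sum_le_sum this).trans ?_
    rw [Finset.sum_const, Finset.card_range, nsmul_eq_mul]
  have hp := half_pow_bound n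
  have hxn : (xw i) ^ (n - 1) ≤ xw i ^ n := pow_le_pow_right₀ (by linarith) (by omega)
  have hxn0 : 0 < xw i ^ n := pow_pos hx n
  calc _ ≤ (n * (xw i / 2) ^ (n - 1)) * ((xw i ^ n)⁻¹ * nb v i n) := by gcongr
    _ = (n * (1 / 2 : ℝ) ^ (n - 1)) * (xw i ^ (n - 1) * (xw i ^ n)⁻¹) * nb v i n := by
        rw [div_eq_mul_one_div, mul_pow]; ring
    _ ≤ 1 * (xw i ^ n * (xw i ^ n)⁻¹) * nb v i n := by gcongr
    _ = nb v i n := by rw [mul_inv_cancel₀ hxn0.ne']; ring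

lemma Kf_le {v : ℝ → ℂ} (hv : VHyp v) (i : ℕ) {z : ℂ}
    (h : x0 i ≤ z.re) (h1 : R i / 2 ≤ z.im) (h2 : z.im ≤ 6 * R i)
    (h3 : z.re ≤ Hs i - S (i + 1)) : ‖Kf v i z‖ ≤ (xw i)⁻¹ := by
  unfold Kf
  have hm := mf_le i h h1 h2
  have hx := xw_pos i
  have hsum : ∑ n ∈ Finset.range (N i - 1), nb v i (n + 1) ≤ 1 := by
    have h5 := nb_sum_le hv i (N i - 1 + 1)
    rw [Finset.sum_range_succ'] at h5
    have := nb_nonneg v i 0
    linarith
  refine (norm_sum_le _ _).trans ?_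
  have : ∀ n ∈ Finset.range (N i - 1), ‖(-mf i z) ^ n * blk v i (n + 1) z‖ ≤
      (xw i)⁻¹ * nb v i (n + 1) := by
    intro n hn
    have hn' := Finset.mem_range.1 hn
    rw [norm_mul, norm_pow, norm_neg]
    have hb := blk_le hv i (n + 1) (by omega) ((x0_ge i).trans h) h3
    have hnb := nb_nonneg v i (n + 1)
    calc ‖mf i z‖ ^ n * ‖blk v i (n + 1) z‖ ≤
          (xw i) ^ n * ((xw i ^ (n + 1))⁻¹ * nb v i (n + 1)) := by
          gcongr
          linarith
      _ = (xw i)⁻¹ * nb v i (n + 1) := by rw [pow_succ]; field_simp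
  refine (Finset.sum_le_sum this).trans ?_
  rw [← Finset.mul_sum]
  have : 0 < (xw i)⁻¹ := inv_pos.2 hx
  nlinarith

lemma x0_le_al (i : ℕ) : x0 i ≤ al i := by
  unfold x0 al
  have := P_pos i
  gcongr
  norm_num

lemma x0_lt_al_succ (i : ℕ) : x0 i < al (i + 1) := by
  unfold x0 al
  have h1 := SP_big i
  have hP := P_pos i
  have hP' := P_pos (i + 1)
  have hS := S_succ i
  have hS0 := S_pos i
  have h2 : 5 / P i ≤ S i / 100 := by
    rw [div_le_iff₀ hP]
    norm_num at h1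
    linarith
  have h3 : 0 < 6 / P (i + 1) := by positivity
  rw [hS]
  linarith

lemma Hf_le {v : ℝ → ℂ} (hv : VHyp v) (i : ℕ) {z : ℂ}
    (ha : al (i + 1) ≤ z.re) (h1 : R (i + 1) ≤ z.im) (h2 : z.im ≤ 3 * R (i + 1))
    (h3 : z.re ≤ Hs i - S (i + 1)) (h4 : z.re ≤ Hs (i + 1) - S (i + 2)) : ‖Hf v i z‖ ≤ 2 := by
  unfold Hf
  have hR := R_succ i
  have hR0 := R_pos i
  have hx0 := x0_lt_al_succ i
  have hx1 := x0_le_al (i + 1)
  have w1 : R i / 2 ≤ z.im := by linarith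
  have w2 : z.im ≤ 6 * R i := by linarith
  have w3 : R (i + 1) / 2 ≤ z.im := by linarith
  have w4 : z.im ≤ 6 * R (i + 1) := by linarith
  have g1 := Gf_le hv i (by linarith) ha w1 w2 h3
  have k1 := Kf_le hv (i + 1) (by linarith) w3 w4 h4
  have l1 := Lf_le i (z := z) (by have := x0_ge_neg_one i; linarith)
  have l2 := Lf_ge (i + 1) w3 w4
  have t1 := th_pos i
  have t2 := th_pos (i + 1)
  have m1 := th_mul_xw i
  have m2 := th_mul_xw (i + 1)
  have x1' := xw_pos i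
  have x2' := xw_pos (i + 1)
  have x3' := xw_big i
  have hsec : ‖Lf i z / Lf (i + 1) z * Kf v (i + 1) z‖ ≤ 1 := by
    rw [norm_mul, norm_div]
    calc ‖Lf i z‖ / ‖Lf (i + 1) z‖ * ‖Kf v (i + 1) z‖
        ≤ (3 * th i) / (th (i + 1) / 10) * (xw (i + 1))⁻¹ := by gcongr
      _ = 30 * th i / (th (i + 1) * xw (i + 1)) := by field_simp; norm_num
      _ = 30 * th i / (th i * xw i) := by rw [m2, ← m1]
      _ = 30 / xw i := by field_simp
      _ ≤ 1 := by rw [div_le_one x1']; linarith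
  calc _ ≤ ‖Gf v i z‖ + ‖Lf i z / Lf (i + 1) z * Kf v (i + 1) z‖ := norm_sub_le _ _
    _ ≤ 1 + 1 := by gcongr
    _ = 2 := by norm_num

end Pool.Agent.Nyman
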