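import Pool.Agent.Lib_helper93.Nyman.Key
import Pool.Agent.Lib_helper93.Nyman.Kmu

set_option autoImplicit false
open Set Filter Topology MeasureTheory
open scoped Interval

namespace Pool.Agent.Nyman

/-- finite Laplace transform -/
noncomputable def Lap (f : ℝ → ℂ) (a b : ℝ) (z : ℂ) : ℂ := ∫ t in a..b, f t * Complex.exp (-(z * t))

lemma Lap_differentiable {f : ℝ → ℂ} {a b : ℝ} (hf : IntervalIntegrable f volume a b) :
    Differentiable ℂ (Lap f a b) := by
  have h := laplace_differentiable hf 0
  simp only [Complex.ofReal_zero, sub_zero] at h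
  exact h

lemma Lap_int {f : ℝ → ℂ} {a b : ℝ} (hf : IntervalIntegrable f volume a b) (z : ℂ) :
    IntervalIntegrable (fun t : ℝ => f t * Complex.exp (-(z * t))) volume a b :=
  hf.mul_continuousOn (by fun_prop)

lemma Lap_ker {k : ℝ → ℂ} (hk : Ker k) {A a b : ℝ} (_hA0 : 0 < A) (hA : ∀ t, A ≤ t → k t = 0)
    (ha : a ≤ 0) (hb : A ≤ b) (z : ℂ) : Lap k a b z = Lap k 0 A z := by
  have hc : ∀ x y, IntervalIntegrable (fun t : ℝ => k t * Complex.exp (-(z * t))) volume x y :=
    fun x y => Lap_int (hk.continuous.intervalIntegrable x y) z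
  unfold Lap
  rw [← intervalIntegral.integral_add_adjacent_intervals (hc a 0) (hc 0 b),
    ← intervalIntegral.integral_add_adjacent_intervals (hc 0 A) (hc A b)]
  have h1 : ∫ t in a..0, k t * Complex.exp (-(z * t)) = 0 := by
    apply intervalIntegral.integral_zero_ae
    refine Filter.Eventually.of_forall fun t ht => ?_
    rw [uIoc_of_le ha] at ht
    rw [hk.neg t ht.2, zero_mul]
  have h2 : ∫ t in A..b, k t * Complex.exp (-(z * t)) = 0 := by
    apply intervalIntegral.integral_zero_ae
    refine Filter.Eventually.of_forall fun t ht => ?_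
    rw [uIoc_of_le hb] at ht
    rw [hA t ht.1.le, zero_mul]
  rw [h1, h2]; ring

lemma Lap_shift {k : ℝ → ℂ} (hk : Ker k) {A B c : ℝ} (hA0 : 0 < A) (hA : ∀ t, A ≤ t → k t = 0)
    (hc : 0 ≤ c) (hB : A + c ≤ B) (z : ℂ) :
    Lap (fun t => k (t - c)) (-1) B z = Complex.exp (-(c * z)) * Lap k 0 A z := by
  have h1 := Lap_ker hk (a := -1 - c) (b := B - c) hA0 hA (by linarith) (by linarith) z
  rw [← h1]
  unfold Lap
  rw [← intervalIntegral.integral_const_mul]
  have h2 := intervalIntegral.integral_comp_sub_right (a := -1) (b := B)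
    (fun t => Complex.exp (-(c * z)) * (k t * Complex.exp (-(z * t)))) c
  rw [← h2]
  congr 1
  ext t
  rw [show Complex.exp (-(c * z)) * (k (t - c) * Complex.exp (-(z * ((t - c : ℝ) : ℂ)))) =
    k (t - c) * (Complex.exp (-(c * z)) * Complex.exp (-(z * ((t - c : ℝ) : ℂ)))) by ring,
    ← Complex.exp_add]
  congr 2
  push_cast
  ring

lemma Lap_wk {k : ℝ → ℂ} (hk : Ker k) {A B : ℝ} (hA0 : 0 < A) (hA : ∀ t, A ≤ t → k t = 0)
    (i : ℕ) (hB : A + T i + 1 ≤ B) (z : ℂ) :
    Lap (wk k i) (-1) B z = Lap k 0 A z * (Lf i z * Complex.exp (-(T i * z))) := by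
  have hT := T_pos i
  have hh0 := hh_pos i
  have hh1 := hh_le i
  have h1 := Lap_shift hk hA0 hA (c := T i) (B := B) hT.le (by linarith) z
  have h2 := Lap_shift hk hA0 hA (c := T i + hh i) (B := B) (by linarith) (by linarith) z
  have hcont := hk.continuous
  have e : Lap (wk k i) (-1) B z =
      th i * (Lap (fun t => k (t - T i)) (-1) B z - Lap (fun t => k (t - (T i + hh i))) (-1) B z) := by
    unfold Lap
    rw [← intervalIntegral.integral_sub, ← intervalIntegral.integral_const_mul]
    · congr 1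
      ext t
      unfold wk
      simp only
      rw [show t - (T i + hh i) = t - T i - hh i by ring]
      ring
    · apply Continuous.intervalIntegrable; fun_prop
    · apply Continuous.intervalIntegrable; fun_prop
  rw [e, h1, h2]
  have e2 : Complex.exp (-((T i + hh i : ℝ) * z)) =
      Complex.exp (-(T i * z)) * Complex.exp (-(hh i * z)) := by
    rw [← Complex.exp_add]; congr 1; push_cast; ring
  rw [e2]
  unfold Lf lam
  ring

/-- the test function -/
noncomputable def uu : ℝ → ℂ := indicator (Ioc (0:ℝ) 1) (fun _ => 1)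

noncomputable def UU (z : ℂ) : ℂ := Lap (fun _ => 1) 0 1 z

lemma UU_differentiable : Differentiable ℂ UU :=
  Lap_differentiable (by simp)

lemma UU_le {z : ℂ} (h : -1 ≤ z.re) : ‖UU z‖ ≤ 3 := by
  unfold UU Lap
  have := intervalIntegral.norm_integral_le_of_norm_le_const (a := (0:ℝ)) (b := 1) (C := 3)
    (f := fun t : ℝ => (1:ℂ) * Complex.exp (-(z * t))) ?_
  · simpa using this
  · intro t ht
    rw [uIoc_of_le zero_le_one] at ht
    rw [one_mul, Complex.norm_exp]
    have e : (-(z * t) : ℂ).re = -(z.re * t) := by simp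
    rw [e]
    have h1 : Real.exp (-(z.re * t)) ≤ Real.exp 1 := by
      apply Real.exp_le_exp.2
      nlinarith [ht.1, ht.2]
    have := Real.exp_one_lt_d9
    norm_num at this ⊢
    linarith

lemma UU_eval : ‖UU (3 * Real.pi * Complex.I)‖ = 2 / (3 * Real.pi) := by
  have hpi := Real.pi_pos
  have hne : (3 * Real.pi * Complex.I : ℂ) ≠ 0 := by
    simp [Real.pi_ne_zero]
  have h1 : UU (3 * Real.pi * Complex.I) = 2 / (3 * Real.pi * Complex.I) := by
    unfold UU Lap
    have h2 : ∀ t : ℝ, (1:ℂ) * Complex.exp (-(3 * Real.pi * Complex.I * t)) =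
      Complex.exp ((-(3 * Real.pi * Complex.I)) * t) := by intro t; rw [one_mul]; congr 1; ring
    rw [intervalIntegral.integral_congr (fun t _ => h2 t)]
    rw [integral_exp_mul_complex (neg_ne_zero.2 hne)]
    have h3 : Complex.exp (-(3 * Real.pi * Complex.I) * (1:ℝ)) = -1 := by
      have : (-(3 * Real.pi * Complex.I) * (1:ℝ) : ℂ) =
        -(Real.pi * Complex.I) - 2 * Real.pi * Complex.I := by push_cast; ring
      rw [this, Complex.exp_sub, Complex.exp_neg, Complex.exp_pi_mul_I, Complex.exp_two_pi_mul_I]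
      norm_num
    rw [h3]
    simp only [Complex.ofReal_zero, mul_zero, Complex.exp_zero]
    rw [div_eq_div_iff (neg_ne_zero.2 hne) hne]
    ring
  rw [h1, norm_div]
  simp [abs_of_pos hpi]

lemma uu_measurable : Measurable uu := measurable_const.indicator measurableSet_Ioc

lemma uu_intW : IntW uu := by
  apply intW_of_bdd (A := 2) (M := 1) uu_measurable.aestronglyMeasurable
  · intro t ht
    unfold uu
    rw [indicator_of_notMem]
    intro h
    linarith [h.2]
  · intro t
    unfold uu
    by_cases h : t ∈ Ioc (0:ℝ) 1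
    · rw [indicator_of_mem h]; simp
    · rw [indicator_of_notMem h]; simp

lemma uu_intervalIntegrable (a b : ℝ) : IntervalIntegrable uu volume a b := by
  have : Integrable uu := by
    unfold uu
    rw [integrable_indicator_iff measurableSet_Ioc]
    exact integrableOn_const (by simp)
  exact this.intervalIntegrable

lemma Lap_uu {B : ℝ} (hB : 1 ≤ B) (z : ℂ) : Lap uu (-1) B z = UU z := by
  unfold UU Lap
  rw [intervalIntegral.integral_of_le (by linarith), intervalIntegral.integral_of_le (by norm_num)]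
  have e : (fun t : ℝ => uu t * Complex.exp (-(z * t))) =
      indicator (Ioc (0:ℝ) 1) (fun t : ℝ => (1:ℂ) * Complex.exp (-(z * t))) := by
    ext t
    unfold uu
    by_cases h : t ∈ Ioc (0:ℝ) 1
    · rw [indicator_of_mem h, indicator_of_mem h]
    · rw [indicator_of_notMem h, indicator_of_notMem h, zero_mul]
  rw [e, setIntegral_indicator measurableSet_Ioc]
  congr 2
  ext t
  simp only [mem_inter_iff, mem_Ioc]
  constructor
  · rintro ⟨h1, h2⟩; exact h2
  · rintro ⟨h1, h2⟩; exact ⟨⟨by linarith, by linarith⟩, ⟨h1, h2⟩⟩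

lemma Lap_kmu {k : ℝ → ℂ} (hk : Ker k) {A : ℝ} (hA0 : 0 < A) (hA : ∀ t, A ≤ t → k t = 0)
    {j : ℕ} (hj : A + T j + 1 ≤ T (j + 1) - 1) (z : ℂ) :
    Lap (kmu k) (-1) (T (j + 1) - 1) z = Lap k 0 A z * Df (j + 1) z := by
  set B : ℝ := T (j + 1) - 1 with hB
  have hB1 : 1 ≤ B := by have := T_pos j; linarith
  have h3 : Lap (kmu k) (-1) B z = Lap k (-1) B z +
      ∑ i ∈ Finset.range (j + 1), Lap (wk k i) (-1) B z := by
    unfold Lap
    rw [← intervalIntegral.integral_finsetSum
      (fun i _ => Lap_int ((wk_continuous hk i).intervalIntegrable _ _) z),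
      ← intervalIntegral.integral_add (Lap_int (hk.continuous.intervalIntegrable _ _) z)]
    · apply intervalIntegral.integral_congr
      intro t ht
      rw [uIcc_of_le (by linarith)] at ht
      simp only
      rw [kmu_eq hk (n := j + 1) (by linarith [ht.2]), add_mul, Finset.sum_mul]
    · apply Continuous.intervalIntegrable
      apply continuous_finsetSum
      intro i _
      have := wk_continuous hk i
      fun_prop
  have h4 : Lap k (-1) B z = Lap k 0 A z :=
    Lap_ker hk hA0 hA (by norm_num) (by have := T_pos j; linarith) z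
  have h5 : ∀ i ∈ Finset.range (j + 1), Lap (wk k i) (-1) B z =
      Lap k 0 A z * (Lf i z * Complex.exp (-(T i * z))) := by
    intro i hi
    apply Lap_wk hk hA0 hA i
    have := T_mono (show i ≤ j by have := Finset.mem_range.1 hi; omega)
    linarith
  rw [h3, h4, Finset.sum_congr rfl h5, ← Finset.mul_sum]
  unfold Df
  ring

lemma top_ident {k : ℝ → ℂ} (hk : Ker k) {A : ℝ} (hA0 : 0 < A) (hA : ∀ t, A ≤ t → k t = 0)
    {j : ℕ} (hj : A + T j + 1 ≤ T (j + 1) - 1) (z : ℂ) :
    UU z - blk (fun t => uu t - kmu k t) (j + 1) 0 z = Lap k 0 A z * Df (j + 1) z := by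
  rw [← Lap_kmu hk hA0 hA hj z]
  set B : ℝ := T (j + 1) - 1 with hB
  have hB1 : 1 ≤ B := by have := T_pos j; linarith
  have h1 : blk (fun t => uu t - kmu k t) (j + 1) 0 z = Lap (fun t => uu t - kmu k t) (-1) B z := by
    unfold blk Lap
    simp only [Nat.cast_zero, zero_mul, zero_add, Nat.cast_one, one_mul, Complex.ofReal_zero,
      sub_zero, zero_sub]
    rfl
  have h2 : Lap (fun t => uu t - kmu k t) (-1) B z = Lap uu (-1) B z - Lap (kmu k) (-1) B z := by
    unfold Lap
    rw [← intervalIntegral.integral_sub (Lap_int (uu_intervalIntegrable _ _) z)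
      (Lap_int ((kmu_continuous hk).intervalIntegrable _ _) z)]
    congr 1
    ext t
    ring
  rw [h1, h2, Lap_uu hB1]
  ring

lemma Lap_ker_le {k : ℝ → ℂ} {A M : ℝ} (hA0 : 0 < A) (hM : ∀ t, ‖k t‖ ≤ M)
    {z : ℂ} (h : -1 ≤ z.re) : ‖Lap k 0 A z‖ ≤ M * Real.exp A * A := by
  unfold Lap
  have := intervalIntegral.norm_integral_le_of_norm_le_const (a := (0:ℝ)) (b := A)
    (C := M * Real.exp A)
    (f := fun t : ℝ => k t * Complex.exp (-(z * t))) ?_
  · rwa [sub_zero, abs_of_pos hA0] at this
  · intro t ht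
    rw [uIoc_of_le hA0.le] at ht
    rw [norm_mul, Complex.norm_exp]
    have e : (-(z * t) : ℂ).re = -(z.re * t) := by simp
    rw [e]
    have h1 : Real.exp (-(z.re * t)) ≤ Real.exp A := by
      apply Real.exp_le_exp.2
      nlinarith [ht.1, ht.2]
    have h2 := hM t
    have := norm_nonneg (k t)
    have hM0 : 0 ≤ M := this.trans h2
    gcongr

lemma th_tendsto : Tendsto (fun j => 3 * th j) atTop (𝓝 0) := by
  apply squeeze_zero (g := fun j => (1 / 2 : ℝ) ^ (j + 3))
  · intro j; have := th_pos j; positivity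
  · intro j; exact th_small j
  · exact (tendsto_add_atTop_iff_nat (f := fun n => (1/2:ℝ)^n) 3).2
      (tendsto_pow_atTop_nhds_zero_of_lt_one (by norm_num) (by norm_num))

lemma gap_tendsto : Tendsto (fun j => T (j + 1) - T j) atTop atTop := by
  apply tendsto_atTop_mono (f := fun j => T j) _ T_tendsto
  intro j
  have h1 := T_eq (j + 1)
  have h2 : P (j + 1) = T j := rfl
  rw [h2] at h1
  have h3 := T_ge_two j
  have h4 : T (j + 1) = T j * (T j) ^ 3 := by rw [h1]; ring
  have h5 : (2:ℝ) ≤ T j ^ 3 := by nlinarith [sq_nonneg (T j), mul_pos (T_pos j) (T_pos j)]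
  have : T j * 2 ≤ T j * T j ^ 3 := by
    have := T_pos j
    gcongr
  linarith

/-- **Main lower bound.** -/
theorem lower {k : ℝ → ℂ} (hk : Ker k) : 1 / 10 ≤ nrm (uu - kmu k) := by
  by_contra hcon
  push Not at hcon
  obtain ⟨A, hA0, hA⟩ := hk.supp
  obtain ⟨M, hM⟩ := hk.bdd
  have hM0 : 0 ≤ M := (norm_nonneg _).trans (hM 0)
  set v : ℝ → ℂ := fun t => uu t - kmu k t with hv
  have hvW : IntW v := uu_intW.sub (kmu_intW hk)
  have hwvi : Integrable (wv v) := by
    unfold wv
    rw [integrable_indicator_iff measurableSet_Ici]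
    rw [integrableOn_Ici_iff_integrableOn_Ioi]
    exact hvW.norm_int
  have hwve : ∫ t, wv v t = nrm (uu - kmu k) := by
    unfold wv nrm
    rw [integral_indicator measurableSet_Ici, integral_Ici_eq_integral_Ioi]
    rfl
  have hV : VHyp v := by
    refine ⟨?_, ?_, hwvi, by rw [hwve]; linarith⟩
    · intro t ht
      simp only [hv]
      rw [kmu_neg hk ht.le]
      unfold uu
      rw [indicator_of_notMem (fun h => by linarith [h.1])]
      simp
    · intro a b
      exact (uu_intervalIntegrable a b).sub ((kmu_continuous hk).intervalIntegrable a b)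
  have h1 : ∀ᶠ j in atTop, M * Real.exp A * A * (3 * th j) < 1 := by
    have := th_tendsto.const_mul (M * Real.exp A * A)
    rw [mul_zero] at this
    exact this.eventually_lt_const one_pos
  have h2 : ∀ᶠ j in atTop, A + 2 < T (j + 1) - T j := gap_tendsto.eventually_gt_atTop _
  obtain ⟨j, hj1, hj2⟩ := (h1.and h2).exists
  have hkey := key j (U := UU) (Kh := Lap k 0 A) UU_differentiable
    (Lap_differentiable (hk.continuous.intervalIntegrable _ _)) (fun z hz => UU_le hz) hV
    (fun z hz => by
      have := Lap_ker_le (k := k) hA0 hM hz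
      have h3 := th_pos j
      calc ‖Lap k 0 A z‖ * (3 * th j) ≤ M * Real.exp A * A * (3 * th j) := by gcongr
        _ ≤ 1 := hj1.le)
    (fun z => top_ident hk hA0 hA (by linarith) z)
  rw [UU_eval, hwve] at hkey
  have hpi := Real.pi_lt_d2
  have hpi0 := Real.pi_pos
  have : (2:ℝ) / (3 * Real.pi) ≥ 0.2 := by
    rw [ge_iff_le, le_div_iff₀ (by positivity)]
    norm_num at hpi ⊢
    linarith
  norm_num at this hkey hcon
  linarith

end Pool.Agent.Nyman
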