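import Mathlib

set_option autoImplicit false

namespace Pool.Agent.Nyman

/-- time scales (shifted): `Pn i = 2^(40*4^i)` -/
def Pn (i : ℕ) : ℕ := 2 ^ (40 * 4 ^ i)

/-- real version -/
noncomputable def P (i : ℕ) : ℝ := (Pn i : ℝ)

/-- the period of level `i` -/
noncomputable def T (i : ℕ) : ℝ := P (i + 1)

/-- number of `T i`-blocks in a `T (i+1)`-block -/
def N (i : ℕ) : ℕ := (Pn (i + 1)) ^ 3

noncomputable def S (i : ℕ) : ℝ := (1 / 16 : ℝ) ^ i

noncomputable def sg (i : ℕ) : ℝ := S i - S (i + 1)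

noncomputable def X : ℝ := Real.exp 11

noncomputable def xw (i : ℕ) : ℝ := Real.exp (S (i + 1) * T i)

noncomputable def th (i : ℕ) : ℝ := Real.exp (11 - S (i + 1) * T i)

noncomputable def R (i : ℕ) : ℝ := 8 * 2 ^ i

noncomputable def hh (i : ℕ) : ℝ := 1 / (3 * R i)

noncomputable def Hs (i : ℕ) : ℝ := sg i * (T i - 1)

lemma Pn_succ (i : ℕ) : Pn (i + 1) = Pn i ^ 4 := by
  unfold Pn
  rw [← pow_mul]
  congr 1
  ring

lemma P_succ (i : ℕ) : P (i + 1) = P i ^ 4 := by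
  unfold P; rw [Pn_succ]; push_cast; rfl

lemma N_mul (i : ℕ) : (N i : ℝ) * T i = T (i + 1) := by
  unfold N T
  rw [P_succ (i + 1)]
  unfold P
  push_cast
  ring

lemma four_pow_ge (i : ℕ) : i + 1 ≤ 4 ^ i := by
  induction i with
  | zero => simp
  | succ n ih => rw [pow_succ]; omega

lemma Pn_ge (i : ℕ) : 2 ^ (40 * (i + 1)) ≤ Pn i := by
  unfold Pn
  apply Nat.pow_le_pow_right (by norm_num)
  have := four_pow_ge i
  omega

lemma P_ge (i : ℕ) : (2 : ℝ) ^ (40 * (i + 1)) ≤ P i := by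
  unfold P
  exact_mod_cast Pn_ge i

lemma P_pos (i : ℕ) : 0 < P i := lt_of_lt_of_le (by positivity) (P_ge i)

lemma P_ge' (i : ℕ) : (2 : ℝ) ^ 40 * 2 ^ (40 * i) ≤ P i := by
  have := P_ge i
  rw [← pow_add]
  convert this using 2
  ring

lemma T_pos (i : ℕ) : 0 < T i := P_pos _

lemma T_eq (i : ℕ) : T i = P i ^ 4 := P_succ i

lemma S_pos (i : ℕ) : 0 < S i := by unfold S; positivity

lemma S_succ (i : ℕ) : S (i + 1) = S i / 16 := by unfold S; rw [pow_succ]; ring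

lemma S_le_one (i : ℕ) : S i ≤ 1 := by
  unfold S; exact pow_le_one₀ (by norm_num) (by norm_num)

lemma S_anti {i j : ℕ} (h : i ≤ j) : S j ≤ S i := by
  unfold S; exact pow_le_pow_of_le_one (by norm_num) (by norm_num) h

lemma S_zero : S 0 = 1 := by simp [S]

lemma sg_eq (i : ℕ) : sg i = 15 / 16 * S i := by unfold sg; rw [S_succ]; ring

lemma sg_pos (i : ℕ) : 0 < sg i := by rw [sg_eq]; have := S_pos i; positivity

/-- basic size lemma: `S i * P i ≥ 2^40 * 2^(36 i)`. -/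
lemma SP_ge (i : ℕ) : (2 : ℝ) ^ 40 * 2 ^ (36 * i) ≤ S i * P i := by
  have h := P_ge' i
  have h2 : S i * ((2 : ℝ) ^ 40 * 2 ^ (40 * i)) = 2 ^ 40 * 2 ^ (36 * i) := by
    unfold S
    have e : (2 : ℝ) ^ (40 * i) = 2 ^ (36 * i) * 16 ^ i := by
      rw [show (16 : ℝ) = 2 ^ 4 by norm_num, ← pow_mul, ← pow_add]
      congr 1
      ring
    rw [e, one_div, inv_pow]
    field_simp
  rw [← h2]
  have := S_pos i
  gcongr

lemma two_pow_ge_one (n : ℕ) : (1 : ℝ) ≤ 2 ^ n := one_le_pow₀ (by norm_num)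

lemma P_big (i : ℕ) : (2 : ℝ) ^ 40 ≤ P i := by
  have h := P_ge' i
  have := two_pow_ge_one (40 * i)
  nlinarith

lemma SP_big (i : ℕ) : (2 : ℝ) ^ 40 ≤ S i * P i := by
  have h := SP_ge i
  have := two_pow_ge_one (36 * i)
  nlinarith

lemma R_pos (i : ℕ) : 0 < R i := by unfold R; positivity

lemma R_succ (i : ℕ) : R (i + 1) = 2 * R i := by unfold R; rw [pow_succ]; ring

lemma R_ge (i : ℕ) : 8 ≤ R i := by
  unfold R; have := two_pow_ge_one i; linarith

lemma hh_pos (i : ℕ) : 0 < hh i := by unfold hh; have := R_pos i; positivity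

lemma R_le_P (i : ℕ) : (2 : ℝ) ^ 30 * R i ≤ P i := by
  have h := P_ge' i
  have h1 : R i ≤ 2 ^ 10 * 2 ^ (40 * i) := by
    unfold R
    have : (2 : ℝ) ^ i ≤ 2 ^ (40 * i) := pow_le_pow_right₀ (by norm_num) (by omega)
    nlinarith [two_pow_ge_one (40 * i)]
  nlinarith

lemma X_gt : (59000 : ℝ) < X := by
  unfold X
  have h := Real.exp_one_gt_d9
  have : Real.exp 11 = Real.exp 1 ^ 11 := by
    rw [← Real.exp_nat_mul]; norm_num
  rw [this]
  calc (59000 : ℝ) < 2.7182818283 ^ 11 := by norm_num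
    _ ≤ _ := by gcongr

lemma X_lt : X < 60000 := by
  unfold X
  have h := Real.exp_one_lt_d9
  have : Real.exp 11 = Real.exp 1 ^ 11 := by
    rw [← Real.exp_nat_mul]; norm_num
  rw [this]
  calc Real.exp 1 ^ 11 ≤ 2.7182818286 ^ 11 := by gcongr
    _ < _ := by norm_num

lemma th_pos (i : ℕ) : 0 < th i := Real.exp_pos _

lemma xw_pos (i : ℕ) : 0 < xw i := Real.exp_pos _

lemma th_mul_xw (i : ℕ) : th i * xw i = X := by
  unfold th xw X
  rw [← Real.exp_add]; congr 1; ring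

lemma exp_neg_le_inv {y : ℝ} (hy : 0 < y) : Real.exp (-y) ≤ 1 / y := by
  rw [Real.exp_neg, one_div]
  apply inv_anti₀ hy
  have := Real.add_one_le_exp y
  linarith

/-- `3 X exp(-S_{l+1} T_l / 2) ≤ 2^{-(l+3)}` -/
lemma term_small (l : ℕ) :
    3 * X * Real.exp (-(S (l + 1) * T l / 2)) ≤ (1 / 2 : ℝ) ^ (l + 3) := by
  have h := SP_ge (l + 1)
  have h0 : 0 < S (l + 1) * P (l + 1) := mul_pos (S_pos _) (P_pos _)
  have h1 : Real.exp (-(S (l + 1) * T l / 2)) ≤ 1 / (S (l + 1) * T l / 2) := by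
    apply exp_neg_le_inv
    unfold T
    positivity
  have h2 : (1 : ℝ) / (S (l + 1) * T l / 2) ≤ 1 / (2 ^ 39 * 2 ^ (36 * (l + 1))) := by
    apply one_div_le_one_div_of_le (by positivity)
    unfold T
    nlinarith
  have h3 : (1 : ℝ) / (2 ^ 39 * 2 ^ (36 * (l + 1))) ≤ 1 / (2 ^ 39 * 2 ^ l) := by
    apply one_div_le_one_div_of_le (by positivity)
    gcongr
    · norm_num
    · omega
  have hX := X_lt
  have hX0 := X_gt
  calc 3 * X * Real.exp (-(S (l + 1) * T l / 2)) ≤ 3 * 60000 * (1 / (2 ^ 39 * 2 ^ l)) := by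
        gcongr
        exact (h1.trans h2).trans h3
    _ ≤ (1 / 2 : ℝ) ^ (l + 3) := by
        rw [one_div_pow, pow_add]
        rw [mul_one_div, div_le_div_iff₀ (by positivity) (by positivity)]
        have : (0 : ℝ) < 2 ^ l := by positivity
        nlinarith

lemma sum_half_le (n : ℕ) : ∑ l ∈ Finset.range n, (1 / 2 : ℝ) ^ (l + 3) ≤ 1 / 4 := by
  have : ∑ l ∈ Finset.range n, (1 / 2 : ℝ) ^ (l + 3) = 1 / 4 - (1 / 2 : ℝ) ^ (n + 2) := by
    induction n with
    | zero => norm_num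
    | succ k ih => rw [Finset.sum_range_succ, ih]; ring
  rw [this]
  have : (0 : ℝ) < (1 / 2 : ℝ) ^ (n + 2) := by positivity
  linarith

lemma th_small (l : ℕ) : 3 * th l ≤ (1 / 2 : ℝ) ^ (l + 3) := by
  refine le_trans ?_ (term_small l)
  unfold th X
  rw [mul_assoc, ← Real.exp_add]
  have h0 : 0 < S (l + 1) * T l := mul_pos (S_pos _) (T_pos _)
  gcongr
  linarith

end Pool.Agent.Nyman
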