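import Pool.Agent.Lib_helper93.Nyman.Level
import Pool.Agent.Lib_helper93.Nyman.Cx

set_option autoImplicit false
open Set Filter Topology MeasureTheory

namespace Pool.Agent.Nyman

/-- The claim at level `i`. -/
def Claim (U : ℂ → ℂ) (v : ℝ → ℂ) (i : ℕ) : Prop :=
  ∀ z : ℂ, al i ≤ z.re → z.re ≤ x1 i + R i / 2 → R i ≤ z.im → z.im ≤ 3 * R i →
    ‖Bf U v i z‖ ≤ Real.exp (-(2 * P i))

lemma five_div_P (i : ℕ) : 5 / P i ≤ S i / 100 := by
  have h1 := SP_big i
  have hP := P_pos i
  rw [div_le_iff₀ hP]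
  norm_num at h1
  linarith

lemma seven_div_P (i : ℕ) : 7 / P i ≤ S i / 100 := by
  have h1 := SP_big i
  have hP := P_pos i
  rw [div_le_iff₀ hP]
  norm_num at h1
  linarith

lemma bl_neg (i : ℕ) : bl i < 0 := by
  unfold bl
  have := seven_div_P i
  have := S_pos i
  linarith

lemma x0_neg (i : ℕ) : x0 i < 0 := by
  unfold x0
  have := five_div_P i
  have := S_pos i
  linarith

lemma ST_eq (i : ℕ) : S i * T i = S i * P i * P i ^ 3 := by rw [T_eq]; ring

lemma Hs_ge (i : ℕ) : x0 i + R (i + 1) ≤ Hs i - S (i + 1) := by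
  have h1 := SP_big i
  have h2 := R_le_P i
  have h3 := P_big i
  have h4 := x0_neg i
  have h5 := S_pos i
  have h6 := S_le_one i
  have h7 := S_succ i
  have h8 := R_succ i
  have h9 := ST_eq i
  have hP := P_pos i
  unfold Hs
  rw [sg_eq]
  have h10 : 15 / 16 * S i * (T i - 1) = 15 / 16 * (S i * T i) - 15 / 16 * S i := by ring
  rw [h10, h9]
  norm_num at h1 h2 h3
  have h11 : P i ≤ P i ^ 3 := by
    nlinarith [mul_pos hP hP, pow_pos hP 3]
  have h12 : 1 * P i ^ 3 ≤ S i * P i * P i ^ 3 := by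
    have : (0 : ℝ) < P i ^ 3 := by positivity
    apply mul_le_mul_of_nonneg_right _ this.le
    linarith
  linarith

lemma Hs_ge' (i : ℕ) : x0 i + R (i + 1) ≤ Hs (i + 1) - S (i + 2) := by
  have h := Hs_ge (i + 1)
  have h1 := R_succ (i + 1)
  have h2 := R_ge (i + 1)
  have h3 := x0_neg i
  have h4 := x0_ge_neg_one (i + 1)
  have e : i + 1 + 1 = i + 2 := rfl
  rw [e] at h h1
  linarith

lemma stepA_top (i : ℕ) {U : ℂ → ℂ} (hU : Differentiable ℂ U)
    (hU3 : ∀ z : ℂ, -1 ≤ z.re → ‖U z‖ ≤ 3) {v : ℝ → ℂ} (hv : VHyp v)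
    {Bn Hn : ℂ → ℂ}
    (hid : ∀ z : ℂ, R (i + 1) ≤ z.im → z.im ≤ 3 * R (i + 1) →
      Bf U v i z = Bn z + Lam i z * Hn z)
    (hHd : ∀ z : ℂ, R (i + 1) ≤ z.im → z.im ≤ 3 * R (i + 1) → DifferentiableAt ℂ Hn z)
    (hHb : ∀ z : ℂ, al (i + 1) ≤ z.re → z.re ≤ x0 i + R (i + 1) → R (i + 1) ≤ z.im →
      z.im ≤ 3 * R (i + 1) → ‖Hn z‖ ≤ 2)
    (hBn : ∀ z : ℂ, al (i + 1) ≤ z.re → z.re ≤ x1 (i + 1) + R (i + 1) / 2 → R (i + 1) ≤ z.im →
      z.im ≤ 3 * R (i + 1) → ‖Bn z‖ ≤ Real.exp (-(2 * P (i + 1))))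
    {z : ℂ} (hz : z.im = 4 * R i) (hz1 : x1 i ≤ z.re) (hz2 : z.re ≤ x1 i + R i) :
    ‖Bf U v i z‖ ≤ Real.exp (-(P i ^ 3 / 4)) := by
  set r := R (i + 1) with hr
  have hR := R_pos i
  have hr2 : r = 2 * R i := R_succ i
  have hR8 := R_ge i
  have hr0 : 0 < r := by linarith
  have hT := T_pos i
  have hP := P_pos i
  have hP1 := P_pos (i + 1)
  have hTP : T i = P (i + 1) := rfl
  set κ : ℝ := -x0 i * T i with hκdef
  have hx0n := x0_neg i
  have hx0g := x0_ge_neg_one i
  have hκ : 0 ≤ κ := mul_nonneg (by linarith) hT.le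
  have hκT : κ ≤ T i := by rw [hκdef]; nlinarith
  have hbln := bl_neg (i + 1)
  have hwin : ∀ z : ℂ, r ≤ z.im → z.im ≤ 3 * r → R i / 2 ≤ z.im ∧ z.im ≤ 6 * R i := by
    intro z h1 h2; constructor <;> linarith
  have hLfn : ∀ z : ℂ, r ≤ z.im → z.im ≤ 3 * r → Lf i z ≠ 0 := by
    intro z h1 h2
    exact Lf_ne i (hwin z h1 h2).1 (hwin z h1 h2).2
  have hLamge : ∀ z : ℂ, x0 i ≤ z.re → z.re ≤ bl (i + 1) → r ≤ z.im → z.im ≤ 3 * r →
      Real.exp (-(T i * z.re)) / 2 ≤ ‖Lam i z‖ := by
    intro z h1 h2 h3 h4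
    exact Lam_ge i h1 h2 (hwin z h3 h4).1 (hwin z h3 h4).2
  have hLamne : ∀ z : ℂ, x0 i ≤ z.re → z.re ≤ bl (i + 1) → r ≤ z.im → z.im ≤ 3 * r →
      Lam i z ≠ 0 := by
    intro z h1 h2 h3 h4 h5
    have := hLamge z h1 h2 h3 h4
    rw [h5, norm_zero] at this
    have := Real.exp_pos (-(T i * z.re))
    linarith
  have hHsg := Hs_ge i
  have hB4 : ∀ z : ℂ, x0 i ≤ z.re → z.re ≤ x0 i + r → r ≤ z.im → z.im ≤ 3 * r →
      ‖Bf U v i z‖ ≤ 4 := by
    intro z h1 h2 h3 h4
    exact Bf_le hv i (hU3 z (by linarith)) h1 (hwin z h3 h4).1 (hwin z h3 h4).2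
      (by linarith)
  -- positions of the lines
  have hx0a := x0_lt_al_succ i
  have hab : al (i + 1) < bl (i + 1) := by unfold al bl; gcongr; norm_num
  have hbr : bl (i + 1) < x0 i + r := by linarith
  have hba : bl (i + 1) - al (i + 1) = 1 / T i := by
    unfold al bl; rw [hTP]; ring
  -- left bound
  have hFL : ∀ z : ℂ, x0 i ≤ z.re → z.re ≤ bl (i + 1) → r ≤ z.im → z.im ≤ 3 * r →
      ‖Bf U v i z / Lam i z‖ ≤ 8 * Real.exp (T i * z.re) := by
    intro z h1 h2 h3 h4
    rw [norm_div]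
    have e1 := hB4 z h1 (by linarith) h3 h4
    have e2 := hLamge z h1 h2 h3 h4
    have e3 : 0 < Real.exp (-(T i * z.re)) := Real.exp_pos _
    have e4 : 0 < ‖Lam i z‖ := by linarith
    rw [div_le_iff₀ e4]
    calc ‖Bf U v i z‖ ≤ 4 := e1
      _ = 8 * Real.exp (T i * z.re) * (Real.exp (-(T i * z.re)) / 2) := by
          rw [show 8 * Real.exp (T i * z.re) * (Real.exp (-(T i * z.re)) / 2) =
            4 * (Real.exp (T i * z.re) * Real.exp (-(T i * z.re))) by ring, ← Real.exp_add]
          simp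
      _ ≤ _ := by gcongr
  have key := lemA (FL := fun z => Bf U v i z / Lam i z) (FR := Hn) (x0 := x0 i) (r := r)
    (a := al (i + 1)) (b := bl (i + 1)) (y0 := 2 * r) (κ := κ)
    (β := 2 * Real.exp (-(2 * P (i + 1)))) (C := 8) hr0 hx0a hab hbr hκ (by positivity)
    (by norm_num) ?_ ?_ ?_ ?_ ?_ ?_ ?_
  rotate_left
  · intro z h1 h2 h3 h4
    have h3' : r ≤ z.im := by linarith
    have h4' : z.im ≤ 3 * r := by linarith
    exact (Bf_differentiableAt hU hv i (hLfn z h3' h4')).div
      (Lam_differentiableAt i (hLfn z h3' h4')) (hLamne z h1 h2 h3' h4')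
  · intro z h1 h2 h3 h4
    exact hHd z (by linarith) (by linarith)
  · intro z h1 h2 h3
    refine (hFL z h1.ge (by rw [h1]; linarith) (by linarith) (by linarith)).trans ?_
    rw [h1, hκdef]
    apply le_of_eq
    congr 2
    ring
  · intro z h1 h2 h3 h4
    refine (hFL z h1 h2 (by linarith) (by linarith)).trans ?_
    have : Real.exp (T i * z.re) ≤ 1 := by
      rw [Real.exp_le_one_iff]
      exact mul_nonpos_of_nonneg_of_nonpos hT.le (by linarith)
    linarith
  · intro z h1 h2 h3 h4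
    have := hHb z h1 h2 (by linarith) (by linarith)
    linarith
  · intro z h1 h2 h3 h4
    have h3' : r ≤ z.im := by linarith
    have h4' : z.im ≤ 3 * r := by linarith
    have hne := hLamne z (by linarith) h2 h3' h4'
    have hge := hLamge z (by linarith) h2 h3' h4'
    have e1 : Bf U v i z / Lam i z - Hn z = Bn z / Lam i z := by
      rw [hid z h3' h4']; field_simp; ring
    rw [e1, norm_div]
    have hx1R : bl (i + 1) ≤ x1 (i + 1) + R (i + 1) / 2 := by
      have : bl (i + 1) - x1 (i + 1) = 1.5 / P (i + 1) := by unfold bl x1; ring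
      have h5 : 1.5 / P (i + 1) ≤ 1 := by
        rw [div_le_one hP1]; have := P_big (i + 1); norm_num at this ⊢; linarith
      linarith
    have e2 := hBn z h1 (by linarith) h3' h4'
    have e3 : 1 ≤ Real.exp (-(T i * z.re)) := by
      rw [← Real.exp_zero]; apply Real.exp_le_exp.2; nlinarith
    have e4 : 1 / 2 ≤ ‖Lam i z‖ := by linarith
    rw [div_le_iff₀ (by linarith)]
    have e5 : 0 < Real.exp (-(2 * P (i + 1))) := Real.exp_pos _
    nlinarith
  · -- smallness
    rw [hba, ← hTP]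
    have hrT : r ≤ T i := by
      have := R_le_P (i + 1)
      rw [← hTP] at this
      norm_num at this
      linarith
    set y : ℝ := 1 / T i / r with hy
    have hT8 : 1 ≤ T i := by have := T_ge_two i; linarith
    have hy0 : 0 < y := by positivity
    have hy1 : y ≤ 1 := by
      rw [hy, div_div, div_le_one (by positivity)]; nlinarith
    have e1 : Real.exp (-y) ≤ 1 / (1 + y) := by
      rw [Real.exp_neg, one_div]
      apply inv_anti₀ (by linarith)
      have := Real.add_one_le_exp y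
      linarith
    have e2 : y / 2 ≤ 1 - 1 / (1 + y) := by
      rw [show 1 - 1 / (1 + y) = y / (1 + y) by field_simp; ring]
      apply div_le_div_of_nonneg_left hy0.le (by linarith) (by linarith)
    have e3 : y / 2 ≤ 1 - Real.exp (-y) := by linarith
    have e4 : (1 : ℝ) ≤ Real.exp 1 := Real.one_le_exp (by norm_num)
    have e5 : 2 * Real.exp (-(2 * T i)) * Real.exp κ ≤ 2 * Real.exp (-(T i)) := by
      rw [mul_assoc, ← Real.exp_add]
      gcongr
      linarith
    have e6 : 2 * Real.exp (-(T i)) ≤ y / 2 * 8 := by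
      have q := Real.quadratic_le_exp_of_nonneg hT.le
      rw [Real.exp_neg, hy]
      have : 0 < Real.exp (T i) := Real.exp_pos _
      rw [← div_eq_mul_inv, div_le_iff₀ this]
      have h7 : (1 : ℝ) / T i / r / 2 * 8 * Real.exp (T i) = 4 * Real.exp (T i) / (T i * r) := by
        field_simp; norm_num
      rw [h7, le_div_iff₀ (by positivity)]
      nlinarith
    calc 2 * Real.exp (-(2 * T i)) * Real.exp κ ≤ y / 2 * 8 := e5.trans e6
      _ ≤ (1 - Real.exp (-y)) * (8 * 1) := by nlinarith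
      _ ≤ (1 - Real.exp (-y)) * (8 * Real.exp 1) := by
          apply mul_le_mul_of_nonneg_left _ (by linarith)
          linarith
  -- now the top edge
  obtain ⟨keyL, keyR⟩ := key
  have hzi1 : r ≤ z.im := by linarith
  have hzi2 : z.im ≤ 3 * r := by linarith
  have hzim0 : z.im - 2 * r = 0 := by linarith
  set d : ℝ := z.re - x0 i with hd
  have hd1 : 1 / 2 / P i ≤ d := by
    have : x1 i - x0 i = 1 / 2 / P i := by unfold x1 x0; ring
    linarith
  have hd2 : d ≤ 1 / 2 / P i + R i := by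
    have : x1 i - x0 i = 1 / 2 / P i := by unfold x1 x0; ring
    linarith
  have hd0 : 0 < d := lt_of_lt_of_le (by positivity) hd1
  have hPs : 1 / 2 / P i ≤ 1 / 100 := by
    rw [div_le_iff₀ hP]; have := P_big i; norm_num at this ⊢; linarith
  have hdr : d / r ≤ 0.51 := by
    rw [div_le_iff₀ hr0]; linarith
  have hdr0 : 0 < d / r := by positivity
  set E : ℝ := Real.exp (-(κ * ((1 - d / r) ^ 2))) with hE
  have hmul : ∀ F : ℂ, ‖F‖ ≤ 8 * Real.exp 2 *
      Real.exp (-(κ * ((1 - (z.re - x0 i) / r) ^ 2 - ((z.im - 2 * r) / r) ^ 2))) →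
      ‖Lam i z * F‖ ≤ 89 * Real.exp (-(7 / 16 * P i ^ 3)) := by
    intro F hF
    rw [hzim0, ← hd] at hF
    have hF' : ‖F‖ ≤ 8 * Real.exp 2 * E := by
      refine hF.trans (le_of_eq ?_)
      rw [hE]; simp
    have hm := mf_le i (z := z) (by linarith) (hwin z hzi1 hzi2).1 (hwin z hzi1 hzi2).2
    have hL : ‖Lam i z‖ ≤ Real.exp (-(T i * z.re)) + xw i / 2 := by
      unfold Lam
      refine (norm_add_le _ _).trans ?_
      rw [norm_exp_T]
      gcongr
    have hterm1 : Real.exp (-(T i * z.re)) * E ≤ Real.exp (-(7 / 16 * P i ^ 3)) := by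
      rw [hE, ← Real.exp_add]
      apply Real.exp_le_exp.2
      have hTd : T i * d ≥ P i ^ 3 / 2 := by
        have : T i * (1 / 2 / P i) = P i ^ 3 / 2 := by rw [T_eq]; field_simp
        rw [← this]
        gcongr
      have e1 : T i * z.re = -κ + T i * d := by rw [hκdef, hd]; ring
      have e2 : κ * (d / r) ≤ T i * d / 16 := by
        have : κ * (d / r) ≤ T i * (d / r) := by gcongr
        have h2 : T i * (d / r) = T i * d / r := by ring
        have h3 : T i * d / r ≤ T i * d / 16 := by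
          apply div_le_div_of_nonneg_left (by positivity) (by norm_num) (by linarith)
        linarith
      have e3 : 0 ≤ κ * (d / r) ^ 2 := by positivity
      have e4 : κ * (1 - d / r) ^ 2 = κ - 2 * (κ * (d / r)) + κ * (d / r) ^ 2 := by ring
      rw [e1, e4]
      linarith
    have hterm2 : xw i / 2 * E ≤ 1 / 2 * Real.exp (-(7 / 16 * P i ^ 3)) := by
      have : xw i / 2 * E = 1 / 2 * (xw i * E) := by ring
      rw [this]
      apply mul_le_mul_of_nonneg_left _ (by norm_num)
      rw [hE]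
      unfold xw
      rw [← Real.exp_add]
      apply Real.exp_le_exp.2
      have h5 := five_div_P i
      have hS := S_pos i
      have hS1 := S_succ i
      have e1 : 0.9 * (S i * T i) ≤ κ := by
        rw [hκdef]; unfold x0
        nlinarith
      have e2 : (0.24 : ℝ) ≤ (1 - d / r) ^ 2 := by nlinarith
      have e3 : 0.9 * (S i * T i) * 0.24 ≤ κ * (1 - d / r) ^ 2 := by
        have : 0 ≤ 0.9 * (S i * T i) := by positivity
        gcongr
      have e4 := SP_big i
      have e5 := ST_eq i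
      have e6 : 1000 * P i ^ 3 ≤ S i * T i := by
        rw [e5]
        have : (0 : ℝ) < P i ^ 3 := by positivity
        apply mul_le_mul_of_nonneg_right _ this.le
        norm_num at e4; linarith
      have e7 : (0 : ℝ) < P i ^ 3 := by positivity
      rw [hS1]
      nlinarith
    have hexp2 : Real.exp 2 ≤ 7.4 := by
      have h := Real.exp_one_lt_d9
      have : Real.exp 2 = Real.exp 1 ^ 2 := by
        rw [← Real.exp_nat_mul]; norm_num
      rw [this]
      calc Real.exp 1 ^ 2 ≤ 2.7182818286 ^ 2 := by gcongr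
        _ ≤ _ := by norm_num
    rw [norm_mul]
    have hE0 : 0 < E := Real.exp_pos _
    have hx := xw_pos i
    calc ‖Lam i z‖ * ‖F‖ ≤ (Real.exp (-(T i * z.re)) + xw i / 2) * (8 * Real.exp 2 * E) := by
          gcongr
      _ = 8 * Real.exp 2 * (Real.exp (-(T i * z.re)) * E + xw i / 2 * E) := by ring
      _ ≤ 8 * 7.4 * (Real.exp (-(7 / 16 * P i ^ 3)) + 1 / 2 * Real.exp (-(7 / 16 * P i ^ 3))) := by
          gcongr
      _ ≤ 89 * Real.exp (-(7 / 16 * P i ^ 3)) := by
          have := Real.exp_pos (-(7 / 16 * P i ^ 3)); nlinarith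
  have hfinal : ‖Bf U v i z‖ ≤ 90 * Real.exp (-(7 / 16 * P i ^ 3)) := by
    have hEp := Real.exp_pos (-(7 / 16 * P i ^ 3))
    rcases le_total z.re (bl (i + 1)) with hzb | hzb
    · have h1 := keyL z (by linarith) hzb (by linarith) (by linarith)
      have h2 := hmul _ h1
      have h3 : Lam i z * (Bf U v i z / Lam i z) = Bf U v i z := by
        have := hLamne z (by linarith) hzb hzi1 hzi2
        field_simp
      rw [h3] at h2
      linarith
    · have hxr : z.re ≤ x0 i + r := by linarith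
      have h1 := keyR z (by linarith) hxr (by linarith) (by linarith)
      have h2 := hmul _ h1
      have h3 := hBn z (by linarith) (by
        have e1 : x1 i ≤ x1 (i + 1) := by
          unfold x1
          have h5 : 5.5 / P i ≤ S i / 100 := by
            refine le_trans ?_ (seven_div_P i)
            gcongr; norm_num
          have h6 : 0 < 5.5 / P (i + 1) := by positivity
          have := S_succ i
          have := S_pos i
          linarith
        linarith) hzi1 hzi2
      rw [hid z hzi1 hzi2]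
      have h4 : Real.exp (-(2 * P (i + 1))) ≤ Real.exp (-(7 / 16 * P i ^ 3)) := by
        apply Real.exp_le_exp.2
        rw [P_succ]
        have hPb := P_big i
        norm_num at hPb
        have : (0 : ℝ) < P i ^ 3 := by positivity
        nlinarith
      calc ‖Bn z + Lam i z * Hn z‖ ≤ ‖Bn z‖ + ‖Lam i z * Hn z‖ := norm_add_le _ _
        _ ≤ Real.exp (-(7 / 16 * P i ^ 3)) + 89 * Real.exp (-(7 / 16 * P i ^ 3)) := by
            gcongr; exact h3.trans h4
        _ = _ := by ring
  refine hfinal.trans ?_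
  have h90 : (90 : ℝ) ≤ Real.exp (3 / 16 * P i ^ 3) := by
    have h := Real.add_one_le_exp (3 / 16 * P i ^ 3)
    have hPb := P_big i
    norm_num at hPb
    have : P i ≤ P i ^ 3 := by nlinarith [mul_pos hP hP, pow_pos hP 3]
    linarith
  calc 90 * Real.exp (-(7 / 16 * P i ^ 3))
      ≤ Real.exp (3 / 16 * P i ^ 3) * Real.exp (-(7 / 16 * P i ^ 3)) := by gcongr
    _ = Real.exp (-(P i ^ 3 / 4)) := by rw [← Real.exp_add]; congr 1; ring

end Pool.Agent.Nyman
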