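import Pool.Agent.Lib_helper93.Nyman.Par

set_option autoImplicit false
open Set Filter Topology

namespace Pool.Agent.Nyman

lemma T_ge_two (i : ℕ) : 2 ≤ T i := by
  have := P_big (i + 1); unfold T; norm_num at this ⊢; linarith

lemma Hs_pos (i : ℕ) : 0 < Hs i := by
  unfold Hs
  have := T_ge_two i
  exact mul_pos (sg_pos i) (by linarith)

/-- asymmetric gauge -/
noncomputable def pg (i : ℕ) (x : ℝ) : ℝ := max (sg i * x) (-(Hs i * x))

lemma pg_nonneg (i : ℕ) (x : ℝ) : 0 ≤ pg i x := by
  unfold pg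
  rcases le_total 0 x with h | h
  · exact le_max_of_le_left (mul_nonneg (sg_pos i).le h)
  · exact le_max_of_le_right (by have := mul_nonneg (Hs_pos i).le (neg_nonneg.2 h); linarith)

lemma pg_add (i : ℕ) (x y : ℝ) : pg i (x + y) ≤ pg i x + pg i y := by
  unfold pg
  apply max_le
  · rw [mul_add]
    exact add_le_add (le_max_left _ _) (le_max_left _ _)
  · rw [mul_add, neg_add]
    exact add_le_add (le_max_right _ _) (le_max_right _ _)

lemma pg_zero (i : ℕ) : pg i 0 = 0 := by simp [pg]

lemma pg_of_nonneg (i : ℕ) {x : ℝ} (h : 0 ≤ x) : pg i x = sg i * x := by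
  unfold pg
  apply max_eq_left
  have h1 := mul_nonneg (sg_pos i).le h
  have h2 := mul_nonneg (Hs_pos i).le h
  linarith

lemma pg_le_abs (i : ℕ) (x : ℝ) : pg i x ≤ (sg i + Hs i) * |x| := by
  unfold pg
  have h1 := sg_pos i
  have h2 := Hs_pos i
  apply max_le
  · have := le_abs_self x
    have := abs_nonneg x
    nlinarith
  · have := neg_abs_le x
    have := abs_nonneg x
    nlinarith

noncomputable def rho (i : ℕ) (t : ℝ) : ℝ := ⨅ n : ℤ, pg i (t - n * T i)

lemma rho_bdd (i : ℕ) (t : ℝ) : BddBelow (Set.range fun n : ℤ => pg i (t - n * T i)) :=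
  ⟨0, by rintro _ ⟨n, rfl⟩; exact pg_nonneg _ _⟩

lemma rho_nonneg (i : ℕ) (t : ℝ) : 0 ≤ rho i t := le_ciInf fun _ => pg_nonneg _ _

lemma rho_le (i : ℕ) (t : ℝ) (n : ℤ) : rho i t ≤ pg i (t - n * T i) :=
  ciInf_le (rho_bdd i t) n

lemma rho_le_pg (i : ℕ) (t : ℝ) : rho i t ≤ pg i t := by
  have := rho_le i t 0
  simpa using this

lemma rho_add (i : ℕ) (s t : ℝ) : rho i (s + t) ≤ rho i s + rho i t := by
  have h : ∀ n m : ℤ, rho i (s + t) ≤ pg i (s - n * T i) + pg i (t - m * T i) := by
    intro n m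
    have h1 := rho_le i (s + t) (n + m)
    have h2 := pg_add i (s - n * T i) (t - m * T i)
    have e : s + t - ((n + m : ℤ) : ℝ) * T i = (s - n * T i) + (t - m * T i) := by
      push_cast; ring
    rw [e] at h1
    linarith
  have h2 : ∀ n : ℤ, rho i (s + t) - pg i (s - n * T i) ≤ rho i t := by
    intro n
    apply le_ciInf
    intro m
    have := h n m
    linarith
  have h3 : rho i (s + t) - rho i t ≤ rho i s := by
    apply le_ciInf
    intro n
    have := h2 n
    linarith
  linarith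

lemma rho_lip (i : ℕ) (s t : ℝ) : rho i s ≤ rho i t + (sg i + Hs i) * |s - t| := by
  have h := rho_add i t (s - t)
  have h1 := rho_le_pg i (s - t)
  have h2 := pg_le_abs i (s - t)
  rw [add_sub_cancel] at h
  linarith

lemma rho_continuous (i : ℕ) : Continuous (rho i) := by
  have h0 : 0 ≤ sg i + Hs i := by have := sg_pos i; have := Hs_pos i; linarith
  have : LipschitzWith (Real.toNNReal (sg i + Hs i)) (rho i) := by
    apply LipschitzWith.of_le_add_mul
    intro x y
    rw [Real.coe_toNNReal _ h0, Real.dist_eq]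
    exact rho_lip i x y
  exact this.continuous

lemma rho_le_lin (i : ℕ) {t : ℝ} (h : 0 ≤ t) : rho i t ≤ sg i * t := by
  rw [← pg_of_nonneg i h]; exact rho_le_pg i t

/-- the sawtooth lower bound -/
lemma rho_ge (i : ℕ) (n : ℤ) {s : ℝ} (h1 : -1 ≤ s) (h2 : s ≤ T i - 1) :
    pg i s ≤ rho i (n * T i + s) := by
  apply le_ciInf
  intro m
  have hT := T_ge_two i
  have hsg := sg_pos i
  have hH := Hs_pos i
  have e : (n * T i + s - m * T i : ℝ) = s + ((n - m : ℤ) : ℝ) * T i := by push_cast; ring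
  rw [e]
  set k : ℤ := n - m
  have hHdef : Hs i = sg i * (T i - 1) := rfl
  rcases lt_trichotomy k 0 with hk | hk | hk
  · -- k ≤ -1
    have hk1 : (k : ℝ) ≤ -1 := by exact_mod_cast (by omega : k ≤ -1)
    have hkT : (k : ℝ) * T i ≤ -1 * T i := by
      apply mul_le_mul_of_nonneg_right hk1 (by linarith)
    have h3 : Hs i * (T i - s) ≤ pg i (s + k * T i) := by
      refine le_trans ?_ (le_max_right _ _)
      have : Hs i * (s + k * T i) ≤ Hs i * (s - T i) :=
        mul_le_mul_of_nonneg_left (by linarith) hH.le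
      nlinarith
    refine le_trans ?_ h3
    unfold pg
    apply max_le
    · -- sg * s ≤ Hs * (T - s)
      have a1 : Hs i * 1 ≤ Hs i * (T i - s) := mul_le_mul_of_nonneg_left (by linarith) hH.le
      have a2 : sg i * s ≤ sg i * (T i - 1) := mul_le_mul_of_nonneg_left h2 hsg.le
      linarith
    · nlinarith
  · rw [hk]; simp
  · have hk1 : (1 : ℝ) ≤ k := by exact_mod_cast (by omega : 1 ≤ k)
    have hkT : 1 * T i ≤ (k : ℝ) * T i := mul_le_mul_of_nonneg_right hk1 (by linarith)
    have h3 : sg i * (s + T i) ≤ pg i (s + k * T i) := by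
      refine le_trans ?_ (le_max_left _ _)
      exact mul_le_mul_of_nonneg_left (by linarith) hsg.le
    refine le_trans ?_ h3
    unfold pg
    apply max_le
    · nlinarith
    · have a1 : -(Hs i * s) ≤ Hs i * 1 := by nlinarith
      have a2 : sg i * (T i - 1) ≤ sg i * (s + T i) := mul_le_mul_of_nonneg_left (by linarith) hsg.le
      linarith

lemma rho_lin (i : ℕ) {t : ℝ} (h1 : 0 ≤ t) (h2 : t ≤ T i - 1) : sg i * t ≤ rho i t := by
  have := rho_ge i 0 (s := t) (by linarith) h2
  rw [pg_of_nonneg i h1] at this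
  simpa using this

/-- log-weight -/
noncomputable def W (t : ℝ) : ℝ := ∑' i, rho i t

noncomputable def om (t : ℝ) : ℝ := Real.exp (W t)

lemma S_tendsto : Tendsto S atTop (𝓝 0) := by
  unfold S
  exact tendsto_pow_atTop_nhds_zero_of_lt_one (by norm_num) (by norm_num)

lemma sum_sg (n : ℕ) : ∑ i ∈ Finset.range n, sg i = 1 - S n := by
  unfold sg
  rw [Finset.sum_range_sub', S_zero]

lemma sg_summable : Summable sg := by
  have : sg = fun i => 15 / 16 * S i := funext sg_eq
  rw [this]
  apply Summable.mul_left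
  unfold S
  exact summable_geometric_of_lt_one (by norm_num) (by norm_num)

lemma rho_summable {t : ℝ} (h : 0 ≤ t) : Summable (fun i => rho i t) :=
  Summable.of_nonneg_of_le (fun i => rho_nonneg i t) (fun i => rho_le_lin i h)
    (sg_summable.mul_right t)

lemma W_nonneg (t : ℝ) : 0 ≤ W t := tsum_nonneg fun i => rho_nonneg i t

lemma W_le {t : ℝ} (h : 0 ≤ t) : W t ≤ t := by
  refine Real.tsum_le_of_sum_range_le (fun i => rho_nonneg i t) (fun n => ?_)
  calc ∑ i ∈ Finset.range n, rho i t ≤ ∑ i ∈ Finset.range n, sg i * t :=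
        Finset.sum_le_sum fun i _ => rho_le_lin i h
    _ = (1 - S n) * t := by rw [← Finset.sum_mul, sum_sg]
    _ ≤ 1 * t := by
        have := S_pos n
        gcongr
        linarith
    _ = t := one_mul t

lemma W_add {s t : ℝ} (hs : 0 ≤ s) (ht : 0 ≤ t) : W (s + t) ≤ W s + W t := by
  unfold W
  rw [← (rho_summable hs).tsum_add (rho_summable ht)]
  exact (rho_summable (add_nonneg hs ht)).tsum_le_tsum (fun i => rho_add i s t)
    ((rho_summable hs).add (rho_summable ht))

lemma W_continuousOn : ContinuousOn W (Ici 0) := by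
  have key : ∀ M : ℝ, 0 ≤ M → ContinuousOn W (Icc 0 M) := by
    intro M hM
    apply continuousOn_tsum (u := fun i => sg i * M)
    · intro i; exact (rho_continuous i).continuousOn
    · exact sg_summable.mul_right M
    · intro i t ht
      rw [Real.norm_of_nonneg (rho_nonneg i t)]
      refine (rho_le_lin i ht.1).trans ?_
      exact mul_le_mul_of_nonneg_left ht.2 (sg_pos i).le
  intro t ht
  have ht0 : (0 : ℝ) ≤ t := ht
  have h := key (t + 1) (by linarith) t ⟨ht0, by linarith⟩
  apply h.mono_of_mem_nhdsWithin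
  have : Iio (t + 1) ∈ 𝓝 t := Iio_mem_nhds (by linarith)
  filter_upwards [mem_nhdsWithin_of_mem_nhds this, self_mem_nhdsWithin] with x hx hx2
  exact ⟨hx2, le_of_lt hx⟩

lemma om_continuousOn : ContinuousOn om (Ici 0) := Real.continuous_exp.comp_continuousOn W_continuousOn

lemma om_pos (t : ℝ) : 0 < om t := Real.exp_pos _

lemma one_le_om (t : ℝ) : 1 ≤ om t := Real.one_le_exp (W_nonneg t)

lemma om_submul {s t : ℝ} (hs : 0 ≤ s) (ht : 0 ≤ t) : om (s + t) ≤ om s * om t := by
  unfold om
  rw [← Real.exp_add]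
  exact Real.exp_le_exp.2 (W_add hs ht)

lemma om_le_exp {t : ℝ} (h : 0 ≤ t) : om t ≤ Real.exp t := Real.exp_le_exp.2 (W_le h)

lemma T_dvd {j i : ℕ} (h : j ≤ i) : ∃ n : ℕ, T i = n * T j := by
  have : Pn (j + 1) ∣ Pn (i + 1) := by
    unfold Pn
    apply pow_dvd_pow
    have : 4 ^ (j + 1) ≤ 4 ^ (i + 1) := Nat.pow_le_pow_right (by norm_num) (by omega)
    omega
  obtain ⟨n, hn⟩ := this
  refine ⟨n, ?_⟩
  unfold T P
  rw [hn]; push_cast; ring

lemma T_lt_succ (i : ℕ) : T i + 1 ≤ T (i + 1) := by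
  unfold T
  rw [P_succ (i + 1)]
  have := P_big (i + 1)
  norm_num at this
  have h2 : P (i+1) * P (i+1) ≥ 1 := by nlinarith
  nlinarith [sq_nonneg (P (i+1)), sq_nonneg (P (i+1) ^ 2 - P (i+1)), mul_self_nonneg (P (i+1) ^ 2)]

lemma T_mono {j i : ℕ} (h : j ≤ i) : T j ≤ T i := by
  induction i, h using Nat.le_induction with
  | base => exact le_rfl
  | succ k _ ih => have := T_lt_succ k; linarith

lemma T_lt {j i : ℕ} (h : j < i) : T j ≤ T i - 1 := by
  have h1 := T_lt_succ j
  have h2 := T_mono (show j + 1 ≤ i from h)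
  linarith

lemma sum_Ioo_sg {i n : ℕ} (h : i < n) :
    ∑ j ∈ Finset.Ico (i + 1) n, sg j = S (i + 1) - S n := by
  rw [Finset.sum_Ico_eq_sub _ (by omega : i + 1 ≤ n), sum_sg, sum_sg]
  ring

lemma W_T_le (i : ℕ) : W (T i) ≤ S (i + 1) * T i := by
  refine Real.tsum_le_of_sum_range_le (fun j => rho_nonneg j _) (fun n => ?_)
  rcases le_or_gt n (i + 1) with h | h
  · have : ∑ j ∈ Finset.range n, rho j (T i) ≤ 0 := by
      apply Finset.sum_nonpos
      intro j hj
      obtain ⟨m, hm⟩ := T_dvd (show j ≤ i by have := Finset.mem_range.1 hj; omega)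
      have := rho_le j (T i) m
      rw [hm] at this ⊢
      simpa [pg_zero] using this
    exact this.trans (mul_nonneg (S_pos _).le (T_pos _).le)
  · rw [← Finset.sum_range_add_sum_Ico _ h.le]
    have h1 : ∑ j ∈ Finset.range (i + 1), rho j (T i) ≤ 0 := by
      apply Finset.sum_nonpos
      intro j hj
      obtain ⟨m, hm⟩ := T_dvd (show j ≤ i by have := Finset.mem_range.1 hj; omega)
      have := rho_le j (T i) m
      rw [hm] at this ⊢
      simpa [pg_zero] using this
    have h2 : ∑ j ∈ Finset.Ico (i + 1) n, rho j (T i) ≤ ∑ j ∈ Finset.Ico (i + 1) n, sg j * T i :=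
      Finset.sum_le_sum fun j _ => rho_le_lin j (T_pos i).le
    rw [← Finset.sum_mul, sum_Ioo_sg (by omega)] at h2
    have h3 := S_pos n
    have h4 := T_pos i
    nlinarith

lemma om_T_le (i : ℕ) : om (T i) ≤ xw i := Real.exp_le_exp.2 (W_T_le i)

lemma W_ge (i : ℕ) {t : ℝ} (h0 : 0 ≤ t) (h1 : t ≤ T (i + 1) - 1) :
    rho i t + S (i + 1) * t ≤ W t := by
  have key : ∀ n, i < n → rho i t + (S (i + 1) - S n) * t ≤ W t := by
    intro n hn
    have e1 : ∑ j ∈ Finset.range n, rho j t ≤ W t :=
      (rho_summable h0).sum_le_tsum _ (fun j _ => rho_nonneg j t)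
    refine le_trans ?_ e1
    rw [← Finset.sum_range_add_sum_Ico _ (show i + 1 ≤ n from hn)]
    apply add_le_add
    · exact Finset.single_le_sum (f := fun j => rho j t) (fun j _ => rho_nonneg j t)
        (Finset.mem_range.2 (by omega))
    · rw [← sum_Ioo_sg hn, Finset.sum_mul]
      apply Finset.sum_le_sum
      intro j hj
      have hj1 := (Finset.mem_Ico.1 hj).1
      apply rho_lin j h0
      have := T_mono hj1
      linarith
  have ht : Tendsto (fun n => rho i t + (S (i + 1) - S n) * t) atTop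
      (𝓝 (rho i t + (S (i + 1) - 0) * t)) :=
    (((tendsto_const_nhds.sub S_tendsto).mul_const t).const_add _)
  rw [sub_zero] at ht
  refine le_of_tendsto ht ?_
  filter_upwards [eventually_gt_atTop i] with n hn
  exact key n hn

/-- The key lower bound of the weight on the `n`-th block of level `i`. -/
lemma om_ge (i n : ℕ) (hn : n < N i) {t a : ℝ} (h0 : 0 ≤ t) (h1 : n * T i - 1 ≤ t)
    (h2 : t ≤ (n + 1) * T i - 1) (ha1 : -S i ≤ a) (ha2 : a ≤ Hs i - S (i + 1)) :
    xw i ^ n * Real.exp (-(a * (t - n * T i))) ≤ om t := by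
  have hT := T_pos i
  have h3 : t ≤ T (i + 1) - 1 := by
    rw [← N_mul]
    have : ((n : ℝ) + 1) ≤ N i := by exact_mod_cast hn
    nlinarith
  have h4 := W_ge i h0 h3
  set s := t - n * T i with hs
  have h5 := rho_ge i n (s := s) (by linarith) (by linarith)
  have e : ((n : ℤ) : ℝ) * T i + s = t := by push_cast; rw [hs]; ring
  rw [e] at h5
  unfold om xw
  rw [← Real.exp_nat_mul, ← Real.exp_add]
  apply Real.exp_le_exp.2
  have h6 : -(a * s) ≤ pg i s + S (i + 1) * s := by
    unfold pg
    rcases le_total 0 s with h | h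
    · have : sg i * s ≤ max (sg i * s) (-(Hs i * s)) := le_max_left _ _
      have e2 : sg i = S i - S (i + 1) := rfl
      have : -(a * s) ≤ S i * s := by nlinarith
      nlinarith
    · have : -(Hs i * s) ≤ max (sg i * s) (-(Hs i * s)) := le_max_right _ _
      nlinarith
  have e3 : S (i + 1) * t = n * (S (i + 1) * T i) + S (i + 1) * s := by rw [hs]; ring
  linarith

/-- characters are in the closed right half-plane -/
lemma re_nonneg_of_char {x C : ℝ} (h : ∀ t : ℝ, 0 ≤ t → Real.exp (-x * t) ≤ C * om t) : 0 ≤ x := by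
  by_contra hx
  push Not at hx
  -- pick i with S (i+1) ≤ -x/2
  have h1 : ∀ᶠ i in atTop, S (i + 1) < -x / 2 :=
    ((tendsto_add_atTop_iff_nat 1).2 S_tendsto).eventually_lt_const (by linarith)
  have hPt : Tendsto (fun i : ℕ => T i) atTop atTop := by
    apply tendsto_atTop_mono (f := fun i : ℕ => (i : ℝ))
    · intro i
      have := P_ge (i + 1)
      unfold T
      refine le_trans ?_ this
      have h3 : i < 2 ^ (40 * (i + 1 + 1)) :=
        lt_of_lt_of_le (Nat.lt_two_pow_self) (Nat.pow_le_pow_right (by norm_num) (by omega))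
      exact_mod_cast h3.le
    · exact tendsto_natCast_atTop_atTop
  have h2 : ∀ᶠ i in atTop, max C 1 + 1 < Real.exp (-x / 2 * T i) := by
    have : Tendsto (fun i : ℕ => Real.exp (-x / 2 * T i)) atTop atTop :=
      Real.tendsto_exp_atTop.comp (hPt.const_mul_atTop (by linarith))
    exact this.eventually_gt_atTop _
  obtain ⟨i, hi1, hi2⟩ := (h1.and h2).exists
  have h3 := h (T i) (T_pos i).le
  have hT := T_pos i
  have h4 : om (T i) ≤ Real.exp (-x / 2 * T i) := by
    refine (om_T_le i).trans ?_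
    unfold xw
    apply Real.exp_le_exp.2
    nlinarith
  have h5 : Real.exp (-x * T i) = Real.exp (-x / 2 * T i) * Real.exp (-x / 2 * T i) := by
    rw [← Real.exp_add]; congr 1; ring
  have h6 : C * om (T i) ≤ max C 1 * Real.exp (-x / 2 * T i) := by
    have := om_pos (T i)
    calc C * om (T i) ≤ max C 1 * om (T i) := by gcongr; exact le_max_left _ _
      _ ≤ _ := by gcongr
  rw [h5] at h3
  have h7 : 0 < Real.exp (-x / 2 * T i) := Real.exp_pos _
  have h8 := h3.trans h6
  have h9 : Real.exp (-x / 2 * T i) ≤ max C 1 := le_of_mul_le_mul_right h8 h7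
  linarith

end Pool.Agent.Nyman
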